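import Pool.Agent.Helper61.EF.Polar

/-!
PROJECT EF, module EF-10. Measure preservation.

Change of variables `MeasureTheory.integral_image_eq_integral_abs_det_fderiv_smul` on the measurable (open) set `dom ρ`: `g t` is differentiable, injective on `dom ρ`, `|det| = 1` (`g_det`) and
`g t '' dom ρ = dom ρ` (`g_dom`).
-/

set_option autoImplicit false

namespace Pool.Agent.Helper61.EF

open Complex MeasureTheory Set

variable {ρ : ℝ → ℝ} {T : ℝ}

theorem push (h : IsRadial ρ) (F : PerfectFlow ρ T) {t : ℝ} (ht : t ∈ Icc (0 : ℝ) T) (f : ℂ → ℝ) :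
    ∫ a in dom ρ, f (F.g t a) = ∫ x in dom ρ, f x := by
  have hd : Differentiable ℝ (F.g t) := by
    have h1 : ContDiff ℝ 2 (F.g t) :=
      F.smooth_g.comp (contDiff_const.prodMk contDiff_id : ContDiff ℝ 2 (fun x : ℂ => (t, x)))
    exact h1.differentiable two_ne_zero
  have hb := F.g_dom t ht
  have h2 := integral_image_eq_integral_abs_det_fderiv_smul (volume : Measure ℂ) (measurableSet_dom h)
    (fun x _ => (hd x).hasFDerivAt.hasFDerivWithinAt) hb.injOn f
  rw [hb.image_eq] at h2
  rw [h2]
  refine setIntegral_congr_fun (measurableSet_dom h) fun x hx => ?_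
  have h3 : (fderiv ℝ (F.g t) x).det = 1 := F.g_det t ht x (Or.inl hx)
  simp only [h3, abs_one, one_smul]

end Pool.Agent.Helper61.EF
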