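import Pool.Agent.Helper61.EF.Polar

/-!
PROJECT EF, module EF-06. Integration over the domain: parameters, Fubini, Cauchy-Schwarz, vanishing.

* `continuous_integral_dom`: dominated convergence; near `t₀` the function is bounded on the compact set `[t₀ - 1, t₀ + 1] × (dom ∪ bd)` and `dom ρ` has finite measure
  (`continuous_of_dominated`-type lemma; or `continuous_parametric_integral_of_continuous` on the compact set and restrict).
* `fubini_dom`: `MeasureTheory.integral_integral_swap` (the function is continuous, so bounded on the compact set `[0, T] × (dom ∪ bd)`; both measures finite).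
* `cauchy_dom`: for `a, b` continuous: `|∫ dot a b| ≤ √(∫ ‖a‖²) √(∫ ‖b‖²)`: from `abs_dot_le` and the discriminant of `t ↦ ∫ (‖a‖ - t ‖b‖)^2`, or
  `MeasureTheory.integral_mul_le_Lp_mul_Lq_of_nonneg` with `p = q = 2`. Same for `cauchy_interval`.
* `eq_zero_of_integral`: `f ≥ 0` continuous with integral `0` over the open set `dom ρ` vanishes on `dom ρ` (`MeasureTheory.Measure.eq_of_ae_eq`, or `Continuous.integral_pos_of_hasCompactSupport_nonneg_nonzero`-type;
  `setIntegral_eq_zero_iff_of_nonneg_ae` and an open subset of measure zero is empty), hence on `closure (dom ρ) = dom ρ ∪ bd ρ`.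
-/

set_option autoImplicit false

namespace Pool.Agent.Helper61.EF

open Complex MeasureTheory Set

variable {ρ : ℝ → ℝ}

/-- Cauchy-Schwarz. -/
theorem tools_cs {α : Type*} [MeasurableSpace α] (μ : Measure α) (f g : α → ℝ)
    (hf : Integrable (fun x => f x ^ 2) μ) (hg : Integrable (fun x => g x ^ 2) μ)
    (hfg : Integrable (fun x => f x * g x) μ) :
    (∫ x, f x * g x ∂μ) ^ 2 ≤ (∫ x, f x ^ 2 ∂μ) * ∫ x, g x ^ 2 ∂μ := by
  have h : ∀ t : ℝ, 0 ≤ (∫ x, g x ^ 2 ∂μ) * (t * t) + (-2 * ∫ x, f x * g x ∂μ) * t +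
      ∫ x, f x ^ 2 ∂μ := by
    intro t
    have h1 : ∫ x, (f x - t * g x) ^ 2 ∂μ = (∫ x, g x ^ 2 ∂μ) * (t * t) +
        (-2 * ∫ x, f x * g x ∂μ) * t + ∫ x, f x ^ 2 ∂μ := by
      have e : (fun x => (f x - t * g x) ^ 2) = fun x => (t * t) * (g x ^ 2) +
          (-2 * t) * (f x * g x) + f x ^ 2 := by
        funext x
        ring
      have i1 : Integrable (fun x => t * t * g x ^ 2) μ := hg.const_mul _
      have i2 : Integrable (fun x => -2 * t * (f x * g x)) μ := hfg.const_mul _
      have i3 : Integrable (fun x => t * t * g x ^ 2 + -2 * t * (f x * g x)) μ := i1.add i2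
      rw [e, integral_add i3 hf, integral_add i1 i2, integral_const_mul, integral_const_mul]
      ring
    rw [← h1]
    exact integral_nonneg fun x => sq_nonneg _
  have h2 := discrim_le_zero h
  unfold discrim at h2
  nlinarith

private theorem tools_sub (h : IsRadial ρ) {X : Type*} [TopologicalSpace X] (K : Set X) (hK : IsCompact K) :
    IsCompact ((dom ρ ∪ bd ρ) ×ˢ K) := (isCompact_cdom h).prod hK

private theorem tools_meas (h : IsRadial ρ) : volume (dom ρ) < ⊤ :=
  lt_of_le_of_lt (measure_mono subset_union_left) (isCompact_cdom h).measure_lt_top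

theorem continuous_integral_dom (h : IsRadial ρ) (f : ℝ → ℂ → ℝ)
    (hf : Continuous (fun q : ℝ × ℂ => f q.1 q.2)) : Continuous (fun t => ∫ x in dom ρ, f t x) := by
  have h1 : Continuous (fun t => ∫ x in (dom ρ ∪ bd ρ), f t x ∂(volume.restrict (dom ρ))) :=
    continuous_parametric_integral_of_continuous (f := f) hf (isCompact_cdom h)
  have h2 : (volume.restrict (dom ρ)).restrict (dom ρ ∪ bd ρ) = volume.restrict (dom ρ) := by
    rw [Measure.restrict_restrict (isCompact_cdom h).measurableSet,
      inter_eq_self_of_subset_right subset_union_left]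
  rw [h2] at h1
  exact h1

theorem fubini_dom (h : IsRadial ρ) (f : ℝ → ℂ → ℝ)
    (hf : Continuous (fun q : ℝ × ℂ => f q.1 q.2)) (a b : ℝ) :
    ∫ x in dom ρ, (∫ t in a..b, f t x) = ∫ t in a..b, ∫ x in dom ρ, f t x := by
  have key : ∀ a b : ℝ, a ≤ b →
      ∫ x in dom ρ, (∫ t in a..b, f t x) = ∫ t in a..b, ∫ x in dom ρ, f t x := by
    intro a b hab
    simp only [intervalIntegral.integral_of_le hab]
    refine integral_integral_swap (f := fun x t => f t x) ?_
    rw [Measure.prod_restrict]
    have hc : Continuous (Function.uncurry (fun (x : ℂ) (t : ℝ) => f t x)) :=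
      hf.comp (continuous_snd.prodMk continuous_fst)
    have h1 : IntegrableOn (Function.uncurry (fun (x : ℂ) (t : ℝ) => f t x))
        ((dom ρ ∪ bd ρ) ×ˢ Icc a b) (volume.prod volume) :=
      hc.continuousOn.integrableOn_compact ((isCompact_cdom h).prod isCompact_Icc)
    exact h1.mono_set (prod_mono subset_union_left Ioc_subset_Icc_self)
  rcases le_total a b with hab | hab
  · exact key a b hab
  · have h1 := key b a hab
    simp only [intervalIntegral.integral_symm b a, integral_neg] 
    rw [h1]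

theorem cauchy_dom (h : IsRadial ρ) (a b : ℂ → ℂ) (ha : Continuous a) (hb : Continuous b) :
    |∫ x in dom ρ, dot (a x) (b x)| ≤
      Real.sqrt (∫ x in dom ρ, ‖a x‖ ^ 2) * Real.sqrt (∫ x in dom ρ, ‖b x‖ ^ 2) := by
  have ha2 : Integrable (fun x => ‖a x‖ ^ 2) (volume.restrict (dom ρ)) :=
    integrableOn_dom h _ (ha.norm.pow 2)
  have hb2 : Integrable (fun x => ‖b x‖ ^ 2) (volume.restrict (dom ρ)) :=
    integrableOn_dom h _ (hb.norm.pow 2)
  have hab : Integrable (fun x => ‖a x‖ * ‖b x‖) (volume.restrict (dom ρ)) :=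
    integrableOn_dom h _ (ha.norm.mul hb.norm)
  have h1 := tools_cs (volume.restrict (dom ρ)) (fun x => ‖a x‖) (fun x => ‖b x‖) ha2 hb2 hab
  have h2 : |∫ x in dom ρ, dot (a x) (b x)| ≤ ∫ x in dom ρ, ‖a x‖ * ‖b x‖ := by
    have h3 := norm_integral_le_of_norm_le hab (f := fun x => dot (a x) (b x))
      (Filter.Eventually.of_forall fun x => by
        rw [Real.norm_eq_abs]
        exact abs_dot_le _ _)
    rwa [Real.norm_eq_abs] at h3
  have h4 : ∫ x in dom ρ, ‖a x‖ * ‖b x‖ ≤
      Real.sqrt ((∫ x in dom ρ, ‖a x‖ ^ 2) * ∫ x in dom ρ, ‖b x‖ ^ 2) := by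
    apply Real.le_sqrt_of_sq_le
    exact h1
  rw [← Real.sqrt_mul (integral_nonneg fun x => by positivity)]
  exact h2.trans h4

theorem cauchy_interval (f g : ℝ → ℝ) (hf : Continuous f) (hg : Continuous g) {a b : ℝ} (hab : a ≤ b) :
    (∫ x in a..b, f x * g x) ^ 2 ≤ (∫ x in a..b, f x ^ 2) * ∫ x in a..b, g x ^ 2 := by
  simp only [intervalIntegral.integral_of_le hab]
  have hI : ∀ k : ℝ → ℝ, Continuous k → Integrable k (volume.restrict (Ioc a b)) := fun k hk =>
    (hk.continuousOn.integrableOn_compact isCompact_Icc).mono_set Ioc_subset_Icc_self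
  exact tools_cs (volume.restrict (Ioc a b)) f g (hI _ (hf.pow 2)) (hI _ (hg.pow 2)) (hI _ (hf.mul hg))

theorem eq_zero_of_integral (h : IsRadial ρ) (f : ℂ → ℝ) (hf : Continuous f) (h0 : ∀ x, 0 ≤ f x)
    (hi : ∫ x in dom ρ, f x ≤ 0) : ∀ x ∈ dom ρ ∪ bd ρ, f x = 0 := by
  have h1 : ∀ x ∈ dom ρ, f x = 0 := by
    intro x hx
    by_contra hne
    have hpos : 0 < volume (Function.support f ∩ dom ρ) := by
      apply IsOpen.measure_pos
      · exact (isOpen_compl_singleton.preimage hf).inter (isOpen_dom h)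
      · exact ⟨x, hne, hx⟩
    have h2 := (setIntegral_pos_iff_support_of_nonneg_ae
      (Filter.Eventually.of_forall fun y => h0 y) (integrableOn_dom h f hf)).2 hpos
    linarith
  intro x hx
  rw [← closure_dom h] at hx
  have hcl : IsClosed {y | f y = 0} := isClosed_eq hf continuous_const
  exact closure_minimal (s := dom ρ) (t := {y | f y = 0}) h1 hcl hx

end Pool.Agent.Helper61.EF
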