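import Pool.Agent.Helper61.EF.Flux
import Pool.Agent.Helper61.EF.Push
import Pool.Agent.Helper61.EF.Tools

/-!
PROJECT EF, module EF-17. Conservation of angular momentum in the disc.

`ρ = R` constant. `pressure_torque`: `div (p * I x) = fderiv p (I x) + p div (I x)`, `div (I x) = 0`, flux `p(c) cross (I c) c' = p(c) cross (I c) (I c) = 0` (`deriv_bc_const`, `cross_self`): `∫_{dom} fderiv (p t) x (I x) = 0`.
`angular`: for `a ∈ dom ρ`, `s ∈ [0,T]`: `d/ds cross (g s a) (u s (g s a)) = cross u u + cross g (∂_s u + Du u) = dot (I g) (∂_s u + Du u) = - fderiv (p s) (g s a) (I * g s a)` (`cross_eq_dot`, `dot_comm`, `euler` with `v = I g`).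
Integrate in `s` and `a` as in `Energy.lean` (`fubini_dom`, `push`).
-/

set_option autoImplicit false

namespace Pool.Agent.Helper61.EF

open Complex MeasureTheory Set

variable {T : ℝ}

theorem angular_isRadial {R : ℝ} (hR : 0 < R) : IsRadial (fun _ => R) :=
  ⟨contDiff_const, fun _ => rfl, fun _ => hR⟩

theorem angular_fderiv_space {E : Type*} [NormedAddCommGroup E] [NormedSpace ℝ E] (f : ℝ → ℂ → E)
    (hf : ContDiff ℝ 2 (fun q : ℝ × ℂ => f q.1 q.2)) (t : ℝ) (x v : ℂ) :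
    fderiv ℝ (f t) x v = fderiv ℝ (fun q : ℝ × ℂ => f q.1 q.2) (t, x) (0, v) := by
  have h1 : HasFDerivAt (fun q : ℝ × ℂ => f q.1 q.2)
      (fderiv ℝ (fun q : ℝ × ℂ => f q.1 q.2) (t, x)) (t, x) :=
    (hf.differentiable (by norm_num)).differentiableAt.hasFDerivAt
  have h2 : HasFDerivAt (fun y : ℂ => ((t, y) : ℝ × ℂ)) (ContinuousLinearMap.inr ℝ ℝ ℂ) x :=
    hasFDerivAt_prodMk_right t x
  have h3 := h1.comp x h2
  have h4 : HasFDerivAt (f t)
      ((fderiv ℝ (fun q : ℝ × ℂ => f q.1 q.2) (t, x)).comp (ContinuousLinearMap.inr ℝ ℝ ℂ)) x := h3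
  rw [h4.fderiv]
  rfl

theorem angular_deriv_time {E : Type*} [NormedAddCommGroup E] [NormedSpace ℝ E] (f : ℝ → ℂ → E)
    (hf : ContDiff ℝ 2 (fun q : ℝ × ℂ => f q.1 q.2)) (t : ℝ) (x : ℂ) :
    deriv (fun s => f s x) t = fderiv ℝ (fun q : ℝ × ℂ => f q.1 q.2) (t, x) (1, 0) := by
  have h1 : HasFDerivAt (fun q : ℝ × ℂ => f q.1 q.2)
      (fderiv ℝ (fun q : ℝ × ℂ => f q.1 q.2) (t, x)) (t, x) :=
    (hf.differentiable (by norm_num)).differentiableAt.hasFDerivAt
  have h2 : HasDerivAt (fun s : ℝ => ((s, x) : ℝ × ℂ)) ((1 : ℝ), (0 : ℂ)) t :=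
    (hasDerivAt_id t).prodMk (hasDerivAt_const t x)
  have h3 := HasFDerivAt.comp_hasDerivAt (l := fun q : ℝ × ℂ => f q.1 q.2) t h1 h2
  exact h3.deriv

theorem angular_comp {E : Type*} [NormedAddCommGroup E] [NormedSpace ℝ E] (f : ℝ → ℂ → E)
    (hf : ContDiff ℝ 2 (fun q : ℝ × ℂ => f q.1 q.2)) (γ : ℝ → ℂ) (v : ℂ) (t : ℝ)
    (hγ : HasDerivAt γ v t) :
    HasDerivAt (fun s => f s (γ s)) (deriv (fun s => f s (γ t)) t + fderiv ℝ (f t) (γ t) v) t := by
  have h1 : HasFDerivAt (fun q : ℝ × ℂ => f q.1 q.2)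
      (fderiv ℝ (fun q : ℝ × ℂ => f q.1 q.2) (t, γ t)) (t, γ t) :=
    (hf.differentiable (by norm_num)).differentiableAt.hasFDerivAt
  have h2 : HasDerivAt (fun s : ℝ => ((s, γ s) : ℝ × ℂ)) ((1 : ℝ), v) t :=
    (hasDerivAt_id t).prodMk hγ
  have h3 := HasFDerivAt.comp_hasDerivAt (l := fun q : ℝ × ℂ => f q.1 q.2) t h1 h2
  rw [angular_deriv_time f hf, angular_fderiv_space f hf, ← map_add, Prod.mk_add_mk, add_zero,
    zero_add]
  exact h3

theorem angular_cross_deriv (a b : ℝ → ℂ) (a' b' : ℂ) (t : ℝ) (ha : HasDerivAt a a' t)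
    (hb : HasDerivAt b b' t) :
    HasDerivAt (fun s => cross (a s) (b s)) (cross a' (b t) + cross (a t) b') t := by
  have re : ∀ (f : ℝ → ℂ) (f' : ℂ), HasDerivAt f f' t → HasDerivAt (fun s => (f s).re) f'.re t :=
    fun f f' hf => Complex.reCLM.hasFDerivAt.comp_hasDerivAt t hf
  have im : ∀ (f : ℝ → ℂ) (f' : ℂ), HasDerivAt f f' t → HasDerivAt (fun s => (f s).im) f'.im t :=
    fun f f' hf => Complex.imCLM.hasFDerivAt.comp_hasDerivAt t hf
  have h := ((re a a' ha).mul (im b b' hb)).sub ((im a a' ha).mul (re b b' hb))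
  refine h.congr_deriv ?_
  unfold cross
  ring

theorem angular_continuous_fderiv (f : ℝ → ℂ → ℝ)
    (hf : ContDiff ℝ 2 (fun q : ℝ × ℂ => f q.1 q.2)) (g : ℝ × ℂ → ℂ) (w : ℝ × ℂ → ℂ)
    (hg : Continuous g) (hw : Continuous w) :
    Continuous (fun q : ℝ × ℂ => fderiv ℝ (f q.1) (g q) (w q)) := by
  have h1 : Continuous (fderiv ℝ (fun q : ℝ × ℂ => f q.1 q.2)) := hf.continuous_fderiv (by norm_num)
  have h2 : Continuous (fun q : ℝ × ℂ =>
      fderiv ℝ (fun q : ℝ × ℂ => f q.1 q.2) (q.1, g q) ((0 : ℝ), w q)) :=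
    (h1.comp (continuous_fst.prodMk hg)).clm_apply (continuous_const.prodMk hw)
  refine h2.congr ?_
  intro q
  rw [angular_fderiv_space f hf]

theorem pressure_torque {R : ℝ} (hR : 0 < R) (q : ℂ → ℝ) (hq : ContDiff ℝ 1 q) :
    ∫ x in dom (fun _ => R), fderiv ℝ q x (I * x) = 0 := by
  have hrad := angular_isRadial hR
  have hW : ContDiff ℝ 1 (fun x : ℂ => (q x : ℂ) * (I * x)) :=
    (Complex.ofRealCLM.contDiff.comp hq).mul (contDiff_const.mul contDiff_id)
  have hdiv : ∀ x : ℂ, div (fun x : ℂ => (q x : ℂ) * (I * x)) x = fderiv ℝ q x (I * x) := by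
    intro x
    have h1 : HasFDerivAt q (fderiv ℝ q x) x :=
      (hq.differentiable (by norm_num)).differentiableAt.hasFDerivAt
    have h2 : HasFDerivAt (fun x : ℂ => (q x : ℂ)) (Complex.ofRealCLM.comp (fderiv ℝ q x)) x :=
      Complex.ofRealCLM.hasFDerivAt.comp x h1
    have h3 : HasFDerivAt (fun x : ℂ => I * x) ((ContinuousLinearMap.mul ℝ ℂ) I) x :=
      ((ContinuousLinearMap.mul ℝ ℂ) I).hasFDerivAt
    have h4 : HasFDerivAt (fun x : ℂ => (q x : ℂ) * (I * x)) _ x := h2.mul h3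
    unfold div
    rw [h4.fderiv]
    have h5 : fderiv ℝ q x (I * x) = (I * x).re * fderiv ℝ q x 1 + (I * x).im * fderiv ℝ q x I := by
      have h6 : I * x = ((I * x).re) • (1 : ℂ) + ((I * x).im) • I := by
        apply Complex.ext <;> simp
      conv_lhs => rw [h6]
      rw [map_add, map_smul, map_smul]
      rfl
    rw [h5]
    simp
  have h := flux hrad (fun x : ℂ => (q x : ℂ) * (I * x)) hW
  simp only [hdiv] at h
  rw [h]
  have h0 : ∀ θ : ℝ, cross ((q (bc (fun _ => R) θ) : ℂ) * (I * bc (fun _ => R) θ))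
      (deriv (bc (fun _ => R)) θ) = 0 := by
    intro θ
    rw [deriv_bc_const]
    unfold cross
    simp
    ring
  simp only [h0]
  simp

theorem angular {R : ℝ} (hR : 0 < R) (F : PerfectFlow (fun _ => R) T) {t : ℝ}
    (ht : t ∈ Icc (0 : ℝ) T) :
    ∫ x in dom (fun _ => R), cross x (F.u t x) = ∫ x in dom (fun _ => R), cross x (F.u 0 x) := by
  have hrad := angular_isRadial hR
  have hT : (0 : ℝ) ≤ T := le_trans ht.1 ht.2
  have hmeas := measurableSet_dom hrad
  -- the torque along the flow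
  set τ : ℝ → ℂ → ℝ := fun s a => fderiv ℝ (F.p s) (F.g s a) (I * F.g s a) with hτ
  have hgc : Continuous (fun q : ℝ × ℂ => F.g q.1 q.2) := F.smooth_g.continuous
  have huc : Continuous (fun q : ℝ × ℂ => F.u q.1 q.2) := F.smooth_u.continuous
  have hτc : Continuous (fun q : ℝ × ℂ => τ q.1 q.2) :=
    angular_continuous_fderiv F.p F.smooth_p (fun q => F.g q.1 q.2) (fun q => I * F.g q.1 q.2)
      hgc (continuous_const.mul hgc)
  -- derivative
  have hder : ∀ a ∈ dom (fun _ => R), ∀ s ∈ Icc (0 : ℝ) T,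
      HasDerivAt (fun s => cross (F.g s a) (F.u s (F.g s a))) (-τ s a) s := by
    intro a ha s hs
    have h1 := F.g_ode s hs a (Or.inl ha)
    have h2 := angular_comp F.u F.smooth_u (fun s => F.g s a) _ s h1
    have h3 := angular_cross_deriv _ _ _ _ s h1 h2
    refine h3.congr_deriv ?_
    have hga : F.g s a ∈ dom (fun _ => R) ∪ bd (fun _ => R) :=
      Or.inl ((F.g_dom s hs).mapsTo ha)
    have h4 := F.euler s hs (F.g s a) hga (I * F.g s a)
    rw [cross_self, zero_add, cross_eq_dot, dot_comm]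
    exact h4
  have hftc : ∀ a ∈ dom (fun _ => R), cross (F.g t a) (F.u t (F.g t a)) =
      cross (F.g 0 a) (F.u 0 (F.g 0 a)) - ∫ s in (0 : ℝ)..t, τ s a := by
    intro a ha
    have h1 : ∀ s ∈ uIcc (0 : ℝ) t,
        HasDerivAt (fun s => cross (F.g s a) (F.u s (F.g s a))) (-τ s a) s := by
      intro s hs
      rw [uIcc_of_le ht.1] at hs
      exact hder a ha s ⟨hs.1, le_trans hs.2 ht.2⟩
    have h2 : Continuous (fun s => -τ s a) :=
      (hτc.comp (continuous_id.prodMk continuous_const)).neg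
    have h3 := intervalIntegral.integral_eq_sub_of_hasDerivAt h1 (h2.intervalIntegrable 0 t)
    rw [intervalIntegral.integral_neg] at h3
    linarith
  have hcr : ∀ (f g : ℂ → ℂ), Continuous f → Continuous g → Continuous (fun x => cross (f x) (g x)) := by
    intro f g hf hg
    unfold cross
    exact ((Complex.continuous_re.comp hf).mul (Complex.continuous_im.comp hg)).sub
      ((Complex.continuous_im.comp hf).mul (Complex.continuous_re.comp hg))
  have hgt : ∀ s : ℝ, Continuous (F.g s) := fun s => hgc.comp (continuous_const.prodMk continuous_id)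
  have hut : ∀ s : ℝ, Continuous (F.u s) := fun s => huc.comp (continuous_const.prodMk continuous_id)
  have h0T : (0 : ℝ) ∈ Icc (0 : ℝ) T := ⟨le_refl 0, hT⟩
  rw [← push hrad F ht (fun x => cross x (F.u t x)), ← push hrad F h0T (fun x => cross x (F.u 0 x))]
  have h5 : ∫ a in dom (fun _ => R), cross (F.g t a) (F.u t (F.g t a)) =
      ∫ a in dom (fun _ => R), (cross (F.g 0 a) (F.u 0 (F.g 0 a)) - ∫ s in (0 : ℝ)..t, τ s a) :=
    setIntegral_congr_fun hmeas hftc
  rw [h5]
  have hI1 : IntegrableOn (fun a => cross (F.g 0 a) (F.u 0 (F.g 0 a))) (dom (fun _ => R)) :=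
    integrableOn_dom hrad _ (hcr _ _ (hgt 0) ((hut 0).comp (hgt 0)))
  have hI2 : IntegrableOn (fun a => ∫ s in (0 : ℝ)..t, τ s a) (dom (fun _ => R)) := by
    apply integrableOn_dom hrad
    have h6 : Continuous (Function.uncurry (fun (a : ℂ) (s : ℝ) => τ s a)) :=
      hτc.comp (continuous_snd.prodMk continuous_fst)
    exact intervalIntegral.continuous_parametric_intervalIntegral_of_continuous' h6 0 t
  rw [integral_sub hI1 hI2, fubini_dom hrad τ hτc 0 t]
  have h7 : ∫ s in (0 : ℝ)..t, ∫ x in dom (fun _ => R), τ s x = 0 := by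
    have h8 : ∀ s ∈ uIcc (0 : ℝ) t, ∫ x in dom (fun _ => R), τ s x = 0 := by
      intro s hs
      rw [uIcc_of_le ht.1] at hs
      have hs' : s ∈ Icc (0 : ℝ) T := ⟨hs.1, le_trans hs.2 ht.2⟩
      rw [hτ]
      have h9 := push hrad F hs' (fun x => fderiv ℝ (F.p s) x (I * x))
      have h10 : ContDiff ℝ 1 (F.p s) := by
        have h11 : ContDiff ℝ 2 (fun x : ℂ => F.p s x) :=
          F.smooth_p.comp (contDiff_const.prodMk contDiff_id)
        exact h11.of_le (by norm_num)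
      rw [pressure_torque hR (F.p s) h10] at h9
      exact h9
    rw [intervalIntegral.integral_congr h8]
    simp
  rw [h7, sub_zero]

/-- integrals over the disc. -/
theorem integral_disc_sq {R : ℝ} (hR : 0 < R) :
    ∫ x in dom (fun _ => R), ‖x‖ ^ 2 = Real.pi * R ^ 4 / 2 := by
  have hrad := angular_isRadial hR
  rw [integral_dom hrad (fun x => ‖x‖ ^ 2) (continuous_norm.pow 2)]
  have h1 : ∀ θ : ℝ, ∫ s in (0 : ℝ)..1, s * R ^ 2 * ‖(s : ℂ) * bc (fun _ => R) θ‖ ^ 2 = R ^ 4 / 4 := by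
    intro θ
    have h2 : ∀ s : ℝ, s * R ^ 2 * ‖(s : ℂ) * bc (fun _ => R) θ‖ ^ 2 = R ^ 4 * s ^ 3 := by
      intro s
      rw [norm_mul, norm_bc hrad, Complex.norm_real, mul_pow, Real.norm_eq_abs, sq_abs]
      ring
    simp only [h2]
    rw [intervalIntegral.integral_const_mul, integral_pow]
    norm_num
    ring
  simp only [h1]
  rw [intervalIntegral.integral_const]
  simp
  ring

end Pool.Agent.Helper61.EF
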