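import Pool.Agent.Helper61.EF.BdA

/-!
PROJECT EF, module EF-14. The number of turns.

`θ ↦ turning F (bc ρ θ)` is continuous (`intervalIntegral.continuous_parametric_intervalIntegral_of_continuous` on `[0, T]`: the integrand is continuous in `(θ, t)` for `t ∈ [0, T]` because `g t (bc ρ θ) ≠ 0`; if the global continuity
is a problem, replace `‖g‖²` by `max ‖g‖² m²` with `m = min ρ`, which changes nothing for `t ∈ [0, T]`).
By `g_bc` and the hypothesis `bc ρ (θ + turning) = bc ρ (θ + β)`; two points of the curve are equal iff the angles differ by a multiple of `2π` (divide by the norm: `exp (θ₁ I) = exp (θ₂ I)`, `Complex.exp_eq_exp_iff_exists_int`).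
So `(turning - β) / (2π)` is an integer for every `θ`; a continuous function `ℝ → ℝ` with integer values is constant (intermediate value theorem, or `IsPreconnected.constant` for the discrete space `ℤ`).
-/

set_option autoImplicit false

namespace Pool.Agent.Helper61.EF

open Complex MeasureTheory Set

variable {ρ : ℝ → ℝ} {T : ℝ}

private lemma g_mem_bd (F : PerfectFlow ρ T) {t : ℝ} (ht : t ∈ Icc (0 : ℝ) T) (θ : ℝ) :
    ∃ φ : ℝ, F.g t (bc ρ θ) = bc ρ φ := by
  have h1 : F.g t (bc ρ θ) ∈ bd ρ := (F.g_bd t ht).mapsTo (Set.mem_range_self θ)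
  obtain ⟨φ, hφ⟩ := h1
  exact ⟨φ, hφ.symm⟩

private lemma nbc (h : IsRadial ρ) (θ : ℝ) : ‖bc ρ θ‖ = ρ θ := by
  unfold bc
  rw [norm_mul, Complex.norm_exp_ofReal_mul_I, mul_one, Complex.norm_real, Real.norm_eq_abs,
    abs_of_pos (h.2.2 θ)]

private lemma exists_min (h : IsRadial ρ) : ∃ m : ℝ, 0 < m ∧ ∀ θ, m ≤ ρ θ := by
  have hper : Function.Periodic ρ (2 * Real.pi) := h.2.1
  have hpi : (0 : ℝ) < 2 * Real.pi := by positivity
  obtain ⟨x0, hx0, hmin⟩ := (isCompact_Icc (a := (0 : ℝ)) (b := 2 * Real.pi)).exists_isMinOn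
    (Set.nonempty_Icc.mpr hpi.le) (h.1.continuous.continuousOn (s := Icc (0 : ℝ) (2 * Real.pi)))
  refine ⟨ρ x0, h.2.2 x0, fun θ => ?_⟩
  obtain ⟨y, hy, hyθ⟩ := hper.exists_mem_Ico₀ hpi θ
  rw [hyθ]
  exact hmin (Set.Ico_subset_Icc_self hy)

private lemma turning_continuous (h : IsRadial ρ) (hT : 0 ≤ T) (F : PerfectFlow ρ T) :
    Continuous (fun θ => turning F (bc ρ θ)) := by
  obtain ⟨m, hm, hmin⟩ := exists_min h
  have hbc : Continuous (bc ρ) := by
    unfold bc
    have := h.1.continuous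
    fun_prop
  have hg : Continuous (fun q : ℝ × ℝ => F.g q.2 (bc ρ q.1)) :=
    F.smooth_g.continuous.comp (continuous_snd.prodMk (hbc.comp continuous_fst))
  have hu : Continuous (fun q : ℝ × ℝ => F.u q.2 (F.g q.2 (bc ρ q.1))) :=
    F.smooth_u.continuous.comp (continuous_snd.prodMk hg)
  have hint : Continuous (fun q : ℝ × ℝ =>
      cross (F.g q.2 (bc ρ q.1)) (F.u q.2 (F.g q.2 (bc ρ q.1))) /
        max (‖F.g q.2 (bc ρ q.1)‖ ^ 2) (m ^ 2)) := by
    refine Continuous.div ?_ ?_ ?_
    · unfold cross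
      exact ((Complex.continuous_re.comp hg).mul (Complex.continuous_im.comp hu)).sub
        ((Complex.continuous_im.comp hg).mul (Complex.continuous_re.comp hu))
    · exact (hg.norm.pow 2).max continuous_const
    · intro q
      have : 0 < m ^ 2 := by positivity
      exact (lt_of_lt_of_le this (le_max_right _ _)).ne'
  have hcont := intervalIntegral.continuous_parametric_intervalIntegral_of_continuous'
    (μ := MeasureTheory.volume)
    (f := fun θ t => cross (F.g t (bc ρ θ)) (F.u t (F.g t (bc ρ θ))) /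
        max (‖F.g t (bc ρ θ)‖ ^ 2) (m ^ 2)) hint 0 T
  refine hcont.congr (fun θ => ?_)
  unfold turning
  refine intervalIntegral.integral_congr (fun t ht => ?_)
  rw [Set.uIcc_of_le hT] at ht
  obtain ⟨φ, hφ⟩ := g_mem_bd F ht θ
  have h1 : m ^ 2 ≤ ‖F.g t (bc ρ θ)‖ ^ 2 := by
    rw [hφ, nbc h]
    exact pow_le_pow_left₀ hm.le (hmin φ) 2
  rw [max_eq_left h1]

private lemma bc_inj (h : IsRadial ρ) {a b : ℝ} (hab : bc ρ a = bc ρ b) :
    ∃ n : ℤ, a = b + 2 * Real.pi * n := by
  have hn : ρ a = ρ b := by rw [← nbc h a, ← nbc h b, hab]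
  have hne : ((ρ b : ℝ) : ℂ) ≠ 0 := by
    exact_mod_cast (h.2.2 b).ne'
  have he : Complex.exp (a * I) = Complex.exp (b * I) := by
    unfold bc at hab
    rw [hn] at hab
    exact mul_left_cancel₀ hne hab
  obtain ⟨n, hn⟩ := Complex.exp_eq_exp_iff_exists_int.mp he
  refine ⟨n, ?_⟩
  have h2 := congrArg Complex.im hn
  simp at h2
  linarith

theorem turning_const (h : IsRadial ρ) (hT : 0 ≤ T) (F : PerfectFlow ρ T) (β : ℝ)
    (hβ : ∀ θ, F.g T (bc ρ θ) = bc ρ (θ + β)) :
    ∃ k : ℤ, ∀ θ, turning F (bc ρ θ) = β + 2 * Real.pi * k := by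
  have hcont := turning_continuous h hT F
  have hk : ∀ θ, ∃ n : ℤ, turning F (bc ρ θ) = β + 2 * Real.pi * n := by
    intro θ
    have h1 : bc ρ (θ + turning F (bc ρ θ)) = bc ρ (θ + β) := by
      rw [← g_bc h hT F θ, hβ θ]
    obtain ⟨n, hn⟩ := bc_inj h h1
    exact ⟨n, by linarith⟩
  choose k hk using hk
  have hpi : (2 * Real.pi) ≠ 0 := by positivity
  have hkc : Continuous (fun θ => (k θ : ℝ)) := by
    have : (fun θ => (k θ : ℝ)) = fun θ => (turning F (bc ρ θ) - β) / (2 * Real.pi) := by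
      funext θ
      rw [hk θ]
      field_simp
      ring
    rw [this]
    exact (hcont.sub continuous_const).div_const _
  have hkc' : Continuous k := by
    have hemb : Topology.IsClosedEmbedding ((↑) : ℤ → ℝ) := Int.isClosedEmbedding_coe_real
    exact hemb.isInducing.continuous_iff.mpr hkc
  refine ⟨k 0, fun θ => ?_⟩
  rw [hk θ]
  have : k θ = k 0 := isPreconnected_univ.constant hkc'.continuousOn (mem_univ θ) (mem_univ 0)
  rw [this]

end Pool.Agent.Helper61.EF
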