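import Pool.Agent.Helper61.EF.Ident
import Pool.Agent.Helper61.EF.Turn
import Pool.Agent.Helper61.EF.Angular

/-!
PROJECT EF, module EF-22. The bound for the disc.

`ρ = R`. The hypothesis on the circle is `g T (bc θ) = e^{iβ} bc θ = bc (θ + β)`; `turning_const`: turning `= β + 2πk =: τ`. `Af_bc`: `A(bc θ) = R² τ =: m`. `Ω = τ / T`. `E = ∫ ‖u 0‖²`, `L = ∫ cross x (u 0)`,
`G = ∫ curl (u 0)`, `J = ∫ ‖x‖² = π R⁴ / 2` (`integral_disc_sq`).
* boundary: for every `t ∈ [0, T]`: `0 ≤ ‖u t c - Ω I c‖² = ‖u‖² - 2 Ω dot u (I c) + Ω² R²` and `I c = c'` (`deriv_bc_const`), so multiplying by `R²` and integrating, `bE F t ≥ 2 Ω R² G - 2 π Ω² R⁴` (`circ_flux`, `circ_const`).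
* `virial`: `2 T E + (1/2) ∫ bE = ∫ dot Zc (u 0) + R² τ G`; hence (`T Ω = τ`) `2 T E - π T Ω² R⁴ ≤ ∫ dot Zc (u 0)`.
* `kinematic` with `angular`: `4 T L + ∫ cross Zc a = 2 π R⁴ τ`.
* `w = u 0 - Ω I x`: `∫ dot Zc (u 0) = ∫ dot Zc w + Ω ∫ dot Zc (I a)` and `dot Zc (I a) = cross a Zc = - cross Zc a`: so `∫ dot Zc (u 0) = ∫ dot Zc w + Ω (4 T L - 2 π R⁴ τ)`. Insert:
  `2 T E - 4 T Ω L + π T Ω² R⁴ ≤ ∫ dot Zc w` (use `Ω τ = T Ω²`), and the left side is `2 T ∫ ‖w‖²` (`‖u - Ω I x‖² = ‖u‖² - 2 Ω cross x u + Ω² ‖x‖²`).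
* Cauchy-Schwarz (`cauchy_dom`): `2 T ∫ ‖w‖² ≤ N √(∫ ‖w‖²)`, so `T √(∫ ‖w‖²) ≤ N / 2`. Finally `∫ ‖u t - Ω I x‖² = ∫ ‖w‖²` (`energy`, `angular`), `Zf = Zc` on `dom`.
-/

set_option autoImplicit false

namespace Pool.Agent.Helper61.EF

open Complex MeasureTheory Set

variable {T : ℝ}

private theorem isRadial_const {R : ℝ} (hR : 0 < R) : IsRadial (fun _ => R) :=
  ⟨contDiff_const, fun _ => rfl, fun _ => hR⟩

private theorem norm_sub_sq' (a x : ℂ) (Ω : ℝ) :
    ‖a - (Ω : ℂ) * (I * x)‖ ^ 2 = ‖a‖ ^ 2 - 2 * Ω * cross x a + Ω ^ 2 * ‖x‖ ^ 2 := by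
  rw [← dot_self, ← dot_self, ← dot_self]
  unfold dot cross
  simp
  ring

private theorem u_cont {ρ : ℝ → ℝ} (F : PerfectFlow ρ T) (t : ℝ) : Continuous (F.u t) :=
  F.smooth_u.continuous.comp (continuous_const.prodMk continuous_id)

private theorem cross_cont {a b : ℂ → ℂ} (ha : Continuous a) (hb : Continuous b) :
    Continuous (fun x => cross (a x) (b x)) := by
  unfold cross
  exact ((continuous_re.comp ha).mul (continuous_im.comp hb)).sub
    ((continuous_im.comp ha).mul (continuous_re.comp hb))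

private theorem dot_cont {a b : ℂ → ℂ} (ha : Continuous a) (hb : Continuous b) :
    Continuous (fun x => dot (a x) (b x)) := by
  unfold dot
  exact ((continuous_re.comp ha).mul (continuous_re.comp hb)).add
    ((continuous_im.comp ha).mul (continuous_im.comp hb))

/-- the integral of `‖u - Ω I x‖²` at time `t` -/
private theorem int_w {R : ℝ} (hR : 0 < R) (F : PerfectFlow (fun _ => R) T) (Ω t : ℝ)
    (ht : t ∈ Icc (0 : ℝ) T) :
    ∫ x in dom (fun _ => R), ‖F.u t x - (Ω : ℂ) * (I * x)‖ ^ 2 =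
      (∫ x in dom (fun _ => R), ‖F.u 0 x‖ ^ 2) -
        2 * Ω * (∫ x in dom (fun _ => R), cross x (F.u 0 x)) + Ω ^ 2 * (Real.pi * R ^ 4 / 2) := by
  have h := isRadial_const hR
  have hu := u_cont F t
  have i1 : IntegrableOn (fun x => ‖F.u t x‖ ^ 2) (dom (fun _ => R)) :=
    integrableOn_dom h _ (hu.norm.pow 2)
  have i2 : IntegrableOn (fun x => 2 * Ω * cross x (F.u t x)) (dom (fun _ => R)) :=
    integrableOn_dom h _ (continuous_const.mul (cross_cont continuous_id hu))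
  have i3 : IntegrableOn (fun x : ℂ => Ω ^ 2 * ‖x‖ ^ 2) (dom (fun _ => R)) :=
    integrableOn_dom h _ (continuous_const.mul (continuous_norm.pow 2))
  have i4 : IntegrableOn (fun x => ‖F.u t x‖ ^ 2 - 2 * Ω * cross x (F.u t x))
      (dom (fun _ => R)) := i1.sub i2
  have h1 : ∀ x, ‖F.u t x - (Ω : ℂ) * (I * x)‖ ^ 2 =
      ‖F.u t x‖ ^ 2 - 2 * Ω * cross x (F.u t x) + Ω ^ 2 * ‖x‖ ^ 2 := fun x => norm_sub_sq' _ _ _
  simp only [h1]
  rw [integral_add i4 i3, integral_sub i1 i2, integral_const_mul, integral_const_mul,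
    energy h F ht, angular hR F ht, integral_disc_sq hR]

/-- the lower bound for the boundary energy -/
private theorem bE_lower {R : ℝ} (hR : 0 < R) (F : PerfectFlow (fun _ => R) T) (Ω t : ℝ)
    (ht : t ∈ Icc (0 : ℝ) T) :
    2 * Ω * R ^ 2 * (∫ x in dom (fun _ => R), curl (F.u 0) x) - 2 * Real.pi * Ω ^ 2 * R ^ 4 ≤
      bE F t := by
  have h := isRadial_const hR
  have hu := u_cont F t
  have hb : Continuous (bc (fun _ => R)) := (bc_contDiff h).continuous
  have hpi : (0 : ℝ) ≤ 2 * Real.pi := by positivity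
  have hIb : Continuous (fun θ => I * bc (fun _ => R) θ) := continuous_const.mul hb
  have hd : Continuous (fun θ => dot (F.u t (bc (fun _ => R) θ)) (I * bc (fun _ => R) θ)) := by
    unfold dot
    exact ((continuous_re.comp (hu.comp hb)).mul (continuous_re.comp hIb)).add
      ((continuous_im.comp (hu.comp hb)).mul (continuous_im.comp hIb))
  have hG : ∫ x in dom (fun _ => R), curl (F.u 0) x =
      ∫ θ in (0 : ℝ)..(2 * Real.pi), dot (F.u t (bc (fun _ => R) θ)) (I * bc (fun _ => R) θ) := by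
    rw [← circ_const h F ht, circ_flux h F t]
    simp only [deriv_bc_const]
  have hpt : ∀ θ : ℝ, 2 * Ω * R ^ 2 * dot (F.u t (bc (fun _ => R) θ)) (I * bc (fun _ => R) θ) -
      Ω ^ 2 * R ^ 4 ≤ ‖F.u t (bc (fun _ => R) θ)‖ ^ 2 * R ^ 2 := by
    intro θ
    have h1 := norm_sub_sq' (F.u t (bc (fun _ => R) θ)) (bc (fun _ => R) θ) Ω
    have h2 : ‖bc (fun _ => R) θ‖ = R := norm_bc h θ
    rw [h2] at h1
    have h3 : cross (bc (fun _ => R) θ) (F.u t (bc (fun _ => R) θ)) =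
        dot (F.u t (bc (fun _ => R) θ)) (I * bc (fun _ => R) θ) := by
      rw [cross_eq_dot, dot_comm]
    rw [h3] at h1
    have h4 : 0 ≤ ‖F.u t (bc (fun _ => R) θ)‖ ^ 2 -
        2 * Ω * dot (F.u t (bc (fun _ => R) θ)) (I * bc (fun _ => R) θ) + Ω ^ 2 * R ^ 2 := by
      rw [← h1]; positivity
    nlinarith [mul_nonneg h4 (sq_nonneg R)]
  have c1 : Continuous (fun θ =>
      2 * Ω * R ^ 2 * dot (F.u t (bc (fun _ => R) θ)) (I * bc (fun _ => R) θ)) :=
    continuous_const.mul hd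
  have c2 : Continuous (fun _ : ℝ => Ω ^ 2 * R ^ 4) := continuous_const
  have hmono := intervalIntegral.integral_mono_on (μ := volume) hpi
    (f := fun θ => 2 * Ω * R ^ 2 * dot (F.u t (bc (fun _ => R) θ)) (I * bc (fun _ => R) θ) -
      Ω ^ 2 * R ^ 4)
    (g := fun θ => ‖F.u t (bc (fun _ => R) θ)‖ ^ 2 * R ^ 2)
    ((c1.sub c2).intervalIntegrable _ _)
    ((((hu.comp hb).norm.pow 2).mul continuous_const).intervalIntegrable _ _)
    (fun θ _ => hpt θ)
  rw [intervalIntegral.integral_sub (c1.intervalIntegrable _ _)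
    (c2.intervalIntegrable _ _), intervalIntegral.integral_const_mul,
    intervalIntegral.integral_const, smul_eq_mul] at hmono
  rw [hG]
  unfold bE
  linarith

theorem boundB {R : ℝ} (hR : 0 < R) (hT : 0 < T) (F : PerfectFlow (fun _ => R) T) (β : ℝ)
    (hg : ∀ x ∈ bd (fun _ => R), F.g T x = Complex.exp (β * I) * x) :
    ∃ k : ℤ, (∀ x ∈ bd (fun _ => R), turning F x = β + 2 * Real.pi * k) ∧
      ∀ t ∈ Icc (0 : ℝ) T,
        T * Real.sqrt (∫ x in dom (fun _ => R),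
          ‖F.u t x - (((β + 2 * Real.pi * k) / T : ℝ) : ℂ) * (I * x)‖ ^ 2) ≤
        (1 / 2) * Real.sqrt (∫ x in dom (fun _ => R), ‖Zf F x‖ ^ 2) := by
  have h := isRadial_const hR
  have hβ : ∀ θ, F.g T (bc (fun _ => R) θ) = bc (fun _ => R) (θ + β) := by
    intro θ
    rw [hg _ ⟨θ, rfl⟩]
    unfold bc
    have h1 : ((θ + β : ℝ) : ℂ) * I = (β : ℂ) * I + (θ : ℂ) * I := by push_cast; ring
    rw [h1, Complex.exp_add]
    ring
  obtain ⟨k, hk⟩ := turning_const h hT.le F β hβ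
  refine ⟨k, ?_, ?_⟩
  · rintro x ⟨θ, rfl⟩
    exact hk θ
  intro t ht
  set τ : ℝ := β + 2 * Real.pi * k with hτ
  set Ω : ℝ := τ / T with hΩ
  have hTΩ : T * Ω = τ := by rw [hΩ]; field_simp
  have h0 : (0 : ℝ) ∈ Icc (0 : ℝ) T := ⟨le_rfl, hT.le⟩
  have hm : ∀ θ, Af F (bc (fun _ => R) θ) = R ^ 2 * τ := by
    intro θ
    rw [Af_bc h hT.le F θ, intervalIntegral.integral_const, smul_eq_mul, hk θ]
    ring
  have hvir := virial h hT.le F (R ^ 2 * τ) hm
  have hkin := kinematic h hT.le F (R ^ 2 * τ) hm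
  -- the boundary energy
  have hbE : T * (2 * Ω * R ^ 2 * (∫ x in dom (fun _ => R), curl (F.u 0) x) -
      2 * Real.pi * Ω ^ 2 * R ^ 4) ≤ ∫ s in (0 : ℝ)..T, bE F s := by
    have h1 := intervalIntegral.integral_mono_on (μ := volume) hT.le
      (f := fun _ => 2 * Ω * R ^ 2 * (∫ x in dom (fun _ => R), curl (F.u 0) x) -
        2 * Real.pi * Ω ^ 2 * R ^ 4)
      (g := fun s => bE F s) (continuous_const.intervalIntegrable _ _)
      ((bE_continuous h F).intervalIntegrable _ _)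
      (fun s hs => bE_lower hR F Ω s hs)
    rw [intervalIntegral.integral_const, smul_eq_mul, sub_zero] at h1
    exact h1
  -- angular momentum
  have hang : ∫ s in (0 : ℝ)..T, ∫ x in dom (fun _ => R), cross x (F.u s x) =
      T * ∫ x in dom (fun _ => R), cross x (F.u 0 x) := by
    have h1 : ∫ s in (0 : ℝ)..T, ∫ x in dom (fun _ => R), cross x (F.u s x) =
        ∫ _s in (0 : ℝ)..T, ∫ x in dom (fun _ => R), cross x (F.u 0 x) := by
      apply intervalIntegral.integral_congr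
      intro s hs
      rw [uIcc_of_le hT.le] at hs
      exact angular hR F hs
    rw [h1, intervalIntegral.integral_const, smul_eq_mul, sub_zero]
  rw [hang, intervalIntegral.integral_const, smul_eq_mul, sub_zero] at hkin
  -- the field w
  have hZ := Zc_continuous F
  have hu := u_cont F 0
  have hIx : Continuous (fun x : ℂ => (Ω : ℂ) * (I * x)) := by fun_prop
  have hw : Continuous (fun x => F.u 0 x - (Ω : ℂ) * (I * x)) := hu.sub hIx
  have hWd : ∫ a in dom (fun _ => R), dot (Zc F a) (F.u 0 a - (Ω : ℂ) * (I * a)) =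
      (∫ a in dom (fun _ => R), dot (Zc F a) (F.u 0 a)) +
        Ω * ∫ a in dom (fun _ => R), cross (Zc F a) a := by
    have h1 : ∀ a, dot (Zc F a) (F.u 0 a - (Ω : ℂ) * (I * a)) =
        dot (Zc F a) (F.u 0 a) + Ω * cross (Zc F a) a := by
      intro a
      unfold dot cross
      simp
      ring
    simp only [h1]
    have j1 : IntegrableOn (fun a => dot (Zc F a) (F.u 0 a)) (dom (fun _ => R)) :=
      integrableOn_dom h _ (dot_cont hZ hu)
    have j2 : IntegrableOn (fun a => Ω * cross (Zc F a) a) (dom (fun _ => R)) :=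
      integrableOn_dom h _ (continuous_const.mul (cross_cont hZ continuous_id))
    rw [integral_add j1 j2, integral_const_mul]
  have hS := int_w hR F Ω 0 h0
  have hSt := int_w hR F Ω t ht
  have hCS := cauchy_dom h (Zc F) (fun x => F.u 0 x - (Ω : ℂ) * (I * x)) hZ hw
  have hZf : ∫ x in dom (fun _ => R), ‖Zf F x‖ ^ 2 = ∫ x in dom (fun _ => R), ‖Zc F x‖ ^ 2 := by
    apply setIntegral_congr_fun (measurableSet_dom h)
    intro x hx
    simp only
    rw [Zf_eq_Zc h hT.le F hx]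
  rw [hZf, hSt, ← hS]
  rw [hWd] at hCS
  generalize (∫ a in dom (fun _ => R), dot (Zc F a) (F.u 0 a)) = P at hCS hvir
  generalize (∫ a in dom (fun _ => R), cross (Zc F a) a) = X at hCS hkin
  generalize (∫ x in dom (fun _ => R), ‖Zc F x‖ ^ 2) = N2 at hCS ⊢
  generalize (∫ x in dom (fun _ => R), ‖F.u 0 x - (Ω : ℂ) * (I * x)‖ ^ 2) = S at hCS hS ⊢
  generalize (∫ x in dom (fun _ => R), ‖F.u 0 x‖ ^ 2) = E0 at hvir hS
  generalize (∫ x in dom (fun _ => R), cross x (F.u 0 x)) = L at hkin hS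
  generalize (∫ x in dom (fun _ => R), curl (F.u 0) x) = G at hvir hbE
  generalize (∫ s in (0 : ℝ)..T, bE F s) = B at hvir hbE
  have hΩτ : Ω * τ = T * Ω ^ 2 := by rw [← hTΩ]; ring
  have key : 2 * T * S ≤ P + Ω * X := by
    have e1 : T * (2 * Ω * R ^ 2 * G - 2 * Real.pi * Ω ^ 2 * R ^ 4) =
        2 * (R ^ 2 * τ * G) - 2 * Real.pi * T * Ω ^ 2 * R ^ 4 := by rw [← hTΩ]; ring
    rw [e1] at hbE
    have e2 : X = 2 * Real.pi * R ^ 4 * τ - 4 * (T * L) := by linarith
    have e3 : Ω * X = 2 * Real.pi * R ^ 4 * (T * Ω ^ 2) - 4 * T * Ω * L := by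
      rw [e2, ← hΩτ]; ring
    rw [e3, hS]
    nlinarith [hvir, hbE]
  have hle : 2 * T * S ≤ Real.sqrt N2 * Real.sqrt S := key.trans ((le_abs_self _).trans hCS)
  have hsq : Real.sqrt S * Real.sqrt S ≤ S ∨ S < 0 := by
    by_cases h1 : 0 ≤ S
    · exact Or.inl (Real.mul_self_sqrt h1).le
    · exact Or.inr (not_le.1 h1)
  rcases hsq with hsq | hneg
  · by_cases hz : Real.sqrt S = 0
    · rw [hz, mul_zero]
      positivity
    · have hpos : 0 < Real.sqrt S := lt_of_le_of_ne (Real.sqrt_nonneg S) (Ne.symm hz)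
      have h1 : 2 * T * Real.sqrt S * Real.sqrt S ≤ Real.sqrt N2 * Real.sqrt S := by
        calc 2 * T * Real.sqrt S * Real.sqrt S = 2 * T * (Real.sqrt S * Real.sqrt S) := by ring
          _ ≤ 2 * T * S := by
            apply mul_le_mul_of_nonneg_left hsq
            positivity
          _ ≤ _ := hle
      have h2 := le_of_mul_le_mul_right h1 hpos
      linarith
  · rw [Real.sqrt_eq_zero_of_nonpos hneg.le, mul_zero]
    positivity

end Pool.Agent.Helper61.EF
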