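import Pool.Agent.Helper61.EF.Flux
import Pool.Agent.Helper61.EF.Push
import Pool.Agent.Helper61.EF.Tools

/-!
PROJECT EF, module EF-16. Conservation of energy.

`pressure_work`: `div (p u) = fderiv p u + p div u = fderiv p u` on `dom ρ`, flux `p(c) cross (u c) c' = 0` (`tangent`): `∫_{dom} fderiv (p t) x (u t x) = 0` by `flux`.
`energy`: for `a ∈ dom ρ`, `s ∈ [0, T]`: `d/ds ‖u s (g s a)‖² = 2 dot (∂_s u + Du u) u = - 2 fderiv (p s) (g s a) (u s (g s a))` (chain rule, `g_ode`, `euler`). So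
`‖u t (g t a)‖² - ‖u 0 a‖² = - 2 ∫_0^t fderiv (p s) (g s a) (u s (g s a)) ds`. Integrate over `a ∈ dom ρ` (`fubini_dom`; the integrand is jointly continuous), use `push` for the inner integrals and `pressure_work`, and
`push` on the left.
-/

set_option autoImplicit false

namespace Pool.Agent.Helper61.EF

open Complex MeasureTheory Set

variable {ρ : ℝ → ℝ} {T : ℝ}

private theorem h86_int (h : IsRadial ρ) (f : ℂ → ℝ) (hf : Continuous f) : IntegrableOn f (dom ρ) :=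
  (hf.continuousOn.integrableOn_compact (isCompact_cdom h)).mono_set subset_union_left

private theorem h86_space {E : Type*} [NormedAddCommGroup E] [NormedSpace ℝ E] {f : ℝ → ℂ → E}
    (hf : ContDiff ℝ 2 (fun q : ℝ × ℂ => f q.1 q.2)) (s : ℝ) (x v : ℂ) :
    fderiv ℝ (f s) x v = fderiv ℝ (fun q : ℝ × ℂ => f q.1 q.2) (s, x) (0, v) := by
  have h1 : HasFDerivAt (fun q : ℝ × ℂ => f q.1 q.2) (fderiv ℝ (fun q : ℝ × ℂ => f q.1 q.2) (s, x)) (s, x) :=
    (hf.differentiable (by norm_num) (s, x)).hasFDerivAt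
  have h2 := h1.comp x (hasFDerivAt_prodMk_right (𝕜 := ℝ) s x)
  have h3 : HasFDerivAt (f s) ((fderiv ℝ (fun q : ℝ × ℂ => f q.1 q.2) (s, x)).comp
      (ContinuousLinearMap.inr ℝ ℝ ℂ)) x := h2
  rw [h3.fderiv]
  rfl

private theorem h86_time {E : Type*} [NormedAddCommGroup E] [NormedSpace ℝ E] {f : ℝ → ℂ → E}
    (hf : ContDiff ℝ 2 (fun q : ℝ × ℂ => f q.1 q.2)) (s : ℝ) (x : ℂ) :
    deriv (fun r => f r x) s = fderiv ℝ (fun q : ℝ × ℂ => f q.1 q.2) (s, x) (1, 0) := by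
  have h1 : HasFDerivAt (fun q : ℝ × ℂ => f q.1 q.2) (fderiv ℝ (fun q : ℝ × ℂ => f q.1 q.2) (s, x)) (s, x) :=
    (hf.differentiable (by norm_num) (s, x)).hasFDerivAt
  have h2 : HasDerivAt (fun r : ℝ => (r, x)) ((1 : ℝ), (0 : ℂ)) s :=
    (hasDerivAt_id s).prodMk (hasDerivAt_const s x)
  have h3 : HasDerivAt (fun r => f r x) (fderiv ℝ (fun q : ℝ × ℂ => f q.1 q.2) (s, x) (1, 0)) s :=
    HasFDerivAt.comp_hasDerivAt (f := fun r : ℝ => (r, x)) s h1 h2
  exact h3.deriv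

private theorem h86_cdiff_u (F : PerfectFlow ρ T) (t : ℝ) : ContDiff ℝ 2 (F.u t) := by
  have h := F.smooth_u.comp (contDiff_prodMk_right (𝕜 := ℝ) (n := 2) t)
  exact h

private theorem h86_cdiff_p (F : PerfectFlow ρ T) (t : ℝ) : ContDiff ℝ 2 (F.p t) := by
  have h := F.smooth_p.comp (contDiff_prodMk_right (𝕜 := ℝ) (n := 2) t)
  exact h

private theorem h86_div (F : PerfectFlow ρ T) (t : ℝ) (x : ℂ) :
    div (fun y => F.p t y • F.u t y) x = fderiv ℝ (F.p t) x (F.u t x) + F.p t x * div (F.u t) x := by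
  have h1 := (h86_cdiff_u F t).differentiable (by norm_num) x
  have h2 := (h86_cdiff_p F t).differentiable (by norm_num) x
  have h3 : fderiv ℝ (fun y => F.p t y • F.u t y) x =
      F.p t x • fderiv ℝ (F.u t) x + (fderiv ℝ (F.p t) x).smulRight (F.u t x) :=
    (h2.hasFDerivAt.smul h1.hasFDerivAt).fderiv
  have h4 : fderiv ℝ (F.p t) x (F.u t x) =
      (F.u t x).re * fderiv ℝ (F.p t) x 1 + (F.u t x).im * fderiv ℝ (F.p t) x I := by
    have h5 : F.u t x = (F.u t x).re • (1 : ℂ) + (F.u t x).im • I := by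
      apply Complex.ext <;> simp
    conv_lhs => rw [h5]
    rw [map_add, map_smul, map_smul, smul_eq_mul, smul_eq_mul]
  unfold div
  rw [h3, h4]
  simp only [add_apply, smul_apply,
    ContinuousLinearMap.smulRight_apply, Complex.add_re, Complex.add_im, Complex.smul_re, Complex.smul_im,
    smul_eq_mul]
  ring

private theorem h86_cross_smul (c : ℝ) (a b : ℂ) : cross (c • a) b = c * cross a b := by
  unfold cross
  simp only [Complex.smul_re, Complex.smul_im, smul_eq_mul]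
  ring

theorem pressure_work (h : IsRadial ρ) (F : PerfectFlow ρ T) {t : ℝ} (ht : t ∈ Icc (0 : ℝ) T) :
    ∫ x in dom ρ, fderiv ℝ (F.p t) x (F.u t x) = 0 := by
  have hW : ContDiff ℝ 1 (fun y => F.p t y • F.u t y) :=
    ((h86_cdiff_p F t).smul (h86_cdiff_u F t)).of_le (by norm_num)
  have h1 := flux h (fun y => F.p t y • F.u t y) hW
  have h2 : ∫ θ in (0 : ℝ)..(2 * Real.pi), cross (F.p t (bc ρ θ) • F.u t (bc ρ θ)) (deriv (bc ρ) θ) = 0 := by
    have h3 : (fun θ => cross (F.p t (bc ρ θ) • F.u t (bc ρ θ)) (deriv (bc ρ) θ)) = fun _ => (0 : ℝ) := by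
      funext θ
      rw [h86_cross_smul, F.tangent t ht θ, mul_zero]
    rw [h3]
    simp
  rw [h2] at h1
  rw [← h1]
  refine setIntegral_congr_fun (isOpen_dom h).measurableSet fun x hx => ?_
  have h4 := h86_div F t x
  rw [F.div_free t ht x (Or.inl hx), mul_zero, add_zero] at h4
  exact h4.symm

private theorem h86_path (F : PerfectFlow ρ T) {s : ℝ} (hs : s ∈ Icc (0 : ℝ) T) {a : ℂ} (ha : a ∈ dom ρ) :
    HasDerivAt (fun r => ‖F.u r (F.g r a)‖ ^ 2) (-2 * fderiv ℝ (F.p s) (F.g s a) (F.u s (F.g s a))) s := by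
  have hg : F.g s a ∈ dom ρ := (F.g_dom s hs).mapsTo ha
  have h1 : HasFDerivAt (fun q : ℝ × ℂ => F.u q.1 q.2) (fderiv ℝ (fun q : ℝ × ℂ => F.u q.1 q.2) (s, F.g s a))
      (s, F.g s a) := (F.smooth_u.differentiable (by norm_num) (s, F.g s a)).hasFDerivAt
  have h2 : HasDerivAt (fun r : ℝ => (r, F.g r a)) ((1 : ℝ), F.u s (F.g s a)) s :=
    (hasDerivAt_id s).prodMk (F.g_ode s hs a (Or.inl ha))
  have h3 : HasDerivAt (fun r => F.u r (F.g r a))
      (fderiv ℝ (fun q : ℝ × ℂ => F.u q.1 q.2) (s, F.g s a) (1, F.u s (F.g s a))) s :=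
    HasFDerivAt.comp_hasDerivAt (f := fun r : ℝ => (r, F.g r a)) s h1 h2
  have h4 : fderiv ℝ (fun q : ℝ × ℂ => F.u q.1 q.2) (s, F.g s a) (1, F.u s (F.g s a)) =
      deriv (fun r => F.u r (F.g s a)) s + fderiv ℝ (F.u s) (F.g s a) (F.u s (F.g s a)) := by
    rw [h86_time F.smooth_u, h86_space F.smooth_u, ← map_add]
    simp
  rw [h4] at h3
  have h5 := h3.norm_sq
  have h6 := F.euler s hs (F.g s a) (Or.inl hg) (F.u s (F.g s a))
  have h7 : ∀ z w : ℂ, inner ℝ z w = dot w z := by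
    intro z w
    rw [Complex.inner]
    unfold dot
    simp
    try ring
  rw [h7, h6] at h5
  convert h5 using 1
  ring

private theorem h86_cont (F : PerfectFlow ρ T) :
    Continuous (fun q : ℝ × ℂ => fderiv ℝ (F.p q.1) (F.g q.1 q.2) (F.u q.1 (F.g q.1 q.2))) := by
  have h1 : Continuous (fun q : ℝ × ℂ => (q.1, F.g q.1 q.2)) :=
    continuous_fst.prodMk F.smooth_g.continuous
  have h2 : Continuous (fun q : ℝ × ℂ => F.u q.1 (F.g q.1 q.2)) :=
    F.smooth_u.continuous.comp h1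
  have h3 : Continuous (fun q : ℝ × ℂ => fderiv ℝ (fun q : ℝ × ℂ => F.p q.1 q.2) (q.1, F.g q.1 q.2)) :=
    (F.smooth_p.continuous_fderiv (by norm_num)).comp h1
  have h4 : Continuous (fun q : ℝ × ℂ => fderiv ℝ (fun q : ℝ × ℂ => F.p q.1 q.2) (q.1, F.g q.1 q.2)
      ((0 : ℝ), F.u q.1 (F.g q.1 q.2))) :=
    h3.clm_apply (continuous_const.prodMk h2)
  refine h4.congr fun q => ?_
  rw [h86_space F.smooth_p]

theorem energy (h : IsRadial ρ) (F : PerfectFlow ρ T) {t : ℝ} (ht : t ∈ Icc (0 : ℝ) T) :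
    ∫ x in dom ρ, ‖F.u t x‖ ^ 2 = ∫ x in dom ρ, ‖F.u 0 x‖ ^ 2 := by
  have ht0 : (0 : ℝ) ≤ t := ht.1
  have hsub : ∀ s ∈ Icc (0 : ℝ) t, s ∈ Icc (0 : ℝ) T := fun s hs => ⟨hs.1, hs.2.trans ht.2⟩
  have h0T : (0 : ℝ) ∈ Icc (0 : ℝ) T := hsub 0 ⟨le_rfl, ht0⟩
  have hcont : Continuous (fun q : ℝ × ℂ => -2 * fderiv ℝ (F.p q.1) (F.g q.1 q.2) (F.u q.1 (F.g q.1 q.2))) :=
    continuous_const.mul (h86_cont F)
  have hpt : ∀ a ∈ dom ρ, ‖F.u t (F.g t a)‖ ^ 2 - ‖F.u 0 a‖ ^ 2 =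
      ∫ s in (0 : ℝ)..t, -2 * fderiv ℝ (F.p s) (F.g s a) (F.u s (F.g s a)) := by
    intro a ha
    have h1 := intervalIntegral.integral_eq_sub_of_hasDerivAt (a := 0) (b := t)
      (f := fun r => ‖F.u r (F.g r a)‖ ^ 2)
      (f' := fun s => -2 * fderiv ℝ (F.p s) (F.g s a) (F.u s (F.g s a)))
      (fun s hs => h86_path F (hsub s (by rwa [uIcc_of_le ht0] at hs)) ha)
      ((hcont.comp (continuous_id.prodMk continuous_const)).intervalIntegrable _ _)
    rw [h1, F.g_zero a (Or.inl ha)]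
  have hzero : ∫ a in dom ρ, (∫ s in (0 : ℝ)..t, -2 * fderiv ℝ (F.p s) (F.g s a) (F.u s (F.g s a))) = 0 := by
    rw [fubini_dom h (fun s a => -2 * fderiv ℝ (F.p s) (F.g s a) (F.u s (F.g s a))) hcont 0 t]
    rw [intervalIntegral.integral_congr (g := fun _ => (0 : ℝ))]
    · simp
    · intro s hs
      rw [uIcc_of_le ht0] at hs
      have hs' := hsub s hs
      have h1 : ∫ a in dom ρ, fderiv ℝ (F.p s) (F.g s a) (F.u s (F.g s a)) = 0 := by
        rw [push h F hs' (fun x => fderiv ℝ (F.p s) x (F.u s x))]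
        exact pressure_work h F hs'
      show ∫ a in dom ρ, -2 * fderiv ℝ (F.p s) (F.g s a) (F.u s (F.g s a)) = 0
      rw [integral_const_mul, h1, mul_zero]
  have hA : Continuous (fun a : ℂ => ‖F.u t (F.g t a)‖ ^ 2) := by
    have h1 : Continuous (fun a : ℂ => F.g t a) :=
      F.smooth_g.continuous.comp (continuous_const.prodMk continuous_id)
    have h2 : Continuous (fun a : ℂ => F.u t (F.g t a)) :=
      F.smooth_u.continuous.comp (continuous_const.prodMk h1)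
    exact h2.norm.pow 2
  have hB : Continuous (fun a : ℂ => ‖F.u 0 a‖ ^ 2) := by
    have h2 : Continuous (fun a : ℂ => F.u 0 a) :=
      F.smooth_u.continuous.comp (continuous_const.prodMk continuous_id)
    exact h2.norm.pow 2
  have h5 : ∫ a in dom ρ, (‖F.u t (F.g t a)‖ ^ 2 - ‖F.u 0 a‖ ^ 2) = 0 := by
    refine Eq.trans ?_ hzero
    exact setIntegral_congr_fun (isOpen_dom h).measurableSet fun a ha => hpt a ha
  rw [integral_sub (h86_int h _ hA) (h86_int h _ hB), push h F ht (fun x => ‖F.u t x‖ ^ 2)] at h5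
  linarith

end Pool.Agent.Helper61.EF
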