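import Mathlib

/-!
PROJECT EF, module EF-05. Integrals depending on a parameter: `C¹` version.

`f : E × ℝ → ℝ` is `C¹`, `E` finite dimensional. `F x = ∫_a^b f(x, s) ds`. Use `intervalIntegral.hasFDerivAt_integral_of_dominated_of_fderiv_le` near each `x₀`: on the compact set
`closedBall x₀ 1 × [[a, b]]` the continuous function `(x, s) ↦ fderiv (f (·, s)) x = (fderiv f (x, s)) ∘ inl` is bounded. So `F` has derivative `∫_a^b fderiv (fun y => f y s) x ds`; this is continuous
in `x` (`intervalIntegral.continuous_parametric_intervalIntegral_of_continuous'` or `continuous_parametric_intervalIntegral_of_continuous`), so `F` is `C¹` (`contDiff_one_iff_fderiv`).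
Evaluate at `v`: `ContinuousLinearMap.intervalIntegral_apply`.
-/

set_option autoImplicit false

namespace Pool.Agent.Helper61.EF

open MeasureTheory Set

variable {E : Type*} [NormedAddCommGroup E] [NormedSpace ℝ E] [FiniteDimensional ℝ E]

omit [FiniteDimensional ℝ E] in
private theorem param_slice (f : E → ℝ → ℝ) (hf : ContDiff ℝ 1 (fun q : E × ℝ => f q.1 q.2)) (x : E) (s : ℝ) :
    HasFDerivAt (fun y => f y s)
      ((fderiv ℝ (fun q : E × ℝ => f q.1 q.2) (x, s)).comp (ContinuousLinearMap.inl ℝ E ℝ)) x := by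
  have h1 : HasFDerivAt (fun q : E × ℝ => f q.1 q.2) (fderiv ℝ (fun q : E × ℝ => f q.1 q.2) (x, s)) (x, s) :=
    ((hf.differentiable (by norm_num)) (x, s)).hasFDerivAt
  have h2 : HasFDerivAt (fun y : E => (y, s)) (ContinuousLinearMap.inl ℝ E ℝ) x := hasFDerivAt_prodMk_left x s
  exact HasFDerivAt.comp x h1 h2

omit [FiniteDimensional ℝ E] in
private theorem param_slice_fderiv (f : E → ℝ → ℝ) (hf : ContDiff ℝ 1 (fun q : E × ℝ => f q.1 q.2)) (x : E) (s : ℝ) :
    fderiv ℝ (fun y => f y s) x =
      (fderiv ℝ (fun q : E × ℝ => f q.1 q.2) (x, s)).comp (ContinuousLinearMap.inl ℝ E ℝ) :=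
  (param_slice f hf x s).fderiv

omit [FiniteDimensional ℝ E] in
private theorem param_cont (f : E → ℝ → ℝ) (hf : ContDiff ℝ 1 (fun q : E × ℝ => f q.1 q.2)) :
    Continuous (fun q : E × ℝ => fderiv ℝ (fun y => f y q.2) q.1) := by
  have h : (fun q : E × ℝ => fderiv ℝ (fun y => f y q.2) q.1) =
      fun q : E × ℝ => (fderiv ℝ (fun q : E × ℝ => f q.1 q.2) q).comp (ContinuousLinearMap.inl ℝ E ℝ) := by
    funext q
    exact param_slice_fderiv f hf q.1 q.2
  rw [h]
  have h1 : Continuous (fderiv ℝ (fun q : E × ℝ => f q.1 q.2)) := hf.continuous_fderiv (by norm_num)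
  exact h1.clm_comp continuous_const

private theorem param_hasFDerivAt (f : E → ℝ → ℝ) (hf : ContDiff ℝ 1 (fun q : E × ℝ => f q.1 q.2)) (a b : ℝ) (x : E) :
    HasFDerivAt (fun x => ∫ s in a..b, f x s) (∫ s in a..b, fderiv ℝ (fun y => f y s) x) x := by
  have hc := param_cont f hf
  have hfc : Continuous (fun q : E × ℝ => f q.1 q.2) := hf.continuous
  have hK : IsCompact (Metric.closedBall x 1 ×ˢ uIcc a b) := (isCompact_closedBall x 1).prod isCompact_uIcc
  obtain ⟨C, hC⟩ := hK.exists_bound_of_continuousOn hc.continuousOn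
  refine intervalIntegral.hasFDerivAt_integral_of_dominated_of_fderiv_le (𝕜 := ℝ) (μ := volume)
    (F := f) (F' := fun x s => fderiv ℝ (fun y => f y s) x) (bound := fun _ => C)
    (Metric.closedBall_mem_nhds x one_pos) ?_ ?_ ?_ ?_ ?_ ?_
  · refine Filter.Eventually.of_forall fun y => ?_
    exact (hfc.comp (by fun_prop : Continuous fun s : ℝ => (y, s))).aestronglyMeasurable
  · exact (hfc.comp (by fun_prop : Continuous fun s : ℝ => (x, s))).intervalIntegrable a b
  · exact (hc.comp (by fun_prop : Continuous fun s : ℝ => (x, s))).aestronglyMeasurable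
  · refine Filter.Eventually.of_forall fun t ht y hy => ?_
    exact hC (y, t) ⟨hy, uIoc_subset_uIcc ht⟩
  · exact intervalIntegrable_const
  · refine Filter.Eventually.of_forall fun t _ y _ => ?_
    have h := param_slice f hf y t
    rw [← param_slice_fderiv f hf y t] at h
    exact h

theorem param_contDiff (f : E → ℝ → ℝ) (hf : ContDiff ℝ 1 (fun q : E × ℝ => f q.1 q.2)) (a b : ℝ) :
    ContDiff ℝ 1 (fun x => ∫ s in a..b, f x s) := by
  rw [contDiff_one_iff_fderiv]
  refine ⟨fun x => (param_hasFDerivAt f hf a b x).differentiableAt, ?_⟩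
  have h : fderiv ℝ (fun x => ∫ s in a..b, f x s) = fun x => ∫ s in a..b, fderiv ℝ (fun y => f y s) x := by
    funext x
    exact (param_hasFDerivAt f hf a b x).fderiv
  rw [h]
  exact intervalIntegral.continuous_parametric_intervalIntegral_of_continuous' (param_cont f hf) a b

theorem param_fderiv (f : E → ℝ → ℝ) (hf : ContDiff ℝ 1 (fun q : E × ℝ => f q.1 q.2)) (a b : ℝ)
    (x v : E) :
    fderiv ℝ (fun x => ∫ s in a..b, f x s) x v = ∫ s in a..b, fderiv ℝ (fun y => f y s) x v := by
  rw [(param_hasFDerivAt f hf a b x).fderiv]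
  exact ContinuousLinearMap.intervalIntegral_apply
    (((param_cont f hf).comp (by fun_prop : Continuous fun s : ℝ => (x, s))).intervalIntegrable a b) v

end Pool.Agent.Helper61.EF
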