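import Pool.Agent.Helper61.EF.Dom
import Pool.Agent.Helper61.EF.Param

/-!
PROJECT EF, module EF-07. The stream function.

`psi F t x = ∫_0^1 cross x (u t (s x)) ds - (the same at x = bc ρ 0)`.
* `psi_contDiff`: `param_contDiff` with `E = ℝ × ℂ` (the integrand is a `C²`, hence `C¹`, function of `((t, x), s)`), minus a `C¹` function of `t` (again `param_contDiff`).
* `psi_fderiv`: by `param_fderiv` (with `E = ℂ`, `t` fixed) the derivative at `x` in direction `v` is `∫_0^1 [cross v (u(s x)) + s cross x (L_s v)] ds`, `L_s = fderiv ℝ (u t) (s x)`.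
  As `s x ∈ dom ∪ bd` (`smul_mem_cdom`), `div (u t) (s x) = 0`, i.e. `tr L_s = 0`, and for a trace free real-linear map `cross x (L v) = - cross (L x) v = cross v (L x)`
  (`cross (L x) v + cross x (L v) = tr L * cross x v`, write `L a = a.re L 1 + a.im L I`). So the integrand is `cross v (u (s x)) + s cross v (L_s x) = d/ds [s cross v (u (s x))]`;
  the integral is `cross v (u x)` (`intervalIntegral.integral_eq_sub_of_hasDerivAt`).
* `psi_bd`: `θ ↦ psi F t (bc ρ θ)` has derivative `cross (bc') (u (bc)) = 0` (`tangent`, `cross_swap`), so it is constant, and it vanishes at `θ = 0` by definition.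
* `Bf_contDiff`: clear. 
-/

set_option autoImplicit false

namespace Pool.Agent.Helper61.EF

open Complex MeasureTheory Set

variable {ρ : ℝ → ℝ} {T : ℝ}

private lemma st_cross_contDiff {E : Type*} [NormedAddCommGroup E] [NormedSpace ℝ E]
    {n : WithTop ℕ∞} {a b : E → ℂ} (ha : ContDiff ℝ n a) (hb : ContDiff ℝ n b) :
    ContDiff ℝ n (fun x => cross (a x) (b x)) := by
  unfold cross
  have har : ContDiff ℝ n (fun x => (a x).re) := Complex.reCLM.contDiff.comp ha
  have hai : ContDiff ℝ n (fun x => (a x).im) := Complex.imCLM.contDiff.comp ha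
  have hbr : ContDiff ℝ n (fun x => (b x).re) := Complex.reCLM.contDiff.comp hb
  have hbi : ContDiff ℝ n (fun x => (b x).im) := Complex.imCLM.contDiff.comp hb
  exact (har.mul hbi).sub (hai.mul hbr)

private lemma st_cross_fderiv {E : Type*} [NormedAddCommGroup E] [NormedSpace ℝ E]
    {a b : E → ℂ} {a' b' : E →L[ℝ] ℂ} {x : E} (ha : HasFDerivAt a a' x)
    (hb : HasFDerivAt b b' x) (v : E) :
    fderiv ℝ (fun y => cross (a y) (b y)) x v = cross (a' v) (b x) + cross (a x) (b' v) := by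
  have har : HasFDerivAt (fun y => (a y).re) (Complex.reCLM.comp a') x :=
    Complex.reCLM.hasFDerivAt.comp x ha
  have hai : HasFDerivAt (fun y => (a y).im) (Complex.imCLM.comp a') x :=
    Complex.imCLM.hasFDerivAt.comp x ha
  have hbr : HasFDerivAt (fun y => (b y).re) (Complex.reCLM.comp b') x :=
    Complex.reCLM.hasFDerivAt.comp x hb
  have hbi : HasFDerivAt (fun y => (b y).im) (Complex.imCLM.comp b') x :=
    Complex.imCLM.hasFDerivAt.comp x hb
  have h := (har.mul hbi).sub (hai.mul hbr)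
  have h2 : fderiv ℝ (fun y => cross (a y) (b y)) x = _ := h.fderiv
  rw [h2]
  simp [cross]
  ring

private lemma st_cross_deriv {a b : ℝ → ℂ} {a' b' : ℂ} {s : ℝ} (ha : HasDerivAt a a' s)
    (hb : HasDerivAt b b' s) :
    HasDerivAt (fun y => cross (a y) (b y)) (cross a' (b s) + cross (a s) b') s := by
  have har : HasDerivAt (fun y => (a y).re) a'.re s :=
    (Complex.reCLM.hasFDerivAt (x := a s)).comp_hasDerivAt s ha
  have hai : HasDerivAt (fun y => (a y).im) a'.im s :=
    (Complex.imCLM.hasFDerivAt (x := a s)).comp_hasDerivAt s ha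
  have hbr : HasDerivAt (fun y => (b y).re) b'.re s :=
    (Complex.reCLM.hasFDerivAt (x := b s)).comp_hasDerivAt s hb
  have hbi : HasDerivAt (fun y => (b y).im) b'.im s :=
    (Complex.imCLM.hasFDerivAt (x := b s)).comp_hasDerivAt s hb
  have h := (har.mul hbi).sub (hai.mul hbr)
  have e : cross a' (b s) + cross (a s) b' =
      a'.re * (b s).im + (a s).re * b'.im - (a'.im * (b s).re + (a s).im * b'.re) := by
    unfold cross
    ring
  rw [e]
  exact h

private lemma st_trace (L : ℂ →L[ℝ] ℂ) (hL : (L 1).re + (L I).im = 0) (x v : ℂ) :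
    cross x (L v) = cross v (L x) := by
  have hd : ∀ a : ℂ, L a = a.re • L 1 + a.im • L I := by
    intro a
    have h1 : a = a.re • (1 : ℂ) + a.im • I := by
      apply Complex.ext <;> simp
    conv_lhs => rw [h1]
    rw [map_add, map_smul, map_smul]
  have h2 : (L I).im = -(L 1).re := by linarith
  rw [hd x, hd v]
  unfold cross
  simp [h2]
  ring

private lemma st_u (F : PerfectFlow ρ T) (t : ℝ) : ContDiff ℝ 2 (F.u t) :=
  F.smooth_u.comp (contDiff_const.prodMk contDiff_id)

private lemma st_int (F : PerfectFlow ρ T) (t : ℝ) :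
    ContDiff ℝ 1 (fun q : ℂ × ℝ => cross q.1 (F.u t ((q.2 : ℂ) * q.1))) := by
  refine st_cross_contDiff contDiff_fst ?_
  have h1 : ContDiff ℝ 1 (fun q : ℂ × ℝ => (q.2 : ℂ) * q.1) :=
    (Complex.ofRealCLM.contDiff.comp contDiff_snd).mul contDiff_fst
  exact ((st_u F t).of_le (by norm_num)).comp h1

theorem psi_contDiff (F : PerfectFlow ρ T) : ContDiff ℝ 1 (fun q : ℝ × ℂ => psi F q.1 q.2) := by
  have hu : ContDiff ℝ 1 (fun q : ℝ × ℂ => F.u q.1 q.2) := F.smooth_u.of_le (by norm_num)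
  unfold psi
  refine ContDiff.sub ?_ ?_
  · refine param_contDiff (E := ℝ × ℂ) (fun q s => cross q.2 (F.u q.1 ((s : ℂ) * q.2))) ?_ 0 1
    refine st_cross_contDiff (contDiff_snd.comp contDiff_fst) ?_
    have h1 : ContDiff ℝ 1 (fun q : (ℝ × ℂ) × ℝ => (q.2 : ℂ) * q.1.2) :=
      (Complex.ofRealCLM.contDiff.comp contDiff_snd).mul (contDiff_snd.comp contDiff_fst)
    have h2 : ContDiff ℝ 1 (fun q : (ℝ × ℂ) × ℝ => (q.1.1, (q.2 : ℂ) * q.1.2)) :=
      (contDiff_fst.comp contDiff_fst).prodMk h1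
    exact hu.comp h2
  · refine param_contDiff (E := ℝ × ℂ)
      (fun q s => cross (bc ρ 0) (F.u q.1 ((s : ℂ) * bc ρ 0))) ?_ 0 1
    refine st_cross_contDiff contDiff_const ?_
    have h1 : ContDiff ℝ 1 (fun q : (ℝ × ℂ) × ℝ => (q.2 : ℂ) * bc ρ 0) :=
      (Complex.ofRealCLM.contDiff.comp contDiff_snd).mul contDiff_const
    have h2 : ContDiff ℝ 1 (fun q : (ℝ × ℂ) × ℝ => (q.1.1, (q.2 : ℂ) * bc ρ 0)) :=
      (contDiff_fst.comp contDiff_fst).prodMk h1
    exact hu.comp h2

theorem psi_fderiv (F : PerfectFlow ρ T) {t : ℝ} (ht : t ∈ Icc (0 : ℝ) T) {x : ℂ}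
    (hx : x ∈ dom ρ ∪ bd ρ) (v : ℂ) : fderiv ℝ (psi F t) x v = cross v (F.u t x) := by
  have hd : ∀ y, HasFDerivAt (F.u t) (fderiv ℝ (F.u t) y) y := fun y =>
    ((st_u F t).differentiable (by norm_num) y).hasFDerivAt
  have e1 : fderiv ℝ (psi F t) x v =
      fderiv ℝ (fun y => ∫ s in (0 : ℝ)..1, cross y (F.u t ((s : ℂ) * y))) x v := by
    have h0 : psi F t = fun y => (∫ s in (0 : ℝ)..1, cross y (F.u t ((s : ℂ) * y))) -
        ∫ s in (0 : ℝ)..1, cross (bc ρ 0) (F.u t ((s : ℂ) * bc ρ 0)) := by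
      funext y
      rfl
    rw [h0, fderiv_sub_const]
  rw [e1, param_fderiv (E := ℂ) (fun y s => cross y (F.u t ((s : ℂ) * y))) (st_int F t) 0 1 x v]
  have e2 : ∀ s ∈ uIcc (0 : ℝ) 1, fderiv ℝ (fun y => cross y (F.u t ((s : ℂ) * y))) x v =
      cross v (F.u t ((s : ℂ) * x)) + cross ((s : ℂ) * v) (fderiv ℝ (F.u t) ((s : ℂ) * x) x) := by
    intro s hs
    rw [uIcc_of_le zero_le_one] at hs
    have hm : HasFDerivAt (fun y : ℂ => (s : ℂ) * y)
        (s • ContinuousLinearMap.id ℝ ℂ) x := by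
      have h1 : HasFDerivAt (fun y : ℂ => s • y) (s • ContinuousLinearMap.id ℝ ℂ) x :=
        (hasFDerivAt_id x).const_smul s
      simpa [Complex.real_smul] using h1
    have hb : HasFDerivAt (fun y : ℂ => F.u t ((s : ℂ) * y))
        ((fderiv ℝ (F.u t) ((s : ℂ) * x)).comp (s • ContinuousLinearMap.id ℝ ℂ)) x :=
      (hd ((s : ℂ) * x)).comp x hm
    have h5 : fderiv ℝ (fun y => cross y (F.u t ((s : ℂ) * y))) x v = _ :=
      st_cross_fderiv (hasFDerivAt_id x) hb v
    rw [h5]
    have htr : (fderiv ℝ (F.u t) ((s : ℂ) * x) 1).re +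
        (fderiv ℝ (F.u t) ((s : ℂ) * x) I).im = 0 :=
      F.div_free t ht _ (smul_mem_cdom hx hs.1 hs.2)
    have h3 : ((fderiv ℝ (F.u t) ((s : ℂ) * x)).comp (s • ContinuousLinearMap.id ℝ ℂ)) v =
        fderiv ℝ (F.u t) ((s : ℂ) * x) ((s : ℂ) * v) := by
      rw [← Complex.real_smul (x := s) (z := v)]
      rfl
    rw [h3]
    have h4 := st_trace _ htr x ((s : ℂ) * v)
    simp only [ContinuousLinearMap.coe_id', id_eq]
    rw [h4]
  rw [intervalIntegral.integral_congr e2]
  have e3 : ∀ s ∈ uIcc (0 : ℝ) 1, HasDerivAt (fun s : ℝ => cross ((s : ℂ) * v)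
      (F.u t ((s : ℂ) * x))) (cross v (F.u t ((s : ℂ) * x)) +
      cross ((s : ℂ) * v) (fderiv ℝ (F.u t) ((s : ℂ) * x) x)) s := by
    intro s _
    have hof : HasDerivAt (fun y : ℝ => (y : ℂ)) 1 s := (hasDerivAt_id s).ofReal_comp
    have ha : HasDerivAt (fun y : ℝ => (y : ℂ) * v) v s := by
      have := hof.mul_const v
      simpa using this
    have hc : HasDerivAt (fun y : ℝ => (y : ℂ) * x) x s := by
      have := hof.mul_const x
      simpa using this
    have hb : HasDerivAt (fun y : ℝ => F.u t ((y : ℂ) * x))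
        (fderiv ℝ (F.u t) ((s : ℂ) * x) x) s :=
      (hd ((s : ℂ) * x)).comp_hasDerivAt s hc
    exact st_cross_deriv ha hb
  have hcont : Continuous (fun s : ℝ => cross v (F.u t ((s : ℂ) * x)) +
      cross ((s : ℂ) * v) (fderiv ℝ (F.u t) ((s : ℂ) * x) x)) := by
    have c0 : Continuous (F.u t) := (st_u F t).continuous
    have c1 : Continuous (fderiv ℝ (F.u t)) := (st_u F t).continuous_fderiv (by norm_num)
    have c2 : Continuous (fun s : ℝ => (s : ℂ) * x) :=
      Complex.continuous_ofReal.mul continuous_const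
    have c3 : Continuous (fun s : ℝ => (s : ℂ) * v) :=
      Complex.continuous_ofReal.mul continuous_const
    have c4 : Continuous (fun s : ℝ => F.u t ((s : ℂ) * x)) := c0.comp c2
    have c5 : Continuous (fun s : ℝ => fderiv ℝ (F.u t) ((s : ℂ) * x) x) :=
      (c1.comp c2).clm_apply continuous_const
    unfold cross
    have hre : ∀ {f : ℝ → ℂ}, Continuous f → Continuous (fun s => (f s).re) :=
      fun hf => Complex.continuous_re.comp hf
    have him : ∀ {f : ℝ → ℂ}, Continuous f → Continuous (fun s => (f s).im) :=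
      fun hf => Complex.continuous_im.comp hf
    exact ((continuous_const.mul (him c4)).sub (continuous_const.mul (hre c4))).add
      (((hre c3).mul (him c5)).sub ((him c3).mul (hre c5)))
  rw [intervalIntegral.integral_eq_sub_of_hasDerivAt e3 (hcont.intervalIntegrable 0 1)]
  simp [cross]

private lemma st_psi_diff (F : PerfectFlow ρ T) (t : ℝ) : Differentiable ℝ (psi F t) := by
  have h1 : ContDiff ℝ 1 (fun x : ℂ => psi F t x) :=
    (psi_contDiff F).comp (contDiff_const.prodMk contDiff_id)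
  exact h1.differentiable (by norm_num)

theorem psi_bd (h : IsRadial ρ) (F : PerfectFlow ρ T) {t : ℝ} (ht : t ∈ Icc (0 : ℝ) T) (θ : ℝ) :
    psi F t (bc ρ θ) = 0 := by
  have hder : ∀ φ : ℝ, HasDerivAt (fun φ => psi F t (bc ρ φ)) 0 φ := by
    intro φ
    have h1 : HasFDerivAt (psi F t) (fderiv ℝ (psi F t) (bc ρ φ)) (bc ρ φ) :=
      (st_psi_diff F t _).hasFDerivAt
    have h2 : HasDerivAt (bc ρ) (deriv (bc ρ) φ) φ :=
      ((bc_contDiff h).differentiable (by norm_num) φ).hasDerivAt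
    have h3 := h1.comp_hasDerivAt φ h2
    rw [psi_fderiv F ht (Or.inr ⟨φ, rfl⟩), cross_swap, F.tangent t ht φ, neg_zero] at h3
    exact h3
  have h4 : psi F t (bc ρ θ) = psi F t (bc ρ 0) :=
    is_const_of_deriv_eq_zero (f := fun φ => psi F t (bc ρ φ))
      (fun φ => (hder φ).differentiableAt) (fun φ => (hder φ).deriv) θ 0
  rw [h4]
  unfold psi
  exact sub_self _

theorem Bf_contDiff (F : PerfectFlow ρ T) : ContDiff ℝ 1 (fun q : ℝ × ℂ => Bf F q.1 q.2) := by
  have hu : ContDiff ℝ 1 (fun q : ℝ × ℂ => F.u q.1 q.2) := F.smooth_u.of_le (by norm_num)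
  unfold Bf
  exact (st_cross_contDiff contDiff_snd hu).sub (contDiff_const.mul (psi_contDiff F))

end Pool.Agent.Helper61.EF
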