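import Pool.Agent.Helper61.EF.Flux
import Pool.Agent.Helper61.EF.Stream

/-!
PROJECT EF, module EF-15. The Rellich-Pohozaev identity.

Fix `t`, `u = F.u t`, `v = - I * u` (so `‖v‖ = ‖u‖`, `I * v = u`), `ψ = psi F t`. Let `W(x) = dot x v * v - (1/2) ‖v‖² x - 2 ψ v` (scalars times vectors), a `C¹` map `ℂ → ℂ`. On `dom ρ`: `div u = 0` means that
`L = fderiv ℝ v x` is symmetric (`(L 1).im = (L I).re`), `div v = curl u = ω`, `fderiv ψ x w = cross w u`, in particular `fderiv ψ x v = cross v u = ‖u‖²`. Product rule: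
`div W = [dot v v + dot x (L v)] + dot x v * ω - dot v (L x) - ‖v‖² - 2 ‖u‖² - 2 ψ ω = ω (dot x v - 2 ψ) - 2 ‖u‖²`
(`div (f w) = fderiv f w + f div w`, `div x = 2`; `dot x (L v) = dot (L x) v` by symmetry), and `dot x v = cross x u`, so `div W = curl u * Bf - 2 ‖u‖²`.
Flux on the boundary (`psi_bd`: `ψ = 0`): with `c = bc ρ θ`, `c'`, `u(c) = l c'` (`tangent`, `eq_smul_of_cross`; `c' ≠ 0` by `norm_deriv_bc_sq`), `v(c) = - l I c'`:
`cross (W c) c' = dot c v * cross v c' - (1/2) ‖v‖² cross c c'`, `dot c v = l cross c c' = l ρ²`, `cross v c' = dot u c' = l ‖c'‖²`, `‖v‖² = l² ‖c'‖²`, so it equals `(1/2) l² ‖c'‖² ρ² = (1/2) ‖u c‖² ρ²`.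
Conclude by `flux`.
-/

set_option autoImplicit false

namespace Pool.Agent.Helper61.EF

open Complex MeasureTheory Set

variable {ρ : ℝ → ℝ} {T : ℝ}

/-- The plane field with components `f`, `g`. -/
private noncomputable def mkW (f g : ℂ → ℝ) (x : ℂ) : ℂ := Complex.equivRealProdCLM.symm (f x, g x)

private lemma mkW_re (f g : ℂ → ℝ) (x : ℂ) : (mkW f g x).re = f x := by
  simp [mkW]

private lemma mkW_im (f g : ℂ → ℝ) (x : ℂ) : (mkW f g x).im = g x := by
  simp [mkW]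

private lemma mkW_contDiff {f g : ℂ → ℝ} (hf : ContDiff ℝ 1 f) (hg : ContDiff ℝ 1 g) :
    ContDiff ℝ 1 (mkW f g) :=
  (Complex.equivRealProdCLM.symm : (ℝ × ℝ) ≃L[ℝ] ℂ).contDiff.comp (hf.prodMk hg)

private lemma div_mkW {f g : ℂ → ℝ} {f' g' : ℂ →L[ℝ] ℝ} {x : ℂ} (hf : HasFDerivAt f f' x)
    (hg : HasFDerivAt g g' x) : div (mkW f g) x = f' 1 + g' I := by
  have h : HasFDerivAt (mkW f g)
      (((Complex.equivRealProdCLM.symm : (ℝ × ℝ) ≃L[ℝ] ℂ) : (ℝ × ℝ) →L[ℝ] ℂ).comp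
        (f'.prod g')) x :=
    ((Complex.equivRealProdCLM.symm : (ℝ × ℝ) ≃L[ℝ] ℂ).hasFDerivAt).comp x (hf.prodMk hg)
  unfold div
  rw [h.fderiv]
  simp

private lemma u_contDiff (F : PerfectFlow ρ T) (t : ℝ) : ContDiff ℝ 2 (F.u t) :=
  F.smooth_u.comp (contDiff_const.prodMk contDiff_id)

private lemma psi_contDiff' (F : PerfectFlow ρ T) (t : ℝ) : ContDiff ℝ 1 (psi F t) :=
  (psi_contDiff F).comp (contDiff_const.prodMk contDiff_id)

private lemma Bf_contDiff' (F : PerfectFlow ρ T) (t : ℝ) : ContDiff ℝ 1 (Bf F t) :=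
  (Bf_contDiff F).comp (contDiff_const.prodMk contDiff_id)

private noncomputable def W1 (F : PerfectFlow ρ T) (t : ℝ) (x : ℂ) : ℝ :=
  (x.re * (F.u t x).im - x.im * (F.u t x).re) * (F.u t x).im -
    (1 / 2) * ((F.u t x).re * (F.u t x).re + (F.u t x).im * (F.u t x).im) * x.re -
    2 * psi F t x * (F.u t x).im

private noncomputable def W2 (F : PerfectFlow ρ T) (t : ℝ) (x : ℂ) : ℝ :=
  -((x.re * (F.u t x).im - x.im * (F.u t x).re) * (F.u t x).re) -
    (1 / 2) * ((F.u t x).re * (F.u t x).re + (F.u t x).im * (F.u t x).im) * x.im +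
    2 * psi F t x * (F.u t x).re

private lemma re_contDiff (F : PerfectFlow ρ T) (t : ℝ) :
    ContDiff ℝ 1 (fun x => (F.u t x).re) :=
  (Complex.reCLM.contDiff.comp (u_contDiff F t)).of_le (by norm_num)

private lemma im_contDiff (F : PerfectFlow ρ T) (t : ℝ) :
    ContDiff ℝ 1 (fun x => (F.u t x).im) :=
  (Complex.imCLM.contDiff.comp (u_contDiff F t)).of_le (by norm_num)

private lemma W1_contDiff (F : PerfectFlow ρ T) (t : ℝ) : ContDiff ℝ 1 (W1 F t) := by
  have ha := re_contDiff F t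
  have hb := im_contDiff F t
  have hp := psi_contDiff' F t
  have hx : ContDiff ℝ 1 (fun x : ℂ => x.re) := Complex.reCLM.contDiff
  have hy : ContDiff ℝ 1 (fun x : ℂ => x.im) := Complex.imCLM.contDiff
  exact ((((hx.mul hb).sub (hy.mul ha)).mul hb).sub
    ((contDiff_const.mul ((ha.mul ha).add (hb.mul hb))).mul hx)).sub
    ((contDiff_const.mul hp).mul hb)

private lemma W2_contDiff (F : PerfectFlow ρ T) (t : ℝ) : ContDiff ℝ 1 (W2 F t) := by
  have ha := re_contDiff F t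
  have hb := im_contDiff F t
  have hp := psi_contDiff' F t
  have hx : ContDiff ℝ 1 (fun x : ℂ => x.re) := Complex.reCLM.contDiff
  have hy : ContDiff ℝ 1 (fun x : ℂ => x.im) := Complex.imCLM.contDiff
  exact ((((hx.mul hb).sub (hy.mul ha)).mul ha).neg.sub
    ((contDiff_const.mul ((ha.mul ha).add (hb.mul hb))).mul hy)).add
    ((contDiff_const.mul hp).mul ha)

private lemma div_W (F : PerfectFlow ρ T) {t : ℝ} (ht : t ∈ Icc (0 : ℝ) T) {x : ℂ}
    (hx : x ∈ dom ρ) :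
    div (mkW (W1 F t) (W2 F t)) x = curl (F.u t) x * Bf F t x - 2 * ‖F.u t x‖ ^ 2 := by
  have hu : HasFDerivAt (F.u t) (fderiv ℝ (F.u t) x) x :=
    ((u_contDiff F t).differentiable (by norm_num) x).hasFDerivAt
  have ha : HasFDerivAt (fun y => (F.u t y).re) (Complex.reCLM.comp (fderiv ℝ (F.u t) x)) x :=
    Complex.reCLM.hasFDerivAt.comp x hu
  have hb : HasFDerivAt (fun y => (F.u t y).im) (Complex.imCLM.comp (fderiv ℝ (F.u t) x)) x :=
    Complex.imCLM.hasFDerivAt.comp x hu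
  have hp : HasFDerivAt (psi F t) (fderiv ℝ (psi F t) x) x :=
    ((psi_contDiff' F t).differentiable (by norm_num) x).hasFDerivAt
  have hre : HasFDerivAt (fun y : ℂ => y.re) Complex.reCLM x := Complex.reCLM.hasFDerivAt
  have him : HasFDerivAt (fun y : ℂ => y.im) Complex.imCLM x := Complex.imCLM.hasFDerivAt
  have h1 := ((((hre.mul hb).sub (him.mul ha)).mul hb).sub
    ((((hasFDerivAt_const (1 / 2 : ℝ) x).mul ((ha.mul ha).add (hb.mul hb))).mul hre))).sub
    (((hasFDerivAt_const (2 : ℝ) x).mul hp).mul hb)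
  have h2 := ((((hre.mul hb).sub (him.mul ha)).mul ha).neg.sub
    ((((hasFDerivAt_const (1 / 2 : ℝ) x).mul ((ha.mul ha).add (hb.mul hb))).mul him))).add
    (((hasFDerivAt_const (2 : ℝ) x).mul hp).mul ha)
  have hd := div_mkW (f := W1 F t) (g := W2 F t) h1 h2
  have hdiv := F.div_free t ht x (Or.inl hx)
  have hp1 := psi_fderiv F ht (Or.inl hx) (1 : ℂ)
  have hp2 := psi_fderiv F ht (Or.inl hx) I
  have hn : ‖F.u t x‖ ^ 2 = (F.u t x).re * (F.u t x).re + (F.u t x).im * (F.u t x).im := by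
    rw [← Complex.normSq_eq_norm_sq, Complex.normSq_apply]
  rw [hd, hn]
  unfold Bf
  unfold div at hdiv
  unfold curl
  simp only [cross, Complex.one_re, Complex.one_im, Complex.I_re, Complex.I_im] at hp1 hp2 ⊢
  simp only [ContinuousLinearMap.add_apply, ContinuousLinearMap.sub_apply,
    ContinuousLinearMap.neg_apply, ContinuousLinearMap.smul_apply, ContinuousLinearMap.comp_apply,
    Complex.reCLM_apply, Complex.imCLM_apply, smul_eq_mul, hp1, hp2, ContinuousLinearMap.zero_apply,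
    Pi.mul_apply, Pi.sub_apply, Pi.add_apply,
    Complex.one_re, Complex.one_im, Complex.I_re, Complex.I_im]
  linear_combination (-(x.im * (F.u t x).im) - x.re * (F.u t x).re) * hdiv

private lemma flux_W (h : IsRadial ρ) (F : PerfectFlow ρ T) {t : ℝ} (ht : t ∈ Icc (0 : ℝ) T)
    (θ : ℝ) :
    cross (mkW (W1 F t) (W2 F t) (bc ρ θ)) (deriv (bc ρ) θ) =
      (1 / 2) * (‖F.u t (bc ρ θ)‖ ^ 2 * ρ θ ^ 2) := by
  have hne : deriv (bc ρ) θ ≠ 0 := by
    intro h0
    have h1 := norm_deriv_bc_sq h θ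
    rw [h0, norm_zero] at h1
    have h2 : 0 < ρ θ := h.2.2 θ
    nlinarith [sq_nonneg (deriv ρ θ), pow_pos h2 2]
  obtain ⟨l, hl⟩ := eq_smul_of_cross _ _ hne (F.tangent t ht θ)
  have hre : (F.u t (bc ρ θ)).re = l * (deriv (bc ρ) θ).re := by rw [hl]; simp
  have him : (F.u t (bc ρ θ)).im = l * (deriv (bc ρ) θ).im := by rw [hl]; simp
  have hc := cross_bc h θ
  have hn : ‖F.u t (bc ρ θ)‖ ^ 2 = (F.u t (bc ρ θ)).re * (F.u t (bc ρ θ)).re +
      (F.u t (bc ρ θ)).im * (F.u t (bc ρ θ)).im := by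
    rw [← Complex.normSq_eq_norm_sq, Complex.normSq_apply]
  rw [hn, ← hc]
  unfold cross
  rw [mkW_re, mkW_im]
  unfold W1 W2
  rw [psi_bd h F ht θ, hre, him]
  ring

theorem rellich (h : IsRadial ρ) (F : PerfectFlow ρ T) {t : ℝ} (ht : t ∈ Icc (0 : ℝ) T) :
    ∫ x in dom ρ, curl (F.u t) x * Bf F t x =
      2 * (∫ x in dom ρ, ‖F.u t x‖ ^ 2) +
        (1 / 2) * ∫ θ in (0 : ℝ)..(2 * Real.pi), ‖F.u t (bc ρ θ)‖ ^ 2 * ρ θ ^ 2 := by
  have hfl := flux h (mkW (W1 F t) (W2 F t)) (mkW_contDiff (W1_contDiff F t) (W2_contDiff F t))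
  have hR : (∫ θ in (0 : ℝ)..(2 * Real.pi),
      cross (mkW (W1 F t) (W2 F t) (bc ρ θ)) (deriv (bc ρ) θ)) =
      (1 / 2) * ∫ θ in (0 : ℝ)..(2 * Real.pi), ‖F.u t (bc ρ θ)‖ ^ 2 * ρ θ ^ 2 := by
    rw [← intervalIntegral.integral_const_mul]
    exact intervalIntegral.integral_congr (fun θ _ => flux_W h F ht θ)
  have hms : MeasurableSet (dom ρ) := (isOpen_dom h).measurableSet
  have hL : (∫ x in dom ρ, div (mkW (W1 F t) (W2 F t)) x) =
      ∫ x in dom ρ, (curl (F.u t) x * Bf F t x - 2 * ‖F.u t x‖ ^ 2) :=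
    setIntegral_congr_fun hms (fun x hx => div_W F ht hx)
  have hfd : Continuous (fderiv ℝ (F.u t)) := (u_contDiff F t).continuous_fderiv (by norm_num)
  have hcurl : Continuous (curl (F.u t)) := by
    unfold curl
    exact ((Complex.continuous_im.comp (hfd.clm_apply continuous_const)).sub
      (Complex.continuous_re.comp (hfd.clm_apply continuous_const)))
  have hint : ∀ f : ℂ → ℝ, Continuous f → IntegrableOn f (dom ρ) := fun f hf =>
    (hf.continuousOn.integrableOn_compact (isCompact_cdom h)).mono_set subset_union_left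
  have hi1 : IntegrableOn (fun x => curl (F.u t) x * Bf F t x) (dom ρ) :=
    hint _ (hcurl.mul (Bf_contDiff' F t).continuous)
  have hi2 : IntegrableOn (fun x => 2 * ‖F.u t x‖ ^ 2) (dom ρ) :=
    hint _ (continuous_const.mul ((u_contDiff F t).continuous.norm.pow 2))
  rw [hR, hL, integral_sub hi1 hi2, integral_const_mul] at hfl
  linarith

end Pool.Agent.Helper61.EF
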