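import Pool.Agent.Helper61.EF.Parts
import Pool.Agent.Helper61.EF.Rellich
import Pool.Agent.Helper61.EF.Energy

/-!
PROJECT EF, module EF-20. The two identities.

* `fub_A`: for jointly continuous `f`, `∫_{dom} ∫_0^T f t (g t a) dt da = ∫_0^T ∫_{dom} f t x dx dt` (`fubini_dom` for `(t, a) ↦ f t (g t a)`, then `push` for each `t ∈ [0, T]`).
* `virial`: `∫ A(a) curl (u 0) a da = ∫_{dom} ∫_0^T curl (u t) (g t a) * Bf F t (g t a) dt da` (`curl_transport`), `= ∫_0^T ∫_{dom} curl (u t) x * Bf F t x` (`fub_A`, the function `(t, x) ↦ curl (u t) x * Bf F t x` is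
  continuous), `= ∫_0^T (2 E + (1/2) b_t) dt` (`rellich`, `energy`), and the left side is `parts`. (`∫_0^T (2 E + (1/2) b_t) = 2 T E + (1/2) ∫_0^T b_t`; `b_t` is continuous in `t`.)
* `kinematic`: `2 ∫ A = 2 ∫_0^T ∫ Bf = 4 ∫_0^T ∫ cross x u` (`fub_A`, `int_B`), insert in `kin_div`.
-/

set_option autoImplicit false

namespace Pool.Agent.Helper61.EF

open Complex MeasureTheory Set

variable {ρ : ℝ → ℝ} {T : ℝ}

theorem fub_A (h : IsRadial ρ) (hT : 0 ≤ T) (F : PerfectFlow ρ T) (f : ℝ → ℂ → ℝ)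
    (hf : Continuous (fun q : ℝ × ℂ => f q.1 q.2)) :
    ∫ a in dom ρ, (∫ t in (0 : ℝ)..T, f t (F.g t a)) = ∫ t in (0 : ℝ)..T, ∫ x in dom ρ, f t x := by
  have hc : Continuous (fun q : ℝ × ℂ => f q.1 (F.g q.1 q.2)) :=
    hf.comp (continuous_fst.prodMk F.smooth_g.continuous)
  rw [fubini_dom h (fun t a => f t (F.g t a)) hc]
  apply intervalIntegral.integral_congr
  intro t ht
  rw [uIcc_of_le hT] at ht
  exact push h F ht (f t)

/-- boundary energy at time `t`. -/
noncomputable def bE (F : PerfectFlow ρ T) (t : ℝ) : ℝ :=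
  ∫ θ in (0 : ℝ)..(2 * Real.pi), ‖F.u t (bc ρ θ)‖ ^ 2 * ρ θ ^ 2

theorem bE_continuous (h : IsRadial ρ) (F : PerfectFlow ρ T) : Continuous (bE F) := by
  unfold bE
  apply intervalIntegral.continuous_parametric_intervalIntegral_of_continuous'
  have hb : Continuous (bc ρ) := (bc_contDiff h).continuous
  have h1 : Continuous (fun q : ℝ × ℝ => F.u q.1 (bc ρ q.2)) :=
    F.smooth_u.continuous.comp (continuous_fst.prodMk (hb.comp continuous_snd))
  have h2 : Continuous (fun q : ℝ × ℝ => ρ q.2) := h.1.continuous.comp continuous_snd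
  exact (h1.norm.pow 2).mul (h2.pow 2)

private lemma curl_continuous (F : PerfectFlow ρ T) :
    Continuous (fun q : ℝ × ℂ => curl (F.u q.1) q.2) := by
  have hf : ContDiff ℝ 2 (Function.uncurry (fun (q : ℝ × ℂ) (x : ℂ) => F.u q.1 x)) :=
    F.smooth_u.comp ((contDiff_fst.fst).prodMk contDiff_snd)
  have hd : ContDiff ℝ 0 (fun q : ℝ × ℂ => fderiv ℝ (F.u q.1) q.2) :=
    ContDiff.fderiv (f := fun (q : ℝ × ℂ) (x : ℂ) => F.u q.1 x) hf contDiff_snd (by norm_num)
  have hc := hd.continuous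
  have e1 : Continuous (fun q : ℝ × ℂ => fderiv ℝ (F.u q.1) q.2 1) := hc.clm_apply continuous_const
  have e2 : Continuous (fun q : ℝ × ℂ => fderiv ℝ (F.u q.1) q.2 I) := hc.clm_apply continuous_const
  exact (Complex.continuous_im.comp e1).sub (Complex.continuous_re.comp e2)

theorem virial (h : IsRadial ρ) (hT : 0 ≤ T) (F : PerfectFlow ρ T) (m : ℝ)
    (hm : ∀ θ, Af F (bc ρ θ) = m) :
    2 * T * (∫ x in dom ρ, ‖F.u 0 x‖ ^ 2) + (1 / 2) * ∫ t in (0 : ℝ)..T, bE F t =
      (∫ a in dom ρ, dot (Zc F a) (F.u 0 a)) + m * ∫ a in dom ρ, curl (F.u 0) a := by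
  rw [← parts h F m hm]
  have h1 : ∫ a in dom ρ, Af F a * curl (F.u 0) a =
      ∫ a in dom ρ, (∫ t in (0 : ℝ)..T, curl (F.u t) (F.g t a) * Bf F t (F.g t a)) := by
    apply setIntegral_congr_fun (isOpen_dom h).measurableSet
    intro a ha
    change Af F a * curl (F.u 0) a =
      ∫ t in (0 : ℝ)..T, curl (F.u t) (F.g t a) * Bf F t (F.g t a)
    rw [Af, mul_comm, ← intervalIntegral.integral_const_mul]
    apply intervalIntegral.integral_congr
    intro t ht
    rw [uIcc_of_le hT] at ht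
    change curl (F.u 0) a * Bf F t (F.g t a) = curl (F.u t) (F.g t a) * Bf F t (F.g t a)
    rw [curl_transport h F ht ha]
  rw [h1, fub_A h hT F (fun t x => curl (F.u t) x * Bf F t x)
    ((curl_continuous F).mul (Bf_contDiff F).continuous)]
  have h2 : ∫ t in (0 : ℝ)..T, ∫ x in dom ρ, curl (F.u t) x * Bf F t x =
      ∫ t in (0 : ℝ)..T, (2 * (∫ x in dom ρ, ‖F.u 0 x‖ ^ 2) + (1 / 2) * bE F t) := by
    apply intervalIntegral.integral_congr
    intro t ht
    rw [uIcc_of_le hT] at ht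
    change ∫ x in dom ρ, curl (F.u t) x * Bf F t x =
      2 * (∫ x in dom ρ, ‖F.u 0 x‖ ^ 2) + (1 / 2) * bE F t
    rw [rellich h F ht, energy h F ht]
    rfl
  rw [h2, intervalIntegral.integral_add (intervalIntegrable_const)
    (((bE_continuous h F).const_mul _).intervalIntegrable _ _),
    intervalIntegral.integral_const, intervalIntegral.integral_const_mul]
  simp only [sub_zero, smul_eq_mul]
  ring

theorem kinematic (h : IsRadial ρ) (hT : 0 ≤ T) (F : PerfectFlow ρ T) (m : ℝ)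
    (hm : ∀ θ, Af F (bc ρ θ) = m) :
    4 * (∫ t in (0 : ℝ)..T, ∫ x in dom ρ, cross x (F.u t x)) + ∫ a in dom ρ, cross (Zc F a) a =
      m * ∫ θ in (0 : ℝ)..(2 * Real.pi), ρ θ ^ 2 := by
  rw [← kin_div h F m hm]
  have h1 : ∫ a in dom ρ, Af F a =
      2 * ∫ t in (0 : ℝ)..T, ∫ x in dom ρ, cross x (F.u t x) := by
    have e : ∫ a in dom ρ, Af F a = ∫ a in dom ρ, (∫ t in (0 : ℝ)..T, Bf F t (F.g t a)) := rfl
    rw [e, fub_A h hT F (fun t x => Bf F t x) (Bf_contDiff F).continuous,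
      ← intervalIntegral.integral_const_mul]
    apply intervalIntegral.integral_congr
    intro t ht
    rw [uIcc_of_le hT] at ht
    exact int_B h F ht
  rw [h1]
  ring

end Pool.Agent.Helper61.EF
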