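import Pool.Agent.Helper61.EF.Stream

/-!
PROJECT EF, module EF-13. Boundary particles.

Fix `θ`, `a = bc ρ θ`, `y(t) = g t a ∈ bd ρ` (`g_bd`), `0 < ‖y(t)‖`, `y' = u t y`. Let `τ(t) = ∫_0^t cross y y' / ‖y‖²`, so `τ' = cross y y' / ‖y‖^2 = Im (y' / y)` (continuous integrand on `[0,T]`; extend by `g` smooth and nonzero near or use
one-sided versions: `intervalIntegral.integral_hasDerivWithinAt_right`...). The function `t ↦ y(t) e^{- i (θ + τ(t))}` has real ratio with its derivative: `z = y e^{-i(θ+τ)}`, `z' = (y'/y - i τ') z = Re (y'/y) z`, so `z` stays on the ray of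
`z(0) = ρ(θ) > 0` (`(z / exp ∫ Re (y'/y))' = 0`): `y(t) = ‖y(t)‖ e^{i(θ + τ(t))}`. As `y(t) ∈ bd ρ` this gives `‖y(t)‖ = ρ(θ + τ(t))` (`mem_bd_iff`-type argument: `y = ρ(θ') e^{iθ'}` with `e^{iθ'} = e^{i(θ+τ)}`, periodicity), i.e.
`y(t) = bc ρ (θ + τ(t))`. At `t = T`: `g T a = bc ρ (θ + turning)`.
On the boundary `psi = 0`, so `Bf F t y = cross y (u t y) = ‖y‖² τ'(t) = ρ(θ + τ)² τ'`, and `Af F a = ∫_0^T ρ(θ + τ(t))² τ'(t) dt = ∫_θ^{θ + τ(T)} ρ²` (`intervalIntegral.integral_comp_mul_deriv'`).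
-/

set_option autoImplicit false

namespace Pool.Agent.Helper61.EF

open Complex MeasureTheory Set

variable {ρ : ℝ → ℝ} {T : ℝ}

private lemma ba_rho_arg (h : IsRadial ρ) {r : ℝ} (hr : 0 < r) (φ : ℝ) :
    ρ (arg ((r : ℂ) * Complex.exp (φ * I))) = ρ φ := by
  rw [Complex.arg_real_mul _ hr, Complex.arg_exp_mul_I]
  have h2 : toIocMod Real.two_pi_pos (-Real.pi) φ
      = φ - (toIocDiv Real.two_pi_pos (-Real.pi) φ) • (2 * Real.pi) := rfl
  rw [h2]
  have hp : Function.Periodic ρ (2 * Real.pi) := h.2.1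
  exact hp.sub_zsmul_eq _

private lemma ba_mem (h : IsRadial ρ) {r : ℝ} (hr : 0 < r) (φ : ℝ)
    (hm : (r : ℂ) * Complex.exp (φ * I) ∈ bd ρ) : (r : ℂ) * Complex.exp (φ * I) = bc ρ φ := by
  have h1 := (mem_bd_iff h _).1 hm
  rw [ba_rho_arg h hr, norm_mul, Complex.norm_exp_ofReal_mul_I, mul_one, Complex.norm_real,
    Real.norm_of_nonneg hr.le] at h1
  unfold bc
  rw [h1]

private lemma ba_ne (h : IsRadial ρ) {x : ℂ} (hx : x ∈ bd ρ) : x ≠ 0 := by
  intro h0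
  have h1 := (mem_bd_iff h _).1 hx
  rw [h0, norm_zero] at h1
  have := h.2.2 (arg (0 : ℂ))
  linarith

private lemma ba_im_div (v y : ℂ) : (v / y).im = cross y v / ‖y‖ ^ 2 := by
  rw [← Complex.normSq_eq_norm_sq, Complex.div_im]
  unfold cross
  ring

private lemma ba_key (h : IsRadial ρ) (hT : 0 ≤ T) (F : PerfectFlow ρ T) (θ : ℝ) :
    ∃ τ τ' : ℝ → ℝ, Continuous τ' ∧ (∀ t, HasDerivAt τ (τ' t) t) ∧ τ 0 = 0 ∧
      (∀ t ∈ Icc (0 : ℝ) T, F.g t (bc ρ θ) = bc ρ (θ + τ t)) ∧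
      (∀ t ∈ Icc (0 : ℝ) T,
        τ' t = cross (F.g t (bc ρ θ)) (F.u t (F.g t (bc ρ θ))) / ‖F.g t (bc ρ θ)‖ ^ 2) := by
  set a := bc ρ θ with ha
  have hab : a ∈ bd ρ := ⟨θ, rfl⟩
  have hac : a ∈ dom ρ ∪ bd ρ := Or.inr hab
  have hgb : ∀ t ∈ Icc (0 : ℝ) T, F.g t a ∈ bd ρ := fun t ht => (F.g_bd t ht).mapsTo hab
  have hgne : ∀ t ∈ Icc (0 : ℝ) T, F.g t a ≠ 0 := fun t ht => ba_ne h (hgb t ht)
  have hpc : Continuous (fun t : ℝ => ((projIcc 0 T hT t : Icc (0 : ℝ) T) : ℝ)) :=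
    continuous_subtype_val.comp continuous_projIcc
  have hgc : Continuous (fun t : ℝ => F.g ((projIcc 0 T hT t : Icc (0 : ℝ) T) : ℝ) a) :=
    F.smooth_g.continuous.comp (hpc.prodMk continuous_const)
  have huc : Continuous (fun t : ℝ => F.u ((projIcc 0 T hT t : Icc (0 : ℝ) T) : ℝ)
      (F.g ((projIcc 0 T hT t : Icc (0 : ℝ) T) : ℝ) a)) :=
    F.smooth_u.continuous.comp (hpc.prodMk hgc)
  obtain ⟨q, hq⟩ : ∃ q : ℝ → ℂ, q = fun t : ℝ => F.u ((projIcc 0 T hT t : Icc (0 : ℝ) T) : ℝ)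
      (F.g ((projIcc 0 T hT t : Icc (0 : ℝ) T) : ℝ) a) /
      F.g ((projIcc 0 T hT t : Icc (0 : ℝ) T) : ℝ) a := ⟨_, rfl⟩
  have hqc : Continuous q := by
    rw [hq]
    exact huc.div hgc (fun t => hgne _ (projIcc 0 T hT t).2)
  have hqv : ∀ t ∈ Icc (0 : ℝ) T, q t = F.u t (F.g t a) / F.g t a := by
    intro t ht
    rw [hq]
    simp only
    rw [projIcc_of_mem hT ht]
  obtain ⟨Q, hQ⟩ : ∃ Q : ℝ → ℂ, Q = fun t : ℝ => ∫ s in (0 : ℝ)..t, q s := ⟨_, rfl⟩
  have hQd : ∀ t, HasDerivAt Q (q t) t := by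
    intro t
    rw [hQ]
    exact intervalIntegral.integral_hasDerivAt_right (hqc.intervalIntegrable _ _)
      hqc.stronglyMeasurable.stronglyMeasurableAtFilter hqc.continuousAt
  have hQ0 : Q 0 = 0 := by
    rw [hQ]
    simp
  have hz : ∀ t ∈ Icc (0 : ℝ) T, F.g t a * Complex.exp (-Q t) = a := by
    have hd : ∀ t ∈ Icc (0 : ℝ) T,
        HasDerivAt (fun s => F.g s a * Complex.exp (-Q s)) 0 t := by
      intro t ht
      have h1 := F.g_ode t ht a hac
      have h2 := (hQd t).neg.cexp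
      have h3 := h1.mul h2
      refine h3.congr_deriv ?_
      rw [hqv t ht]
      have := hgne t ht
      field_simp
      ring
    intro t ht
    have hc : ContinuousOn (fun s => F.g s a * Complex.exp (-Q s)) (Icc 0 T) :=
      fun s hs => (hd s hs).continuousAt.continuousWithinAt
    have h4 := constant_of_has_deriv_right_zero hc
      (fun s hs => (hd s ⟨hs.1, hs.2.le⟩).hasDerivWithinAt) t ht
    rw [h4, hQ0, F.g_zero a hac]
    simp
  refine ⟨fun t => (Q t).im, fun t => (q t).im, Complex.continuous_im.comp hqc, ?_, ?_, ?_, ?_⟩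
  · intro t
    exact (Complex.imCLM.hasFDerivAt.comp_hasDerivAt t (hQd t))
  · simp only
    rw [hQ0]
    rfl
  · intro t ht
    have h1 := hz t ht
    have h2 : F.g t a = a * Complex.exp (Q t) := by
      rw [Complex.exp_neg] at h1
      have hne := Complex.exp_ne_zero (Q t)
      field_simp at h1
      rw [h1]
      ring
    have h3 : F.g t a = ((ρ θ * Real.exp (Q t).re : ℝ) : ℂ) *
        Complex.exp (((θ + (Q t).im : ℝ) : ℂ) * I) := by
      rw [h2, ha]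
      unfold bc
      have h5 : Complex.exp (Q t) = Complex.exp ((Q t).re) * Complex.exp ((Q t).im * I) := by
        rw [← Complex.exp_add, Complex.re_add_im]
      rw [h5]
      push_cast
      rw [add_mul, Complex.exp_add]
      ring
    have h6 : 0 < ρ θ * Real.exp (Q t).re := mul_pos (h.2.2 θ) (Real.exp_pos _)
    have h7 := hgb t ht
    rw [h3] at h7
    rw [h3]
    exact ba_mem h h6 _ h7
  · intro t ht
    simp only
    rw [hqv t ht, ba_im_div]

private lemma ba_turning (hT : 0 ≤ T) (F : PerfectFlow ρ T) (a : ℂ) (τ τ' : ℝ → ℝ)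
    (hc : Continuous τ') (hd : ∀ t, HasDerivAt τ (τ' t) t) (h0 : τ 0 = 0)
    (he : ∀ t ∈ Icc (0 : ℝ) T, τ' t = cross (F.g t a) (F.u t (F.g t a)) / ‖F.g t a‖ ^ 2) :
    turning F a = τ T := by
  unfold turning
  have h1 : (∫ t in (0 : ℝ)..T, cross (F.g t a) (F.u t (F.g t a)) / ‖F.g t a‖ ^ 2)
      = ∫ t in (0 : ℝ)..T, τ' t := by
    apply intervalIntegral.integral_congr
    intro t ht
    rw [uIcc_of_le hT] at ht
    exact (he t ht).symm
  rw [h1, intervalIntegral.integral_eq_sub_of_hasDerivAt (fun t _ => hd t)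
    (hc.intervalIntegrable _ _), h0, sub_zero]

theorem g_bc (h : IsRadial ρ) (hT : 0 ≤ T) (F : PerfectFlow ρ T) (θ : ℝ) :
    F.g T (bc ρ θ) = bc ρ (θ + turning F (bc ρ θ)) := by
  obtain ⟨τ, τ', hc, hd, h0, hg, he⟩ := ba_key h hT F θ
  rw [ba_turning hT F _ τ τ' hc hd h0 he]
  exact hg T ⟨hT, le_refl _⟩

theorem Af_bc (h : IsRadial ρ) (hT : 0 ≤ T) (F : PerfectFlow ρ T) (θ : ℝ) :
    Af F (bc ρ θ) = ∫ s in θ..(θ + turning F (bc ρ θ)), ρ s ^ 2 := by
  obtain ⟨τ, τ', hc, hd, h0, hg, he⟩ := ba_key h hT F θ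
  rw [ba_turning hT F _ τ τ' hc hd h0 he]
  unfold Af
  have h1 : (∫ t in (0 : ℝ)..T, Bf F t (F.g t (bc ρ θ)))
      = ∫ t in (0 : ℝ)..T, ((fun s => ρ s ^ 2) ∘ (fun t => θ + τ t)) t * τ' t := by
    apply intervalIntegral.integral_congr
    intro t ht
    rw [uIcc_of_le hT] at ht
    simp only [Function.comp]
    rw [he t ht]
    have hb : F.g t (bc ρ θ) = bc ρ (θ + τ t) := hg t ht
    have hpsi : psi F t (F.g t (bc ρ θ)) = 0 := by
      rw [hb]
      exact psi_bd h F ht _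
    unfold Bf
    rw [hpsi]
    have hn : ‖F.g t (bc ρ θ)‖ = ρ (θ + τ t) := by
      rw [hb]
      exact norm_bc h _
    rw [hn]
    have hp := (h.2.2 (θ + τ t)).ne'
    field_simp
    ring
  have hg2 : Continuous (fun s : ℝ => ρ s ^ 2) := h.1.continuous.pow 2
  rw [h1, intervalIntegral.integral_comp_mul_deriv (f := fun t => θ + τ t) (f' := τ')
    (g := fun s : ℝ => ρ s ^ 2) (fun t _ => (hd t).const_add θ) hc.continuousOn hg2, h0, add_zero]

end Pool.Agent.Helper61.EF
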