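import Pool.Agent.Helper61.EF.Ident
import Pool.Agent.Helper61.EF.Turn

/-!
PROJECT EF, module EF-21. The bound for star-shaped domains.

Let `γ = id` on the boundary. `turning_const` with `β = 0`: turning `= 2πk`. `Af_bc`: `A(bc θ) = ∫_θ^{θ+2πk} ρ² = k ∫_0^{2π} ρ² =: m` (periodic: `Function.Periodic.intervalIntegral_add_zsmul_eq`) and `m = 2 k V`, `V = ∫_{dom} 1` (`integral_dom_one`).
`E = ∫ ‖u 0‖²`, `N = √(∫ ‖Zc‖²)`, `K = ∫ (1 + (ρ'/ρ)²)`, `G = ∫ curl (u 0)`, `b̄ = ∫_0^T bE`. `virial` and `cauchy_dom`: `2 T E + b̄/2 ≤ N √E + 2 |k| V |G|`. `circ_sq` integrated over `t ∈ [0, T]`: `T G² ≤ b̄ K`. So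
`T * 2 |k| V |G| ≤ ...`: by AM-GM `2 |k| V |G| ≤ b̄/2 + 2 k² V² K / T` (because `(|k| V |G|)² ≤ k² V² K b̄ / T`, `2 √(XY) ≤ X/2 + 2Y` with `X = b̄`, `Y = k² V² K / T`). Hence `2 T E ≤ N √E + 2 k² V² K / T`, and with `s = T √E`:
`2 s² ≤ N s + 2 (|k| V √K)²`, which gives `s ≤ N/2 + |k| V √K`. Finally `∫ ‖u t‖² = E` (`energy`) and `Zf = Zc` on `dom ρ` (`Zf_eq_Zc`).
-/

set_option autoImplicit false

namespace Pool.Agent.Helper61.EF

open Complex MeasureTheory Set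

variable {ρ : ℝ → ℝ} {T : ℝ}

/-- the elementary inequality. -/
theorem bound_algebra (T E N V K G b k : ℝ) (hT : 0 < T) (hE : 0 ≤ E) (hN : 0 ≤ N) (hV : 0 ≤ V)
    (hK : 0 ≤ K) (hb : 0 ≤ b) (h1 : 2 * T * E + (1 / 2) * b ≤ N * Real.sqrt E + 2 * |k| * V * |G|)
    (h2 : T * G ^ 2 ≤ b * K) :
    T * Real.sqrt E ≤ (1 / 2) * N + |k| * V * Real.sqrt K := by
  have he : 0 ≤ Real.sqrt E := Real.sqrt_nonneg E
  have hee : Real.sqrt E ^ 2 = E := Real.sq_sqrt hE
  have hKK : Real.sqrt K ^ 2 = K := Real.sq_sqrt hK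
  have hk0 : 0 ≤ |k| := abs_nonneg k
  set e := Real.sqrt E with hedef
  set q := Real.sqrt K with hqdef
  have hq : 0 ≤ q := Real.sqrt_nonneg K
  set c := |k| * V * q with hc
  have hc0 : 0 ≤ c := by positivity
  set s := T * e with hs
  have hs0 : 0 ≤ s := by positivity
  -- the product of the boundary term
  have h3 : (2 * (|k| * V) * (T * |G|)) ≤ (1 / 2) * (T * b) + 2 * c ^ 2 := by
    have hX : 0 ≤ (1 / 2) * (T * b) + 2 * c ^ 2 := by positivity
    have hG : (T * |G|) ^ 2 ≤ T * b * q ^ 2 := by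
      have h4 : (T * |G|) ^ 2 = T * (T * G ^ 2) := by
        rw [mul_pow, sq_abs]
        ring
      rw [h4, hKK]
      have h5 := mul_le_mul_of_nonneg_left h2 hT.le
      calc T * (T * G ^ 2) ≤ T * (b * K) := h5
        _ = T * b * K := by ring
    have hkV : 0 ≤ (|k| * V) ^ 2 := by positivity
    have h6 : (2 * (|k| * V) * (T * |G|)) ^ 2 ≤ ((1 / 2) * (T * b) + 2 * c ^ 2) ^ 2 := by
      have h7 : (2 * (|k| * V) * (T * |G|)) ^ 2 ≤ 4 * (T * b) * c ^ 2 := by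
        calc (2 * (|k| * V) * (T * |G|)) ^ 2 = 4 * ((|k| * V) ^ 2 * (T * |G|) ^ 2) := by ring
          _ ≤ 4 * ((|k| * V) ^ 2 * (T * b * q ^ 2)) := by
              have := mul_le_mul_of_nonneg_left hG hkV
              linarith
          _ = 4 * (T * b) * c ^ 2 := by rw [hc]; ring
      nlinarith [sq_nonneg ((1 / 2) * (T * b) - 2 * c ^ 2)]
    exact (le_abs_self _).trans (abs_le_of_sq_le_sq h6 hX)
  have h8 : 2 * s ^ 2 ≤ N * s + 2 * c ^ 2 := by
    have h9 := mul_le_mul_of_nonneg_left h1 hT.le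
    have h10 : T * (2 * T * E + (1 / 2) * b) = 2 * s ^ 2 + (1 / 2) * (T * b) := by
      rw [hs, ← hee]
      ring
    have h11 : T * (N * e + 2 * |k| * V * |G|) = N * s + 2 * (|k| * V) * (T * |G|) := by
      rw [hs]
      ring
    rw [h10, h11] at h9
    linarith
  by_contra hcon
  push Not at hcon
  have h12 : c < s := by linarith
  nlinarith [mul_nonneg hc0 hc0]

theorem boundA (h : IsRadial ρ) (hT : 0 < T) (F : PerfectFlow ρ T)
    (hg : ∀ x ∈ bd ρ, F.g T x = x) :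
    ∃ k : ℤ, (∀ x ∈ bd ρ, turning F x = 2 * Real.pi * k) ∧
      ∀ t ∈ Icc (0 : ℝ) T, T * Real.sqrt (∫ x in dom ρ, ‖F.u t x‖ ^ 2) ≤
        (1 / 2) * Real.sqrt (∫ x in dom ρ, ‖Zf F x‖ ^ 2) +
          |(k : ℝ)| * (∫ _x in dom ρ, (1 : ℝ)) *
            Real.sqrt (∫ θ in (0 : ℝ)..(2 * Real.pi), (1 + (deriv ρ θ / ρ θ) ^ 2)) := by
  obtain ⟨k, hk⟩ := turning_const h hT.le F 0 (fun θ => by
    rw [add_zero]
    exact hg _ ⟨θ, rfl⟩)
  refine ⟨k, ?_, ?_⟩
  · rintro x ⟨θ, rfl⟩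
    rw [hk θ]
    ring
  · have hρc : Continuous ρ := h.1.continuous
    have hper : Function.Periodic (fun s => ρ s ^ 2) (2 * Real.pi) := fun θ => by
      show ρ (θ + 2 * Real.pi) ^ 2 = ρ θ ^ 2
      rw [h.2.1 θ]
    have hV : ∫ θ in (0 : ℝ)..(2 * Real.pi), ρ θ ^ 2 = 2 * ∫ _x in dom ρ, (1 : ℝ) := by
      rw [integral_dom_one h]
      ring
    have hV0 : 0 ≤ ∫ _x in dom ρ, (1 : ℝ) := integral_nonneg fun _ => zero_le_one
    have hm : ∀ θ, Af F (bc ρ θ) = 2 * (k : ℝ) * ∫ _x in dom ρ, (1 : ℝ) := by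
      intro θ
      rw [Af_bc h hT.le F θ, hk θ]
      have h1 : θ + (0 + 2 * Real.pi * (k : ℝ)) = θ + k • (2 * Real.pi) := by
        rw [zsmul_eq_mul]
        ring
      rw [h1, hper.intervalIntegral_add_zsmul_eq k θ
        (fun a b => (hρc.pow 2).intervalIntegrable a b),
        hper.intervalIntegral_add_eq θ 0, zero_add, hV, zsmul_eq_mul]
      ring
    have hvir := virial h hT.le F _ hm
    have hu0 : Continuous (F.u 0) :=
      F.smooth_u.continuous.comp (continuous_const.prodMk continuous_id)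
    have hcau := cauchy_dom h (Zc F) (F.u 0) (Zc_continuous F) hu0
    set V := ∫ _x in dom ρ, (1 : ℝ) with hVdef
    set E := ∫ x in dom ρ, ‖F.u 0 x‖ ^ 2 with hEdef
    set G := ∫ a in dom ρ, curl (F.u 0) a with hGdef
    set K := ∫ θ in (0 : ℝ)..(2 * Real.pi), (1 + (deriv ρ θ / ρ θ) ^ 2) with hKdef
    set N := Real.sqrt (∫ x in dom ρ, ‖Zc F x‖ ^ 2) with hNdef
    have hE0 : 0 ≤ E := integral_nonneg fun _ => by positivity
    have hN0 : 0 ≤ N := Real.sqrt_nonneg _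
    have hK0 : 0 ≤ K := intervalIntegral.integral_nonneg (by positivity) fun θ _ => by positivity
    have hbE0 : ∀ t, 0 ≤ bE F t := fun t =>
      intervalIntegral.integral_nonneg (by positivity) fun θ _ => by positivity
    have hb0 : 0 ≤ ∫ t in (0 : ℝ)..T, bE F t :=
      intervalIntegral.integral_nonneg hT.le fun t _ => hbE0 t
    have hcs : T * G ^ 2 ≤ (∫ t in (0 : ℝ)..T, bE F t) * K := by
      have h1 : ∫ _t in (0 : ℝ)..T, G ^ 2 ≤ ∫ t in (0 : ℝ)..T, bE F t * K := by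
        apply intervalIntegral.integral_mono_on hT.le
        · exact intervalIntegrable_const
        · exact ((bE_continuous h F).mul continuous_const).intervalIntegrable _ _
        · intro t ht
          exact circ_sq h F ht
      rw [intervalIntegral.integral_const, intervalIntegral.integral_mul_const, smul_eq_mul,
        sub_zero] at h1
      exact h1
    have h1 : 2 * T * E + (1 / 2) * (∫ t in (0 : ℝ)..T, bE F t) ≤
        N * Real.sqrt E + 2 * |(k : ℝ)| * V * |G| := by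
      rw [hvir]
      have h2 : ∫ a in dom ρ, dot (Zc F a) (F.u 0 a) ≤ N * Real.sqrt E := (le_abs_self _).trans hcau
      have h3 : 2 * (k : ℝ) * V * G ≤ 2 * |(k : ℝ)| * V * |G| := by
        have h4 : 2 * (k : ℝ) * V * G ≤ |2 * (k : ℝ) * V * G| := le_abs_self _
        rw [abs_mul, abs_mul, abs_mul, abs_of_nonneg hV0, abs_two] at h4
        exact h4
      linarith
    have hmain := bound_algebra T E N V K G _ (k : ℝ) hT hE0 hN0 hV0 hK0 hb0 h1 hcs
    intro t ht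
    rw [energy h F ht]
    have hZ : ∫ x in dom ρ, ‖Zf F x‖ ^ 2 = ∫ x in dom ρ, ‖Zc F x‖ ^ 2 := by
      refine setIntegral_congr_fun (isOpen_dom h).measurableSet fun a ha => ?_
      show ‖Zf F a‖ ^ 2 = ‖Zc F a‖ ^ 2
      rw [Zf_eq_Zc h hT.le F ha]
    rw [hZ]
    exact hmain

end Pool.Agent.Helper61.EF
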