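import Pool.Agent.Helper61.EF.Dom

/-!
PROJECT EF, module EF-09. Vorticity transport: `ω(t, g_t a) = ω(0, a)`.

Let `U (t, x) = u t x` (`C²`), `D = fderiv ℝ U` (`C¹`). For a vector `e` put `f_e (t) = fderiv ℝ (u t) (g t a) e = D (t, g t a) (0, e)`, so `curl (u t) (g t a) = Im f_1 - Re f_I`. For `t ∈ [0, T]`:
`f_e'(t) = (fderiv ℝ D (t, g t a) (1, u)) (0, e) = (fderiv ℝ D (t, g t a) (0, e)) (1, u)` with `u = u t (g t a)` (`g_ode`, symmetry of the second derivative).
On the other hand the Euler equation on the open set `dom ρ` (`x ∈ dom ρ`): the vector `D (t, x) (1, u t x)` (`= ∂_t u + Du u`) equals `- ∇p (t, x)`, where `∇p = (∂_1 p) + (∂_2 p) I`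
(take `v = 1, I` in `euler`). Differentiate at `x = g t a ∈ dom ρ` in direction `e`: `(fderiv ℝ D (t,x) (0, e)) (1, u) + D (t, x) (0, Du e) = - D∇p e`, i.e. `f_e' = - D∇p(x) e - L (L e)`, `L = fderiv ℝ (u t) x`.
So `(Im f_1 - Re f_I)' = - curl ∇p - (Im (L (L 1)) - Re (L (L I)))`. The first term vanishes by symmetry of the second derivative of `p t`, the second is `tr L * curl = 0` (`Im (L² 1) - Re (L² I) = tr L (Im (L 1) - Re (L I))`,
`div_free`). A continuous function on `[0, T]` with derivative `0` is constant (`constant_of_has_deriv_right_zero` or `is_const_of_deriv_eq_zero`-type on an interval), and `g 0 a = a`.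
-/

set_option autoImplicit false

namespace Pool.Agent.Helper61.EF

open Complex MeasureTheory Set

variable {ρ : ℝ → ℝ} {T : ℝ}

private lemma tr_sym {E : Type*} [NormedAddCommGroup E] [NormedSpace ℝ E] {W : Type*}
    [NormedAddCommGroup W] [NormedSpace ℝ W] {f : E → W} (hf : ContDiff ℝ 2 f) (q v w : E) :
    fderiv ℝ (fderiv ℝ f) q v w = fderiv ℝ (fderiv ℝ f) q w v := by
  have h1 : IsSymmSndFDerivAt ℝ f q :=
    hf.contDiffAt.isSymmSndFDerivAt (by simp [minSmoothness_of_isRCLikeNormedField])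
  exact h1 v w

private lemma tr_fderiv_slice {W : Type*} [NormedAddCommGroup W] [NormedSpace ℝ W]
    {f : ℝ × ℂ → W} (hf : ContDiff ℝ 2 f) (t : ℝ) (x e : ℂ) :
    fderiv ℝ (fun y : ℂ => f (t, y)) x e = fderiv ℝ f (t, x) (0, e) := by
  have h1 : HasFDerivAt f (fderiv ℝ f (t, x)) (t, x) :=
    (hf.differentiable (by norm_num) (t, x)).hasFDerivAt
  have h2 : HasFDerivAt (fun y : ℂ => (t, y)) (ContinuousLinearMap.inr ℝ ℝ ℂ) x :=
    hasFDerivAt_prodMk_right t x
  have h3 : HasFDerivAt (fun y : ℂ => f (t, y))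
      ((fderiv ℝ f (t, x)).comp (ContinuousLinearMap.inr ℝ ℝ ℂ)) x :=
    HasFDerivAt.comp (g := f) (f := fun y : ℂ => (t, y)) x h1 h2
  rw [h3.fderiv]
  simp

private lemma tr_deriv_slice {W : Type*} [NormedAddCommGroup W] [NormedSpace ℝ W]
    {f : ℝ × ℂ → W} (hf : ContDiff ℝ 2 f) (t : ℝ) (x : ℂ) :
    deriv (fun s : ℝ => f (s, x)) t = fderiv ℝ f (t, x) (1, 0) := by
  have h1 : HasFDerivAt f (fderiv ℝ f (t, x)) (t, x) :=
    (hf.differentiable (by norm_num) (t, x)).hasFDerivAt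
  have h2 : HasDerivAt (fun s : ℝ => (s, x)) ((1 : ℝ), (0 : ℂ)) t :=
    (hasDerivAt_id t).prodMk (hasDerivAt_const t x)
  exact (HasFDerivAt.comp_hasDerivAt (l := f) (f := fun s : ℝ => (s, x)) t h1 h2).deriv

theorem curl_transport (h : IsRadial ρ) (F : PerfectFlow ρ T) {t : ℝ} (ht : t ∈ Icc (0 : ℝ) T)
    {a : ℂ} (ha : a ∈ dom ρ) : curl (F.u t) (F.g t a) = curl (F.u 0) a := by
  -- the space-time fields
  obtain ⟨V, hV⟩ : ∃ V : ℝ × ℂ → ℂ, V = fun q : ℝ × ℂ => F.u q.1 q.2 := ⟨_, rfl⟩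
  obtain ⟨P, hP⟩ : ∃ P : ℝ × ℂ → ℝ, P = fun q : ℝ × ℂ => F.p q.1 q.2 := ⟨_, rfl⟩
  have hVs : ContDiff ℝ 2 V := by rw [hV]; exact F.smooth_u
  have hPs : ContDiff ℝ 2 P := by rw [hP]; exact F.smooth_p
  have hVd : Differentiable ℝ (fderiv ℝ V) :=
    (hVs.fderiv_right (m := 1) (by norm_num)).differentiable (by norm_num)
  have hPd : Differentiable ℝ (fderiv ℝ P) :=
    (hPs.fderiv_right (m := 1) (by norm_num)).differentiable (by norm_num)
  have hL : ∀ (s : ℝ) (x e : ℂ), fderiv ℝ (F.u s) x e = fderiv ℝ V (s, x) (0, e) := by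
    intro s x e
    rw [← tr_fderiv_slice hVs s x e, hV]
  have hLp : ∀ (s : ℝ) (x e : ℂ), fderiv ℝ (F.p s) x e = fderiv ℝ P (s, x) (0, e) := by
    intro s x e
    rw [← tr_fderiv_slice hPs s x e, hP]
  have hT : ∀ (s : ℝ) (x : ℂ), deriv (fun r => F.u r x) s = fderiv ℝ V (s, x) (1, 0) := by
    intro s x
    rw [← tr_deriv_slice hVs s x, hV]
  -- the Euler equation
  have hE : ∀ s ∈ Icc (0 : ℝ) T, ∀ x ∈ dom ρ, ∀ v : ℂ,
      dot (fderiv ℝ V (s, x) (1, V (s, x))) v = -(fderiv ℝ P (s, x) (0, v)) := by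
    intro s hs x hx v
    have h1 := F.euler s hs x (Or.inl hx) v
    rw [hT, hL, hLp, ← (fderiv ℝ V (s, x)).map_add] at h1
    have h2 : ((1 : ℝ), (0 : ℂ)) + (0, F.u s x) = (1, V (s, x)) := by
      rw [hV]
      simp
    rw [h2] at h1
    exact h1
  -- its derivative in a direction `e`
  have hE2 : ∀ s ∈ Icc (0 : ℝ) T, ∀ x ∈ dom ρ, ∀ e v : ℂ,
      dot (fderiv ℝ (fderiv ℝ V) (s, x) (0, e) (1, V (s, x)) +
        fderiv ℝ V (s, x) (0, fderiv ℝ V (s, x) (0, e))) v =
      -(fderiv ℝ (fderiv ℝ P) (s, x) (0, e) (0, v)) := by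
    intro s hs x hx e v
    have hline : HasDerivAt (fun r : ℝ => (s, x + (r : ℂ) * e)) ((0 : ℝ), e) 0 := by
      refine (hasDerivAt_const (0 : ℝ) s).prodMk ?_
      have h1 : HasDerivAt (fun r : ℝ => (r : ℂ) * e) (1 * e) 0 :=
        (HasDerivAt.ofReal_comp (hasDerivAt_id (0 : ℝ))).mul_const e
      have h2 := h1.const_add x
      rw [one_mul] at h2
      exact h2
    have h0 : (s, x + ((0 : ℝ) : ℂ) * e) = (s, x) := by simp
    have hA : HasDerivAt (fun r : ℝ => fderiv ℝ V (s, x + (r : ℂ) * e))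
        (fderiv ℝ (fderiv ℝ V) (s, x) (0, e)) 0 := by
      have h1 : HasFDerivAt (fderiv ℝ V) (fderiv ℝ (fderiv ℝ V) (s, x))
          (s, x + ((0 : ℝ) : ℂ) * e) := by
        rw [h0]
        exact (hVd (s, x)).hasFDerivAt
      exact HasFDerivAt.comp_hasDerivAt (l := fderiv ℝ V)
        (f := fun r : ℝ => (s, x + (r : ℂ) * e)) 0 h1 hline
    have hB : HasDerivAt (fun r : ℝ => V (s, x + (r : ℂ) * e)) (fderiv ℝ V (s, x) (0, e)) 0 := by
      have h1 : HasFDerivAt V (fderiv ℝ V (s, x)) (s, x + ((0 : ℝ) : ℂ) * e) := by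
        rw [h0]
        exact (hVs.differentiable (by norm_num) (s, x)).hasFDerivAt
      exact HasFDerivAt.comp_hasDerivAt (l := V)
        (f := fun r : ℝ => (s, x + (r : ℂ) * e)) 0 h1 hline
    have hC : HasDerivAt (fun r : ℝ => ((1 : ℝ), V (s, x + (r : ℂ) * e)))
        ((0 : ℝ), fderiv ℝ V (s, x) (0, e)) 0 := (hasDerivAt_const (0 : ℝ) (1 : ℝ)).prodMk hB
    have hG : HasDerivAt (fun r : ℝ => fderiv ℝ V (s, x + (r : ℂ) * e)
        (1, V (s, x + (r : ℂ) * e)))
        (fderiv ℝ (fderiv ℝ V) (s, x) (0, e) (1, V (s, x)) +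
          fderiv ℝ V (s, x) (0, fderiv ℝ V (s, x) (0, e))) 0 := by
      have h1 := hA.clm_apply hC
      rw [h0] at h1
      exact h1
    have hGd : HasDerivAt (fun r : ℝ => dot (fderiv ℝ V (s, x + (r : ℂ) * e)
        (1, V (s, x + (r : ℂ) * e))) v)
        (dot (fderiv ℝ (fderiv ℝ V) (s, x) (0, e) (1, V (s, x)) +
          fderiv ℝ V (s, x) (0, fderiv ℝ V (s, x) (0, e))) v) 0 := by
      have hre := (Complex.reCLM.hasFDerivAt).comp_hasDerivAt (0 : ℝ) hG
      have him := (Complex.imCLM.hasFDerivAt).comp_hasDerivAt (0 : ℝ) hG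
      exact (hre.mul_const v.re).add (him.mul_const v.im)
    have hPl : HasDerivAt (fun r : ℝ => -(fderiv ℝ P (s, x + (r : ℂ) * e) (0, v)))
        (-(fderiv ℝ (fderiv ℝ P) (s, x) (0, e) (0, v))) 0 := by
      have h1 : HasFDerivAt (fderiv ℝ P) (fderiv ℝ (fderiv ℝ P) (s, x))
          (s, x + ((0 : ℝ) : ℂ) * e) := by
        rw [h0]
        exact (hPd (s, x)).hasFDerivAt
      have h2 : HasDerivAt (fun r : ℝ => fderiv ℝ P (s, x + (r : ℂ) * e))
          (fderiv ℝ (fderiv ℝ P) (s, x) (0, e)) 0 :=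
        HasFDerivAt.comp_hasDerivAt (l := fderiv ℝ P)
          (f := fun r : ℝ => (s, x + (r : ℂ) * e)) 0 h1 hline
      have h3 := h2.clm_apply (hasDerivAt_const (0 : ℝ) ((0 : ℝ), v))
      have h4 := h3.neg
      refine h4.congr_deriv ?_
      simp
    have hev : (fun r : ℝ => dot (fderiv ℝ V (s, x + (r : ℂ) * e)
        (1, V (s, x + (r : ℂ) * e))) v) =ᶠ[nhds 0]
        (fun r : ℝ => -(fderiv ℝ P (s, x + (r : ℂ) * e) (0, v))) := by
      have hc : ContinuousAt (fun r : ℝ => x + (r : ℂ) * e) 0 :=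
        (continuous_const.add (Complex.continuous_ofReal.mul continuous_const)).continuousAt
      have hx0 : x + ((0 : ℝ) : ℂ) * e ∈ dom ρ := by simpa using hx
      filter_upwards [hc.preimage_mem_nhds ((isOpen_dom h).mem_nhds hx0)] with r hr
      exact hE s hs _ hr v
    exact hGd.unique (hPl.congr_of_eventuallyEq hev)
  -- the derivative of the curl along the flow vanishes
  have hder : ∀ s ∈ Icc (0 : ℝ) T, HasDerivAt (fun r => curl (F.u r) (F.g r a)) 0 s := by
    intro s hs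
    have hx : F.g s a ∈ dom ρ := (F.g_dom s hs).mapsTo ha
    have hgo : HasDerivAt (fun r => (r, F.g r a)) ((1 : ℝ), V (s, F.g s a)) s := by
      have h1 := F.g_ode s hs a (Or.inl ha)
      have h2 := (hasDerivAt_id s).prodMk h1
      rw [hV]
      exact h2
    have hf : ∀ e : ℂ, HasDerivAt (fun r => fderiv ℝ (F.u r) (F.g r a) e)
        (fderiv ℝ (fderiv ℝ V) (s, F.g s a) (0, e) (1, V (s, F.g s a))) s := by
      intro e
      have h1 : HasDerivAt (fun r => fderiv ℝ V (r, F.g r a))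
          (fderiv ℝ (fderiv ℝ V) (s, F.g s a) (1, V (s, F.g s a))) s :=
        HasFDerivAt.comp_hasDerivAt (l := fderiv ℝ V) (f := fun r => (r, F.g r a)) s
          (hVd (s, F.g s a)).hasFDerivAt hgo
      have h2 := h1.clm_apply (hasDerivAt_const s ((0 : ℝ), e))
      have h3 : (fun r => fderiv ℝ (F.u r) (F.g r a) e)
          = fun r => fderiv ℝ V (r, F.g r a) (0, e) := by
        funext r
        exact hL r _ e
      rw [h3]
      refine h2.congr_deriv ?_
      rw [tr_sym hVs]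
      simp
    have h1 := (Complex.imCLM.hasFDerivAt).comp_hasDerivAt s (hf 1)
    have h2 := (Complex.reCLM.hasFDerivAt).comp_hasDerivAt s (hf I)
    have h3 := h1.sub h2
    refine h3.congr_deriv ?_
    have e1 := hE2 s hs _ hx 1 I
    have e2 := hE2 s hs _ hx I 1
    have e3 := tr_sym hPs (s, F.g s a) (0, 1) (0, I)
    have e4 := F.div_free s hs _ (Or.inl hx)
    unfold div at e4
    rw [hL, hL] at e4
    -- linear expansion
    obtain ⟨L, hLd⟩ : ∃ L : ℂ → ℂ, L = fun e => fderiv ℝ V (s, F.g s a) (0, e) := ⟨_, rfl⟩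
    have hlin : ∀ e : ℂ, L e = (e.re : ℂ) * L 1 + (e.im : ℂ) * L I := by
      intro e
      have h4 : ((0 : ℝ), e) = e.re • ((0 : ℝ), (1 : ℂ)) + e.im • ((0 : ℝ), I) := by
        ext <;> simp
      rw [hLd]
      simp only
      rw [h4, map_add, map_smul, map_smul, Complex.real_smul, Complex.real_smul]
    have hL1 : fderiv ℝ V (s, F.g s a) (0, 1) = L 1 := by rw [hLd]
    have hLI : fderiv ℝ V (s, F.g s a) (0, I) = L I := by rw [hLd]
    have hLL : ∀ e, fderiv ℝ V (s, F.g s a) (0, e) = L e := by intro e; rw [hLd]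
    rw [hLL, hLL] at e1 e2 e4
    rw [hlin (L 1)] at e1
    rw [hlin (L I)] at e2
    generalize L 1 = z1 at *
    generalize L I = z2 at *
    generalize fderiv ℝ (fderiv ℝ V) (s, F.g s a) (0, 1) (1, V (s, F.g s a)) = A1 at *
    generalize fderiv ℝ (fderiv ℝ V) (s, F.g s a) (0, I) (1, V (s, F.g s a)) = A2 at *
    generalize fderiv ℝ (fderiv ℝ P) (s, F.g s a) (0, 1) (0, I) = B1 at *
    generalize fderiv ℝ (fderiv ℝ P) (s, F.g s a) (0, I) (0, 1) = B2 at *
    unfold dot at e1 e2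
    simp only [Complex.add_re, Complex.add_im, Complex.mul_re, Complex.mul_im, Complex.ofReal_re,
      Complex.ofReal_im, Complex.I_re, Complex.I_im, Complex.one_re, Complex.one_im, mul_zero,
      mul_one, zero_mul, sub_zero, add_zero, zero_add] at e1 e2
    simp only [Complex.imCLM_apply, Complex.reCLM_apply]
    linear_combination e1 - e2 - e3 - (z1.im - z2.re) * e4
  have hcont : ContinuousOn (fun r => curl (F.u r) (F.g r a)) (Icc 0 T) :=
    fun s hs => (hder s hs).continuousAt.continuousWithinAt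
  have hconst := constant_of_has_deriv_right_zero hcont
    (fun s hs => (hder s ⟨hs.1, hs.2.le⟩).hasDerivWithinAt) t ht
  rw [hconst, F.g_zero a (Or.inl ha)]

end Pool.Agent.Helper61.EF
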