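import Pool.Agent.Helper61.EF.Flux
import Pool.Agent.Helper61.EF.Push
import Pool.Agent.Helper61.EF.Transport
import Pool.Agent.Helper61.EF.Tools

/-!
PROJECT EF, module EF-18. Circulation.

* `circ_flux`: `flux` for `W = - I * u`: `div W = curl u` (everywhere), `cross (-I u) c' = dot u c'`.
* `circ_const`: `∫ curl (u t) (x) dx = ∫ curl (u t) (g t a) da` (`push`) `= ∫ curl (u 0) a da` (`curl_transport` on `dom ρ`, `setIntegral_congr_fun`).
* `circ_sq`: `|dot u c'| ≤ ‖u‖ ‖c'‖ = (‖u‖ ρ) (‖c'‖ / ρ)`, Cauchy-Schwarz (`cauchy_interval`), `‖c'‖² / ρ² = 1 + (ρ'/ρ)²` (`norm_deriv_bc_sq`).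
-/

set_option autoImplicit false

namespace Pool.Agent.Helper61.EF

open Complex MeasureTheory Set

variable {ρ : ℝ → ℝ} {T : ℝ}

theorem circ_flux (h : IsRadial ρ) (F : PerfectFlow ρ T) (t : ℝ) :
    ∫ x in dom ρ, curl (F.u t) x =
      ∫ θ in (0 : ℝ)..(2 * Real.pi), dot (F.u t (bc ρ θ)) (deriv (bc ρ) θ) := by
  have hu : ContDiff ℝ 2 (F.u t) := F.smooth_u.comp (contDiff_prodMk_right t)
  have hW : ContDiff ℝ 1 (fun x => -I * F.u t x) := contDiff_const.mul (hu.of_le (by norm_num))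
  have h1 := flux h (fun x => -I * F.u t x) hW
  have h2 : ∀ x, div (fun x => -I * F.u t x) x = curl (F.u t) x := by
    intro x
    have hd : DifferentiableAt ℝ (F.u t) x := hu.differentiable (by norm_num) x
    have h3 : fderiv ℝ (fun x => -I * F.u t x) x = (-I) • fderiv ℝ (F.u t) x := by
      have h4 := fderiv_const_mul (𝕜 := ℝ) hd (-I)
      exact h4
    unfold div curl
    rw [h3]
    simp
    ring
  have h5 : ∀ a b : ℂ, cross (-I * a) b = dot a b := by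
    intro a b
    unfold cross dot
    simp
    ring
  simp only [h2, h5] at h1
  exact h1

theorem circ_const (h : IsRadial ρ) (F : PerfectFlow ρ T) {t : ℝ} (ht : t ∈ Icc (0 : ℝ) T) :
    ∫ x in dom ρ, curl (F.u t) x = ∫ x in dom ρ, curl (F.u 0) x := by
  rw [← push h F ht (curl (F.u t))]
  exact setIntegral_congr_fun (isOpen_dom h).measurableSet fun a ha => curl_transport h F ht ha

theorem circ_sq (h : IsRadial ρ) (F : PerfectFlow ρ T) {t : ℝ} (ht : t ∈ Icc (0 : ℝ) T) :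
    (∫ x in dom ρ, curl (F.u 0) x) ^ 2 ≤
      (∫ θ in (0 : ℝ)..(2 * Real.pi), ‖F.u t (bc ρ θ)‖ ^ 2 * ρ θ ^ 2) *
        ∫ θ in (0 : ℝ)..(2 * Real.pi), (1 + (deriv ρ θ / ρ θ) ^ 2) := by
  rw [← circ_const h F ht, circ_flux h F t]
  have hu : ContDiff ℝ 2 (F.u t) := F.smooth_u.comp (contDiff_prodMk_right t)
  have hc : Continuous (bc ρ) := (bc_contDiff h).continuous
  have hc' : Continuous (deriv (bc ρ)) := (bc_contDiff h).continuous_deriv le_rfl
  have hr : Continuous ρ := h.1.continuous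
  have hpi : (0 : ℝ) ≤ 2 * Real.pi := Real.two_pi_pos.le
  have hf : Continuous fun θ => ‖F.u t (bc ρ θ)‖ * ρ θ := ((hu.continuous.comp hc).norm).mul hr
  have hg : Continuous fun θ => ‖deriv (bc ρ) θ‖ / ρ θ := hc'.norm.div hr fun θ => (h.2.2 θ).ne'
  have h1 := cauchy_interval _ _ hf hg hpi
  have h2 : |∫ θ in (0 : ℝ)..(2 * Real.pi), dot (F.u t (bc ρ θ)) (deriv (bc ρ) θ)| ≤
      ∫ θ in (0 : ℝ)..(2 * Real.pi), ‖F.u t (bc ρ θ)‖ * ρ θ * (‖deriv (bc ρ) θ‖ / ρ θ) := by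
    have h3 := intervalIntegral.norm_integral_le_of_norm_le hpi (μ := volume)
      (f := fun θ => dot (F.u t (bc ρ θ)) (deriv (bc ρ) θ))
      (g := fun θ => ‖F.u t (bc ρ θ)‖ * ρ θ * (‖deriv (bc ρ) θ‖ / ρ θ))
      (Filter.Eventually.of_forall fun θ _ => by
        have h4 := abs_dot_le (F.u t (bc ρ θ)) (deriv (bc ρ) θ)
        have h5 : ‖F.u t (bc ρ θ)‖ * ρ θ * (‖deriv (bc ρ) θ‖ / ρ θ) = ‖F.u t (bc ρ θ)‖ * ‖deriv (bc ρ) θ‖ := by
          have := (h.2.2 θ).ne'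
          field_simp
        rw [Real.norm_eq_abs, h5]
        exact h4) ((hf.mul hg).intervalIntegrable _ _)
    rwa [Real.norm_eq_abs] at h3
  have h6 : (∫ θ in (0 : ℝ)..(2 * Real.pi), dot (F.u t (bc ρ θ)) (deriv (bc ρ) θ)) ^ 2 ≤
      (∫ θ in (0 : ℝ)..(2 * Real.pi), ‖F.u t (bc ρ θ)‖ * ρ θ * (‖deriv (bc ρ) θ‖ / ρ θ)) ^ 2 := by
    rw [← sq_abs]
    exact pow_le_pow_left₀ (abs_nonneg _) h2 2
  refine h6.trans (h1.trans (le_of_eq ?_))
  congr 1
  · refine intervalIntegral.integral_congr fun θ _ => ?_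
    show (‖F.u t (bc ρ θ)‖ * ρ θ) ^ 2 = ‖F.u t (bc ρ θ)‖ ^ 2 * ρ θ ^ 2
    ring
  · refine intervalIntegral.integral_congr fun θ _ => ?_
    have := (h.2.2 θ).ne'
    show (‖deriv (bc ρ) θ‖ / ρ θ) ^ 2 = 1 + (deriv ρ θ / ρ θ) ^ 2
    rw [div_pow, norm_deriv_bc_sq h θ, div_pow, add_div, div_self (pow_ne_zero 2 this)]

end Pool.Agent.Helper61.EF
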