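import Pool.Agent.Helper61.EF.Defs

/-!
PROJECT EF, module EF-01. Calculus of the boundary curve `bc ρ θ = ρ θ * exp (θ I)`.

All direct: `HasDerivAt` of `θ ↦ exp (θ I)` is `I exp (θ I)`; `Complex.exp_periodic`-type identities; `‖exp (θ I)‖ = 1`
(`Complex.norm_exp_ofReal_mul_I`). For `cross_bc` write `e = exp (θ I)`, `cross (r e) ((r' + r I) e) = r ^ 2 ‖e‖ ^ 2`.
`deriv_bc_ne`: its norm squared is `ρ² + ρ'² > 0`. `eq_smul_of_cross`: two plane vectors with cross product `0`, the second one not `0`.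
-/

set_option autoImplicit false

namespace Pool.Agent.Helper61.EF

open Complex MeasureTheory Set

variable {ρ : ℝ → ℝ}

theorem bc_periodic (h : IsRadial ρ) (θ : ℝ) : bc ρ (θ + 2 * Real.pi) = bc ρ θ := by
  unfold bc
  rw [h.2.1 θ]
  congr 1
  rw [show (((θ + 2 * Real.pi : ℝ) : ℂ) * I) = (θ : ℂ) * I + 2 * Real.pi * I by push_cast; ring]
  exact Complex.exp_periodic _

theorem bc_contDiff (h : IsRadial ρ) : ContDiff ℝ 1 (bc ρ) := by
  unfold bc
  have h1 : ContDiff ℝ 1 (fun θ : ℝ => (ρ θ : ℂ)) := Complex.ofRealCLM.contDiff.comp h.1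
  have h2 : ContDiff ℝ 1 (fun θ : ℝ => Complex.exp ((θ : ℂ) * I)) := by
    have h3 : ContDiff ℝ 1 (fun θ : ℝ => (θ : ℂ) * I) := by
      have h4 : ContDiff ℝ 1 (fun θ : ℝ => (θ : ℂ)) := Complex.ofRealCLM.contDiff
      exact h4.mul contDiff_const
    exact h3.cexp
  exact h1.mul h2

theorem hasDerivAt_bc (h : IsRadial ρ) (θ : ℝ) :
    HasDerivAt (bc ρ) (((deriv ρ θ : ℝ) + (ρ θ : ℝ) * I) * Complex.exp (θ * I)) θ := by
  have h1 : HasDerivAt ρ (deriv ρ θ) θ := (h.1.differentiable one_ne_zero θ).hasDerivAt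
  have h2 : HasDerivAt (fun θ : ℝ => (ρ θ : ℂ)) ((deriv ρ θ : ℝ) : ℂ) θ := h1.ofReal_comp
  have h3 : HasDerivAt (fun θ : ℝ => (θ : ℂ) * I) (1 * I) θ := (HasDerivAt.ofReal_comp (hasDerivAt_id θ)).mul_const I
  have h4 : HasDerivAt (fun θ : ℝ => Complex.exp ((θ : ℂ) * I)) (Complex.exp ((θ : ℂ) * I) * (1 * I)) θ := h3.cexp
  have h5 := h2.mul h4
  unfold bc
  refine h5.congr_deriv ?_
  ring

theorem norm_bc (h : IsRadial ρ) (θ : ℝ) : ‖bc ρ θ‖ = ρ θ := by
  unfold bc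
  rw [norm_mul, Complex.norm_exp_ofReal_mul_I, mul_one, Complex.norm_real, Real.norm_eq_abs,
    abs_of_pos (h.2.2 θ)]

theorem norm_deriv_bc_sq (h : IsRadial ρ) (θ : ℝ) :
    ‖deriv (bc ρ) θ‖ ^ 2 = ρ θ ^ 2 + deriv ρ θ ^ 2 := by
  rw [(hasDerivAt_bc h θ).deriv, norm_mul, Complex.norm_exp_ofReal_mul_I, mul_one,
    ← Complex.normSq_eq_norm_sq, Complex.normSq_apply]
  simp
  ring

theorem cross_bc (h : IsRadial ρ) (θ : ℝ) : cross (bc ρ θ) (deriv (bc ρ) θ) = ρ θ ^ 2 := by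
  rw [(hasDerivAt_bc h θ).deriv]
  have h1 : ‖Complex.exp ((θ : ℂ) * I)‖ ^ 2 = 1 := by rw [Complex.norm_exp_ofReal_mul_I, one_pow]
  rw [← Complex.normSq_eq_norm_sq, Complex.normSq_apply] at h1
  unfold bc cross
  generalize Complex.exp ((θ : ℂ) * I) = e at *
  simp only [Complex.mul_re, Complex.mul_im, Complex.add_re, Complex.add_im, Complex.ofReal_re,
    Complex.ofReal_im, Complex.I_re, Complex.I_im]
  linear_combination (ρ θ ^ 2) * h1

theorem deriv_bc_periodic (h : IsRadial ρ) (θ : ℝ) :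
    deriv (bc ρ) (θ + 2 * Real.pi) = deriv (bc ρ) θ := by
  have h1 : deriv (fun x => bc ρ (x + 2 * Real.pi)) θ = deriv (bc ρ) (θ + 2 * Real.pi) :=
    deriv_comp_add_const (f := bc ρ) (2 * Real.pi) θ
  rw [← h1]
  congr 1
  funext x
  exact bc_periodic h x

theorem eq_smul_of_cross (a b : ℂ) (hb : b ≠ 0) (h : cross a b = 0) : ∃ l : ℝ, a = (l : ℂ) * b := by
  have hn : b.re * b.re + b.im * b.im ≠ 0 := by
    intro h0
    apply hb
    rw [← Complex.normSq_eq_zero, Complex.normSq_apply]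
    exact h0
  unfold cross at h
  refine ⟨dot a b / (b.re * b.re + b.im * b.im), ?_⟩
  unfold dot
  apply Complex.ext
  · rw [Complex.re_ofReal_mul, div_mul_eq_mul_div, eq_div_iff hn]
    linear_combination b.im * h
  · rw [Complex.im_ofReal_mul, div_mul_eq_mul_div, eq_div_iff hn]
    linear_combination (-b.re) * h

/-- for the disc, `bc' = I bc`. -/
theorem deriv_bc_const (R θ : ℝ) : deriv (bc (fun _ => R)) θ = I * bc (fun _ => R) θ := by
  have h3 : HasDerivAt (fun θ : ℝ => (θ : ℂ) * I) (1 * I) θ := (HasDerivAt.ofReal_comp (hasDerivAt_id θ)).mul_const I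
  have h4 : HasDerivAt (fun θ : ℝ => Complex.exp ((θ : ℂ) * I)) (Complex.exp ((θ : ℂ) * I) * (1 * I)) θ := h3.cexp
  have h5 : HasDerivAt (bc (fun _ => R)) ((R : ℂ) * (Complex.exp ((θ : ℂ) * I) * (1 * I))) θ := h4.const_mul (R : ℂ)
  rw [h5.deriv]
  unfold bc
  ring

end Pool.Agent.Helper61.EF
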