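import Mathlib

/-!
PROJECT EF (MP_18e8f0_an): definitions. The plane is `ℂ`.

* `dot a b` is the Euclidean inner product, `cross a b` the determinant `det (a, b)`; note `cross a b = dot (I * a) b`.
* `div W x`, `curl W x`: divergence and (scalar) curl of a plane field.
* A star-shaped domain is given by a positive `2π`-periodic `C¹` function `ρ`: `dom ρ = {s ρ(θ) e^{iθ} : 0 ≤ s < 1}` with boundary
  `bd ρ = {ρ(θ) e^{iθ}}`, parametrised by `bc ρ`. `cross (bc ρ θ) (bc ρ)' = ρ(θ)²`.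
* `PerfectFlow ρ T`: a classical solution `(u, p)` of the incompressible Euler equations on the closed domain for `0 ≤ t ≤ T`, tangent to the
  boundary, with its Lagrangian flow `g`.
* `turning F a`: the total angle by which the particle `a` turns around the origin.
-/

set_option autoImplicit false

namespace Pool.Agent.Helper61.EF

open Complex MeasureTheory Set

/-- The Euclidean inner product of the plane. -/
def dot (a b : ℂ) : ℝ := a.re * b.re + a.im * b.im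

/-- The determinant of two plane vectors. -/
def cross (a b : ℂ) : ℝ := a.re * b.im - a.im * b.re

/-- Divergence of a plane vector field. -/
noncomputable def div (W : ℂ → ℂ) (x : ℂ) : ℝ := (fderiv ℝ W x 1).re + (fderiv ℝ W x I).im

/-- Scalar curl of a plane vector field. -/
noncomputable def curl (W : ℂ → ℂ) (x : ℂ) : ℝ := (fderiv ℝ W x 1).im - (fderiv ℝ W x I).re

/-- The boundary curve `ρ(θ) e^{iθ}`. -/
noncomputable def bc (ρ : ℝ → ℝ) (θ : ℝ) : ℂ := (ρ θ : ℂ) * Complex.exp (θ * I)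

/-- The open domain bounded by the curve. -/
def dom (ρ : ℝ → ℝ) : Set ℂ := {x | ∃ s θ : ℝ, 0 ≤ s ∧ s < 1 ∧ x = (s : ℂ) * bc ρ θ}

/-- Its boundary. -/
def bd (ρ : ℝ → ℝ) : Set ℂ := Set.range (bc ρ)

/-- Admissible radial functions: `C¹`, `2π`-periodic, positive. -/
def IsRadial (ρ : ℝ → ℝ) : Prop :=
  ContDiff ℝ 1 ρ ∧ (∀ θ, ρ (θ + 2 * Real.pi) = ρ θ) ∧ ∀ θ, 0 < ρ θ

/-- A perfect fluid flow on the closed domain over `[0, T]`, with its Lagrangian flow `g`. -/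
structure PerfectFlow (ρ : ℝ → ℝ) (T : ℝ) where
  u : ℝ → ℂ → ℂ
  p : ℝ → ℂ → ℝ
  g : ℝ → ℂ → ℂ
  smooth_u : ContDiff ℝ 2 (fun q : ℝ × ℂ => u q.1 q.2)
  smooth_p : ContDiff ℝ 2 (fun q : ℝ × ℂ => p q.1 q.2)
  smooth_g : ContDiff ℝ 2 (fun q : ℝ × ℂ => g q.1 q.2)
  euler : ∀ t ∈ Icc (0 : ℝ) T, ∀ x ∈ dom ρ ∪ bd ρ, ∀ v : ℂ,
    dot (deriv (fun s => u s x) t + fderiv ℝ (u t) x (u t x)) v = -(fderiv ℝ (p t) x v)
  div_free : ∀ t ∈ Icc (0 : ℝ) T, ∀ x ∈ dom ρ ∪ bd ρ, div (u t) x = 0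
  tangent : ∀ t ∈ Icc (0 : ℝ) T, ∀ θ : ℝ, cross (u t (bc ρ θ)) (deriv (bc ρ) θ) = 0
  g_zero : ∀ x ∈ dom ρ ∪ bd ρ, g 0 x = x
  g_ode : ∀ t ∈ Icc (0 : ℝ) T, ∀ x ∈ dom ρ ∪ bd ρ, HasDerivAt (fun s => g s x) (u t (g t x)) t
  g_dom : ∀ t ∈ Icc (0 : ℝ) T, BijOn (g t) (dom ρ) (dom ρ)
  g_bd : ∀ t ∈ Icc (0 : ℝ) T, BijOn (g t) (bd ρ) (bd ρ)
  g_det : ∀ t ∈ Icc (0 : ℝ) T, ∀ x ∈ dom ρ ∪ bd ρ, (fderiv ℝ (g t) x).det = 1

variable {ρ : ℝ → ℝ} {T : ℝ}

/-- The total angle by which the particle `a` turns around the origin during `[0, T]`. -/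
noncomputable def turning (F : PerfectFlow ρ T) (a : ℂ) : ℝ :=
  ∫ t in (0 : ℝ)..T, cross (F.g t a) (F.u t (F.g t a)) / ‖F.g t a‖ ^ 2

/-- The displacement field `Dγ(a)⁻¹ γ(a) - a` of the end map `γ = g T`. -/
noncomputable def Zf (F : PerfectFlow ρ T) (a : ℂ) : ℂ :=
  (fderiv ℝ (F.g T) a).inverse (F.g T a) - a

/-- The stream function (normalised to vanish on the boundary). -/
noncomputable def psi (F : PerfectFlow ρ T) (t : ℝ) (x : ℂ) : ℝ :=
  (∫ s in (0 : ℝ)..1, cross x (F.u t ((s : ℂ) * x))) -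
    ∫ s in (0 : ℝ)..1, cross (bc ρ 0) (F.u t ((s : ℂ) * bc ρ 0))

/-- The Bernoulli-type function `x × u - 2 ψ`. -/
noncomputable def Bf (F : PerfectFlow ρ T) (t : ℝ) (x : ℂ) : ℝ := cross x (F.u t x) - 2 * psi F t x

/-- The action function `A(a) = ∫_0^T B(t, g_t a) dt`. -/
noncomputable def Af (F : PerfectFlow ρ T) (a : ℂ) : ℝ := ∫ t in (0 : ℝ)..T, Bf F t (F.g t a)

/-! Elementary algebra. -/

lemma dot_comm (a b : ℂ) : dot a b = dot b a := by unfold dot; ring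
lemma dot_self (a : ℂ) : dot a a = ‖a‖ ^ 2 := by
  rw [← Complex.normSq_eq_norm_sq, Complex.normSq_apply]; rfl
lemma cross_eq_dot (a b : ℂ) : cross a b = dot (I * a) b := by unfold cross dot; simp; ring
lemma cross_self (a : ℂ) : cross a a = 0 := by unfold cross; ring
lemma cross_swap (a b : ℂ) : cross a b = -cross b a := by unfold cross; ring
lemma dot_add_left (a b c : ℂ) : dot (a + b) c = dot a c + dot b c := by unfold dot; simp; ring
lemma dot_add_right (a b c : ℂ) : dot a (b + c) = dot a b + dot a c := by unfold dot; simp; ring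
lemma cross_add_left (a b c : ℂ) : cross (a + b) c = cross a c + cross b c := by
  unfold cross; simp; ring
lemma cross_add_right (a b c : ℂ) : cross a (b + c) = cross a b + cross a c := by
  unfold cross; simp; ring
lemma abs_dot_le (a b : ℂ) : |dot a b| ≤ ‖a‖ * ‖b‖ := by
  have h : (dot a b) ^ 2 ≤ (‖a‖ * ‖b‖) ^ 2 := by
    rw [mul_pow, ← Complex.normSq_eq_norm_sq, ← Complex.normSq_eq_norm_sq, Complex.normSq_apply,
      Complex.normSq_apply]
    unfold dot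
    nlinarith [sq_nonneg (a.re * b.im - a.im * b.re)]
  exact abs_le_of_sq_le_sq h (by positivity)

end Pool.Agent.Helper61.EF
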