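import Pool.Agent.Helper61.EF.Curve

/-!
PROJECT EF, module EF-02. Topology of the domain.

* `mem_dom_iff`: `x = s ρ(θ) e^{iθ}` with `0 ≤ s < 1`. If `x ≠ 0` then `s > 0`, `‖x‖ = s ρ(θ)` and `arg x = θ` mod `2π` (`Complex.arg_mul_cos_add_sin_mul_I_eq_toIocMod`
  or: `x = ‖x‖ exp (arg x I)`, so `exp (arg x I) = exp (θ I)`, `Complex.exp_eq_exp_iff_exists_int`), so `ρ (arg x) = ρ θ` by periodicity
  (`Function.Periodic.int_mul`). Conversely take `θ = arg x`, `s = ‖x‖ / ρ (arg x)`.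
* `isOpen_dom`: near `x ≠ 0` the function `x ↦ ρ (arg x)` is continuous: it is `(hper.lift) (arg x : Real.Angle)` and `arg` is continuous as an angle
  (`Complex.continuousAt_arg_coe_angle`); near `0`: `ρ ≥ m > 0` (continuous periodic positive function, compactness of `[0, 2π]`), so the ball of radius `m` is in `dom ρ`.
  An alternative: the map `(s, θ) ↦ ...`.
* `isCompact_cdom`: `dom ρ ∪ bd ρ` is the image of the compact set `[0,1] × [0, 2π]` under `(s, θ) ↦ s * bc ρ θ` (reduce `θ` mod `2π`).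
* `smul_mem_cdom`, `smul_mem_dom`: clear. `closure_dom`: closed and every boundary point is the limit of `(1 - 1/n) x`.
* `disjoint_dom_bd`: `‖x‖ < ρ (arg x)` on `dom`, `‖x‖ = ρ (arg x)` on `bd`.
-/

set_option autoImplicit false

namespace Pool.Agent.Helper61.EF

open Complex MeasureTheory Set

variable {ρ : ℝ → ℝ}

private lemma dm_per (h : IsRadial ρ) : Function.Periodic ρ (2 * Real.pi) := h.2.1

private lemma dm_rho_arg (h : IsRadial ρ) {s : ℝ} (hs : 0 < s) (θ : ℝ) :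
    ρ (arg ((s : ℂ) * bc ρ θ)) = ρ θ := by
  have hpos : 0 < s * ρ θ := mul_pos hs (h.2.2 θ)
  have h1 : (s : ℂ) * bc ρ θ = ((s * ρ θ : ℝ) : ℂ) * Complex.exp (θ * I) := by
    unfold bc
    push_cast
    ring
  rw [h1, Complex.arg_real_mul _ hpos, Complex.arg_exp_mul_I]
  have h2 : toIocMod Real.two_pi_pos (-Real.pi) θ
      = θ - (toIocDiv Real.two_pi_pos (-Real.pi) θ) • (2 * Real.pi) := rfl
  rw [h2]
  exact (dm_per h).sub_zsmul_eq _

private lemma dm_norm (h : IsRadial ρ) {s : ℝ} (hs : 0 ≤ s) (θ : ℝ) :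
    ‖(s : ℂ) * bc ρ θ‖ = s * ρ θ := by
  rw [norm_mul, norm_bc h, Complex.norm_real, Real.norm_of_nonneg hs]

theorem mem_dom_iff (h : IsRadial ρ) (x : ℂ) : x ∈ dom ρ ↔ ‖x‖ < ρ (arg x) := by
  constructor
  · rintro ⟨s, θ, h0, h1, rfl⟩
    rcases h0.eq_or_lt with h0' | h0'
    · subst h0'
      simp only [Complex.ofReal_zero, zero_mul, norm_zero]
      exact h.2.2 _
    · rw [dm_rho_arg h h0', dm_norm h h0]
      nlinarith [h.2.2 θ]
  · intro hx
    have hp := h.2.2 (arg x)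
    refine ⟨‖x‖ / ρ (arg x), arg x, by positivity, (div_lt_one hp).2 hx, ?_⟩
    unfold bc
    have hne : (ρ (arg x) : ℂ) ≠ 0 := by exact_mod_cast hp.ne'
    rw [← mul_assoc]
    have : ((‖x‖ / ρ (arg x) : ℝ) : ℂ) * (ρ (arg x) : ℂ) = (‖x‖ : ℂ) := by
      push_cast
      field_simp
    rw [this, Complex.norm_mul_exp_arg_mul_I]

theorem mem_bd_iff (h : IsRadial ρ) (x : ℂ) : x ∈ bd ρ ↔ ‖x‖ = ρ (arg x) := by
  constructor
  · rintro ⟨θ, rfl⟩
    have h1 := dm_rho_arg h one_pos θ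
    rw [Complex.ofReal_one, one_mul] at h1
    rw [h1, norm_bc h]
  · intro hx
    refine ⟨arg x, ?_⟩
    unfold bc
    rw [← hx, Complex.norm_mul_exp_arg_mul_I]

private lemma dm_cont_arg (h : IsRadial ρ) {x : ℂ} (hx : x ≠ 0) :
    ContinuousAt (fun y : ℂ => ρ (arg y)) x := by
  have h1 : ContinuousAt (fun y : ℂ => ((arg y : ℝ) : Real.Angle)) x :=
    Complex.continuousAt_arg_coe_angle hx
  have h2 : Continuous ((dm_per h).lift : AddCircle (2 * Real.pi) → ℝ) :=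
    (h.1.continuous).quotient_liftOn' _
  exact ContinuousAt.comp (g := ((dm_per h).lift : AddCircle (2 * Real.pi) → ℝ))
    (f := fun y : ℂ => ((arg y : ℝ) : Real.Angle)) h2.continuousAt h1

private lemma dm_bc_cont (h : IsRadial ρ) : Continuous (bc ρ) := (bc_contDiff h).continuous

private lemma dm_bc_per (h : IsRadial ρ) : Function.Periodic (bc ρ) (2 * Real.pi) :=
  fun θ => bc_periodic h θ

theorem isOpen_dom (h : IsRadial ρ) : IsOpen (dom ρ) := by
  rw [isOpen_iff_mem_nhds]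
  intro x hx
  rcases eq_or_ne x 0 with h0 | h0
  · subst h0
    have hne : (Icc (0 : ℝ) (2 * Real.pi)).Nonempty := ⟨0, le_refl _, Real.two_pi_pos.le⟩
    obtain ⟨t0, ht0, hmin⟩ := isCompact_Icc.exists_isMinOn hne h.1.continuous.continuousOn
    have hlow : ∀ θ, ρ t0 ≤ ρ θ := by
      intro θ
      obtain ⟨y, hy, hyθ⟩ := (dm_per h).exists_mem_Ico₀ Real.two_pi_pos θ
      rw [hyθ]
      exact hmin ⟨hy.1, hy.2.le⟩
    refine Filter.mem_of_superset (Metric.ball_mem_nhds (0 : ℂ) (h.2.2 t0)) ?_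
    intro y hy
    rw [mem_dom_iff h]
    rw [mem_ball_zero_iff] at hy
    exact lt_of_lt_of_le hy (hlow _)
  · have hc : ContinuousAt (fun y : ℂ => ρ (arg y) - ‖y‖) x :=
      (dm_cont_arg h h0).sub continuous_norm.continuousAt
    have hpos : 0 < ρ (arg x) - ‖x‖ := sub_pos.2 ((mem_dom_iff h x).1 hx)
    filter_upwards [hc.eventually (lt_mem_nhds hpos)] with y hy
    exact (mem_dom_iff h y).2 (sub_pos.1 hy)

theorem isCompact_cdom (h : IsRadial ρ) : IsCompact (dom ρ ∪ bd ρ) := by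
  have hK : IsCompact ((Icc (0 : ℝ) 1) ×ˢ (Icc (0 : ℝ) (2 * Real.pi))) :=
    isCompact_Icc.prod isCompact_Icc
  have hc : Continuous (fun q : ℝ × ℝ => (q.1 : ℂ) * bc ρ q.2) :=
    (Complex.continuous_ofReal.comp continuous_fst).mul ((dm_bc_cont h).comp continuous_snd)
  have he : dom ρ ∪ bd ρ
      = (fun q : ℝ × ℝ => (q.1 : ℂ) * bc ρ q.2) '' ((Icc (0 : ℝ) 1) ×ˢ (Icc (0 : ℝ) (2 * Real.pi))) := by
    ext x
    constructor
    · rintro (⟨s, θ, h0, h1, rfl⟩ | ⟨θ, rfl⟩)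
      · obtain ⟨y, hy, hyθ⟩ := (dm_bc_per h).exists_mem_Ico₀ Real.two_pi_pos θ
        refine ⟨(s, y), ⟨⟨h0, h1.le⟩, ⟨hy.1, hy.2.le⟩⟩, ?_⟩
        simp only
        rw [hyθ]
      · obtain ⟨y, hy, hyθ⟩ := (dm_bc_per h).exists_mem_Ico₀ Real.two_pi_pos θ
        refine ⟨(1, y), ⟨⟨zero_le_one, le_refl _⟩, ⟨hy.1, hy.2.le⟩⟩, ?_⟩
        simp only
        rw [hyθ, Complex.ofReal_one, one_mul]
    · rintro ⟨⟨s, θ⟩, ⟨⟨h0, h1⟩, -⟩, rfl⟩
      simp only at h0 h1
      rcases h1.eq_or_lt with h1' | h1'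
      · right
        refine ⟨θ, ?_⟩
        simp only
        rw [h1', Complex.ofReal_one, one_mul]
      · left
        exact ⟨s, θ, h0, h1', rfl⟩
  rw [he]
  exact hK.image hc

theorem closure_dom (h : IsRadial ρ) : closure (dom ρ) = dom ρ ∪ bd ρ := by
  apply Subset.antisymm
  · exact closure_minimal subset_union_left (isCompact_cdom h).isClosed
  · apply union_subset subset_closure
    rintro x ⟨θ, rfl⟩
    have hc : Continuous (fun s : ℝ => (s : ℂ) * bc ρ θ) :=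
      Complex.continuous_ofReal.mul continuous_const
    have h1 : (1 : ℝ) ∈ closure (Ico (0 : ℝ) 1) := by
      rw [closure_Ico (zero_ne_one)]
      exact ⟨zero_le_one, le_refl _⟩
    have h2 : (fun s : ℝ => (s : ℂ) * bc ρ θ) 1
        ∈ closure ((fun s : ℝ => (s : ℂ) * bc ρ θ) '' Ico (0 : ℝ) 1) :=
      image_closure_subset_closure_image hc ⟨1, h1, rfl⟩
    have h3 : (fun s : ℝ => (s : ℂ) * bc ρ θ) '' Ico (0 : ℝ) 1 ⊆ dom ρ := by
      rintro y ⟨s, hs, rfl⟩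
      exact ⟨s, θ, hs.1, hs.2, rfl⟩
    have h4 := closure_mono h3 h2
    simpa using h4

theorem smul_mem_cdom {x : ℂ} (hx : x ∈ dom ρ ∪ bd ρ) {s : ℝ} (h0 : 0 ≤ s)
    (h1 : s ≤ 1) : (s : ℂ) * x ∈ dom ρ ∪ bd ρ := by
  rcases hx with ⟨t, θ, ht0, ht1, rfl⟩ | ⟨θ, rfl⟩
  · left
    refine ⟨s * t, θ, mul_nonneg h0 ht0, ?_, ?_⟩
    · nlinarith
    · push_cast
      ring
  · rcases h1.eq_or_lt with h1' | h1'
    · right
      refine ⟨θ, ?_⟩
      rw [h1', Complex.ofReal_one, one_mul]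
    · left
      exact ⟨s, θ, h0, h1', rfl⟩

theorem zero_mem_dom : (0 : ℂ) ∈ dom ρ := by
  refine ⟨0, 0, le_refl _, zero_lt_one, ?_⟩
  simp

end Pool.Agent.Helper61.EF
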