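import Pool.Agent.Helper61.EF.BoundA
import Pool.Agent.Helper61.EF.BoundB

/-!
PROJECT EF, module EF-23. Corollaries: flows returning to the initial state.

* `rest`: `γ = id` on `dom ρ ∪ bd ρ` and turning `0` of one boundary point. `boundA` gives `k`, and `2πk = 0`, so `k = 0`; `Zf = 0` on `dom ρ` (`Zf_of_mul` with `c = 1`), so `∫ ‖u t‖² ≤ 0` and `eq_zero_of_integral`.
* `rigid`: the same with `boundB`, `c = exp (β I)`; `Ω = (β + 2πk)/T`.
-/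

set_option autoImplicit false

namespace Pool.Agent.Helper61.EF

open Complex MeasureTheory Set

variable {ρ : ℝ → ℝ} {T : ℝ}

theorem rest (h : IsRadial ρ) (hT : 0 < T) (F : PerfectFlow ρ T)
    (hg : ∀ x ∈ dom ρ ∪ bd ρ, F.g T x = x) (h0 : turning F (bc ρ 0) = 0) :
    ∀ t ∈ Icc (0 : ℝ) T, ∀ x ∈ dom ρ ∪ bd ρ, F.u t x = 0 := by
  obtain ⟨k, hk, hb⟩ := boundA h hT F fun x hx => hg x (Or.inr hx)
  have hk0 : (k : ℝ) = 0 := by
    have h1 := hk (bc ρ 0) ⟨0, rfl⟩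
    rw [h0] at h1
    exact (mul_eq_zero.1 h1.symm).resolve_left (by positivity)
  have hZ : ∫ x in dom ρ, ‖Zf F x‖ ^ 2 = 0 := by
    apply setIntegral_eq_zero_of_forall_eq_zero
    intro x hx
    rw [Zf_of_mul h F 1 one_ne_zero (fun y hy => by rw [hg y (Or.inl hy), one_mul]) hx, norm_zero]
    norm_num
  intro t ht x hx
  have h2 := hb t ht
  rw [hZ, Real.sqrt_zero, mul_zero, hk0, abs_zero, zero_mul, zero_mul, add_zero] at h2
  have h3 : Real.sqrt (∫ x in dom ρ, ‖F.u t x‖ ^ 2) ≤ 0 := by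
    by_contra hcon
    push Not at hcon
    exact absurd h2 (not_le.2 (mul_pos hT hcon))
  have h4 : ∫ x in dom ρ, ‖F.u t x‖ ^ 2 ≤ 0 :=
    Real.sqrt_eq_zero'.1 (le_antisymm h3 (Real.sqrt_nonneg _))
  have hc : Continuous fun x => ‖F.u t x‖ ^ 2 := by
    have h5 : Continuous fun x : ℂ => F.u t x :=
      F.smooth_u.continuous.comp (f := fun x : ℂ => ((t, x) : ℝ × ℂ)) (by fun_prop)
    exact h5.norm.pow 2
  have h6 := eq_zero_of_integral h (fun x => ‖F.u t x‖ ^ 2) hc (fun x => by positivity) h4 x hx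
  have h7 : ‖F.u t x‖ ^ 2 = 0 := h6
  exact norm_eq_zero.1 (pow_eq_zero_iff (two_ne_zero)|>.1 h7)

theorem rigid {R : ℝ} (hR : 0 < R) (hT : 0 < T) (F : PerfectFlow (fun _ => R) T) (β : ℝ)
    (hg : ∀ x ∈ dom (fun _ => R) ∪ bd (fun _ => R), F.g T x = Complex.exp (β * I) * x) :
    ∃ Ω : ℝ, Complex.exp ((Ω * T : ℝ) * I) = Complex.exp (β * I) ∧
      ∀ t ∈ Icc (0 : ℝ) T, ∀ x ∈ dom (fun _ => R) ∪ bd (fun _ => R),
        F.u t x = (Ω : ℂ) * (I * x) := by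
  have hrad : IsRadial fun _ : ℝ => R := ⟨contDiff_const, fun _ => rfl, fun _ => hR⟩
  obtain ⟨k, _, hb⟩ := boundB hR hT F β fun x hx => hg x (Or.inr hx)
  refine ⟨(β + 2 * Real.pi * k) / T, ?_, ?_⟩
  · rw [div_mul_cancel₀ _ hT.ne', Complex.exp_eq_exp_iff_exists_int]
    refine ⟨k, ?_⟩
    push_cast
    ring
  have hZ : ∫ x in dom (fun _ : ℝ => R), ‖Zf F x‖ ^ 2 = 0 := by
    apply setIntegral_eq_zero_of_forall_eq_zero
    intro x hx
    rw [Zf_of_mul hrad F (Complex.exp (β * I)) (Complex.exp_ne_zero _)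
      (fun y hy => hg y (Or.inl hy)) hx, norm_zero]
    norm_num
  intro t ht x hx
  have h2 := hb t ht
  rw [hZ, Real.sqrt_zero, mul_zero] at h2
  obtain ⟨Ω, hΩ⟩ : ∃ Ω : ℝ, Ω = (β + 2 * Real.pi * k) / T := ⟨_, rfl⟩
  rw [← hΩ] at h2 ⊢
  have h3 : Real.sqrt (∫ x in dom (fun _ : ℝ => R), ‖F.u t x - (Ω : ℂ) * (I * x)‖ ^ 2) ≤ 0 := by
    by_contra hcon
    push Not at hcon
    exact absurd h2 (not_le.2 (mul_pos hT hcon))
  have h4 : ∫ x in dom (fun _ : ℝ => R), ‖F.u t x - (Ω : ℂ) * (I * x)‖ ^ 2 ≤ 0 :=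
    Real.sqrt_eq_zero'.1 (le_antisymm h3 (Real.sqrt_nonneg _))
  have hc : Continuous fun x => ‖F.u t x - (Ω : ℂ) * (I * x)‖ ^ 2 := by
    have h5 : Continuous fun x : ℂ => F.u t x :=
      F.smooth_u.continuous.comp (f := fun x : ℂ => ((t, x) : ℝ × ℂ)) (by fun_prop)
    exact (h5.sub (by fun_prop)).norm.pow 2
  have h6 := eq_zero_of_integral hrad (fun x => ‖F.u t x - (Ω : ℂ) * (I * x)‖ ^ 2) hc
    (fun x => by positivity) h4 x hx
  have h7 : ‖F.u t x - (Ω : ℂ) * (I * x)‖ ^ 2 = 0 := h6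
  exact sub_eq_zero.1 (norm_eq_zero.1 (pow_eq_zero_iff (two_ne_zero)|>.1 h7))

end Pool.Agent.Helper61.EF
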