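import Pool.Agent.Helper61.EF.Polar

/-!
PROJECT EF, module EF-04. The divergence theorem for a star-shaped domain.

Put `c = bc ρ`, `Fl(s) = ∫_0^{2π} cross (W (s c)) (s c') dθ`, so `Fl 0 = 0`, `Fl 1` is the right-hand side. Differentiating under the integral
(the integrand is `C¹` in `s`, jointly continuous with its `s`-derivative): `Fl'(s) = ∫ [cross (DW(s c) c) (s c') + cross (W (s c)) c'] dθ`. The function `θ ↦ cross (W (s c θ)) (c θ)` is
`2π`-periodic and `C¹`, so `0 = ∫ d/dθ = ∫ [cross (DW(s c) (s c')) c + cross (W (s c)) c'] dθ`. Subtract: `Fl'(s) = s ∫ [cross (L c) c' - cross (L c') c] dθ` with `L = DW(s c)`, and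
`cross (L a) b - cross (L b) a = (tr L) cross a b`, i.e. `= div W (s c) * cross c c' = div W (s c) ρ^2` (`cross_bc`) (write `L a = a.re L 1 + a.im L I`).
So `Fl 1 - Fl 0 = ∫_0^1 ∫_0^{2π} s ρ² div W (s c) dθ ds`, which is `∫_{dom} div W` by `integral_dom` (the function `div W` is continuous) and Fubini for a continuous function on a rectangle
(`intervalIntegral_integral_interval_swap`-type lemma: `MeasureTheory.integral_integral_swap` / `intervalIntegral.integral_integral_swap...`).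
-/

set_option autoImplicit false

namespace Pool.Agent.Helper61.EF

open Complex MeasureTheory Set

variable {ρ : ℝ → ℝ}

private theorem flux_lin (L : ℂ →L[ℝ] ℂ) (a : ℂ) : L a = (a.re : ℂ) * L 1 + (a.im : ℂ) * L I := by
  have h : a = a.re • (1 : ℂ) + a.im • I := by
    apply Complex.ext <;> simp
  conv_lhs => rw [h]
  rw [map_add, map_smul, map_smul]
  simp [Complex.real_smul]

private theorem flux_trace (L : ℂ →L[ℝ] ℂ) (a b : ℂ) :
    cross (L a) b - cross (L b) a = ((L 1).re + (L I).im) * cross a b := by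
  rw [flux_lin L a, flux_lin L b]
  unfold cross
  simp
  ring

private theorem flux_cross_cont {X : Type*} [TopologicalSpace X] {a b : X → ℂ} (ha : Continuous a) (hb : Continuous b) :
    Continuous fun x => cross (a x) (b x) := by
  unfold cross
  fun_prop

private theorem flux_div_cont (W : ℂ → ℂ) (hW : ContDiff ℝ 1 W) : Continuous (div W) := by
  have h1 : Continuous (fderiv ℝ W) := hW.continuous_fderiv one_ne_zero
  unfold div
  have h2 : Continuous fun x => fderiv ℝ W x 1 := h1.clm_apply continuous_const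
  have h3 : Continuous fun x => fderiv ℝ W x I := h1.clm_apply continuous_const
  fun_prop

private theorem flux_cross_deriv {a b : ℝ → ℂ} {a' b' : ℂ} {t : ℝ} (ha : HasDerivAt a a' t)
    (hb : HasDerivAt b b' t) :
    HasDerivAt (fun s => cross (a s) (b s)) (cross a' (b t) + cross (a t) b') t := by
  have are : HasDerivAt (fun s => (a s).re) a'.re t :=
    (Complex.reCLM.hasFDerivAt.comp_hasDerivAt t ha)
  have aim : HasDerivAt (fun s => (a s).im) a'.im t :=
    (Complex.imCLM.hasFDerivAt.comp_hasDerivAt t ha)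
  have bre : HasDerivAt (fun s => (b s).re) b'.re t :=
    (Complex.reCLM.hasFDerivAt.comp_hasDerivAt t hb)
  have bim : HasDerivAt (fun s => (b s).im) b'.im t :=
    (Complex.imCLM.hasFDerivAt.comp_hasDerivAt t hb)
  have h := (are.mul bim).sub (aim.mul bre)
  have e : cross a' (b t) + cross (a t) b' =
      a'.re * (b t).im + (a t).re * b'.im - (a'.im * (b t).re + (a t).im * b'.re) := by
    unfold cross
    ring
  rw [e]
  exact h

theorem flux (h : IsRadial ρ) (W : ℂ → ℂ) (hW : ContDiff ℝ 1 W) :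
    ∫ x in dom ρ, div W x = ∫ θ in (0 : ℝ)..(2 * Real.pi), cross (W (bc ρ θ)) (deriv (bc ρ) θ) := by
  have hWc : Continuous W := hW.continuous
  have hWf : Continuous (fderiv ℝ W) := hW.continuous_fderiv one_ne_zero
  have hWd : ∀ x, HasFDerivAt W (fderiv ℝ W x) x := fun x =>
    ((hW.differentiable one_ne_zero) x).hasFDerivAt
  have hc : Continuous (bc ρ) := (bc_contDiff h).continuous
  have hc' : Continuous (deriv (bc ρ)) := (bc_contDiff h).continuous_deriv le_rfl
  have hcd : ∀ θ, HasDerivAt (bc ρ) (deriv (bc ρ) θ) θ := fun θ =>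
    (((bc_contDiff h).differentiable one_ne_zero) θ).hasDerivAt
  rw [integral_dom h (div W) (flux_div_cont W hW)]
  -- the two derivatives
  let A : ℝ → ℝ → ℝ := fun θ s =>
    cross (fderiv ℝ W ((s : ℂ) * bc ρ θ) (bc ρ θ)) ((s : ℂ) * deriv (bc ρ) θ) +
      cross (W ((s : ℂ) * bc ρ θ)) (deriv (bc ρ) θ)
  let B : ℝ → ℝ → ℝ := fun θ s =>
    cross (fderiv ℝ W ((s : ℂ) * bc ρ θ) ((s : ℂ) * deriv (bc ρ) θ)) (bc ρ θ) +
      cross (W ((s : ℂ) * bc ρ θ)) (deriv (bc ρ) θ)
  have hAB : ∀ θ s : ℝ, s * ρ θ ^ 2 * div W ((s : ℂ) * bc ρ θ) = A θ s - B θ s := by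
    intro θ s
    have e := flux_trace (fderiv ℝ W ((s : ℂ) * bc ρ θ)) (bc ρ θ) ((s : ℂ) * deriv (bc ρ) θ)
    have e2 : cross (bc ρ θ) ((s : ℂ) * deriv (bc ρ) θ) = s * ρ θ ^ 2 := by
      rw [← cross_bc h θ]
      unfold cross
      simp
      ring
    rw [e2] at e
    show _ = (_ + _) - (_ + _)
    rw [add_sub_add_right_eq_sub, e]
    unfold div
    ring
  have hsc : Continuous fun q : ℝ × ℝ => ((q.2 : ℂ) * bc ρ q.1) :=
    (Complex.continuous_ofReal.comp continuous_snd).mul (hc.comp continuous_fst)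
  have hscd : Continuous fun q : ℝ × ℝ => ((q.2 : ℂ) * deriv (bc ρ) q.1) :=
    (Complex.continuous_ofReal.comp continuous_snd).mul (hc'.comp continuous_fst)
  have hAc : Continuous fun q : ℝ × ℝ => A q.1 q.2 := by
    refine Continuous.add (flux_cross_cont ?_ hscd) (flux_cross_cont (hWc.comp hsc) (hc'.comp continuous_fst))
    exact (hWf.comp hsc).clm_apply (hc.comp continuous_fst)
  have hBc : Continuous fun q : ℝ × ℝ => B q.1 q.2 := by
    refine Continuous.add (flux_cross_cont ?_ (hc.comp continuous_fst))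
      (flux_cross_cont (hWc.comp hsc) (hc'.comp continuous_fst))
    exact (hWf.comp hsc).clm_apply hscd
  have hA1 : ∀ θ, ∫ s in (0 : ℝ)..1, A θ s = cross (W (bc ρ θ)) (deriv (bc ρ) θ) := by
    intro θ
    have hder : ∀ s : ℝ, HasDerivAt (fun s : ℝ => cross (W ((s : ℂ) * bc ρ θ)) ((s : ℂ) * deriv (bc ρ) θ)) (A θ s) s := by
      intro s
      have h1 : HasDerivAt (fun s : ℝ => (s : ℂ) * bc ρ θ) (bc ρ θ) s := by
        simpa using (Complex.ofRealCLM.hasDerivAt (x := s)).mul_const (bc ρ θ)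
      have h2 : HasDerivAt (fun s : ℝ => (s : ℂ) * deriv (bc ρ) θ) (deriv (bc ρ) θ) s := by
        simpa using (Complex.ofRealCLM.hasDerivAt (x := s)).mul_const (deriv (bc ρ) θ)
      have h3 : HasDerivAt (fun s : ℝ => W ((s : ℂ) * bc ρ θ))
          (fderiv ℝ W ((s : ℂ) * bc ρ θ) (bc ρ θ)) s := (hWd _).comp_hasDerivAt s h1
      exact flux_cross_deriv h3 h2
    rw [intervalIntegral.integral_eq_sub_of_hasDerivAt (fun s _ => hder s)
      ((hAc.comp (Continuous.prodMk_right θ)).intervalIntegrable _ _)]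
    unfold cross
    simp
  have hB1 : ∀ s, ∫ θ in (0 : ℝ)..(2 * Real.pi), B θ s = 0 := by
    intro s
    have hder : ∀ θ : ℝ, HasDerivAt (fun θ : ℝ => cross (W ((s : ℂ) * bc ρ θ)) (bc ρ θ)) (B θ s) θ := by
      intro θ
      have h1 : HasDerivAt (fun θ : ℝ => (s : ℂ) * bc ρ θ) ((s : ℂ) * deriv (bc ρ) θ) θ :=
        (hcd θ).const_mul (s : ℂ)
      have h3 : HasDerivAt (fun θ : ℝ => W ((s : ℂ) * bc ρ θ))
          (fderiv ℝ W ((s : ℂ) * bc ρ θ) ((s : ℂ) * deriv (bc ρ) θ)) θ := (hWd _).comp_hasDerivAt θ h1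
      exact flux_cross_deriv h3 (hcd θ)
    rw [intervalIntegral.integral_eq_sub_of_hasDerivAt (fun θ _ => hder θ)
      ((hBc.comp (Continuous.prodMk_left s)).intervalIntegrable _ _)]
    have hp : bc ρ (2 * Real.pi) = bc ρ 0 := by
      have := bc_periodic h 0
      rwa [zero_add] at this
    rw [hp, sub_self]
  have hswap : ∫ θ in (0 : ℝ)..(2 * Real.pi), ∫ s in (0 : ℝ)..1, B θ s =
      ∫ s in (0 : ℝ)..1, ∫ θ in (0 : ℝ)..(2 * Real.pi), B θ s := by
    apply MeasureTheory.intervalIntegral_intervalIntegral_swap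
    have hK : IsCompact (uIcc (0 : ℝ) (2 * Real.pi) ×ˢ uIcc (0 : ℝ) 1) := isCompact_uIcc.prod isCompact_uIcc
    exact (hBc.continuousOn.integrableOn_compact hK).mono_set (Set.prod_mono uIoc_subset_uIcc uIoc_subset_uIcc)
  have hAs : ∀ θ, IntervalIntegrable (fun s => A θ s) volume 0 1 := fun θ =>
    (hAc.comp (Continuous.prodMk_right θ)).intervalIntegrable _ _
  have hBs : ∀ θ, IntervalIntegrable (fun s => B θ s) volume 0 1 := fun θ =>
    (hBc.comp (Continuous.prodMk_right θ)).intervalIntegrable _ _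
  have hAi : IntervalIntegrable (fun θ => ∫ s in (0 : ℝ)..1, A θ s) volume 0 (2 * Real.pi) := by
    have : (fun θ => ∫ s in (0 : ℝ)..1, A θ s) = fun θ => cross (W (bc ρ θ)) (deriv (bc ρ) θ) := by
      funext θ
      exact hA1 θ
    rw [this]
    exact (flux_cross_cont (hWc.comp hc) hc').intervalIntegrable _ _
  have hBi : IntervalIntegrable (fun θ => ∫ s in (0 : ℝ)..1, B θ s) volume 0 (2 * Real.pi) :=
    (intervalIntegral.continuous_parametric_intervalIntegral_of_continuous' hBc 0 1).intervalIntegrable _ _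
  calc ∫ θ in (0 : ℝ)..(2 * Real.pi), ∫ s in (0 : ℝ)..1, s * ρ θ ^ 2 * div W ((s : ℂ) * bc ρ θ)
      = ∫ θ in (0 : ℝ)..(2 * Real.pi), ((∫ s in (0 : ℝ)..1, A θ s) - ∫ s in (0 : ℝ)..1, B θ s) := by
        refine intervalIntegral.integral_congr fun θ _ => ?_
        show (∫ s in (0 : ℝ)..1, s * ρ θ ^ 2 * div W ((s : ℂ) * bc ρ θ)) = _
        rw [← intervalIntegral.integral_sub (hAs θ) (hBs θ)]
        exact intervalIntegral.integral_congr fun s _ => hAB θ s
    _ = (∫ θ in (0 : ℝ)..(2 * Real.pi), ∫ s in (0 : ℝ)..1, A θ s) -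
          ∫ θ in (0 : ℝ)..(2 * Real.pi), ∫ s in (0 : ℝ)..1, B θ s :=
        intervalIntegral.integral_sub hAi hBi
    _ = ∫ θ in (0 : ℝ)..(2 * Real.pi), cross (W (bc ρ θ)) (deriv (bc ρ) θ) := by
        rw [hswap]
        have h0 : ∫ s in (0 : ℝ)..1, ∫ θ in (0 : ℝ)..(2 * Real.pi), B θ s = 0 := by
          simp [hB1]
        rw [h0, sub_zero]
        exact intervalIntegral.integral_congr fun θ _ => hA1 θ

end Pool.Agent.Helper61.EF
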