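import Pool.Agent.Helper61.EF.Dom

/-!
PROJECT EF, module EF-08. The variational equation of the flow.

Let `G (t, x) = g t x`, a `C²` map, `D = fderiv ℝ G`, which is `C¹`. `fderiv ℝ (g s) a v = D (s, a) (0, v)` (chain rule, affine inclusion `x ↦ (s, x)`). Its derivative in `s` at `t` is
`(fderiv ℝ D (t, a) (1, 0)) (0, v) = (fderiv ℝ D (t, a) (0, v)) (1, 0)` (symmetry of the second derivative: `ContDiffAt.isSymmSndFDerivAt` / `second_derivative_symmetric`), which is the derivative at `a` in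
direction `v` of `x ↦ D (t, x) (1, 0) = deriv (fun s => g s x) t`. For `x` in the open set `dom ρ` this function equals `u t (g t x)` (`g_ode`), so the derivative is
`fderiv ℝ (u t) (g t a) (fderiv ℝ (g t) a v)` (chain rule).
`fderiv_g_zero`: `g 0 = id` on the open set `dom ρ`.
-/

set_option autoImplicit false

namespace Pool.Agent.Helper61.EF

open Complex MeasureTheory Set

variable {ρ : ℝ → ℝ} {T : ℝ}

private lemma vr_slice {G : ℝ × ℂ → ℂ} (hG : ContDiff ℝ 2 G) (s : ℝ) (x : ℂ) :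
    HasFDerivAt (fun y => G (s, y)) ((fderiv ℝ G (s, x)).comp (ContinuousLinearMap.inr ℝ ℝ ℂ)) x := by
  have h1 : HasFDerivAt G (fderiv ℝ G (s, x)) (s, x) :=
    ((hG.differentiable (by norm_num)) (s, x)).hasFDerivAt
  have h2 : HasFDerivAt (fun y : ℂ => (s, y)) (ContinuousLinearMap.inr ℝ ℝ ℂ) x :=
    hasFDerivAt_prodMk_right s x
  exact h1.comp x h2

private lemma vr_time {E : Type*} [NormedAddCommGroup E] [NormedSpace ℝ E] {G : ℝ × ℂ → E}
    (hG : Differentiable ℝ G) (t : ℝ) (x : ℂ) :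
    HasDerivAt (fun s => G (s, x)) (fderiv ℝ G (t, x) (1, 0)) t := by
  have h1 : HasFDerivAt G (fderiv ℝ G (t, x)) (t, x) := (hG (t, x)).hasFDerivAt
  have h2 : HasFDerivAt (fun s : ℝ => (s, x)) (ContinuousLinearMap.inl ℝ ℝ ℂ) t :=
    hasFDerivAt_prodMk_left t x
  have h3 : HasDerivAt (fun s => G (s, x))
      (((fderiv ℝ G (t, x)).comp (ContinuousLinearMap.inl ℝ ℝ ℂ)) 1) t :=
    (h1.comp t h2).hasDerivAt
  simpa using h3

private lemma vr_space {E : Type*} [NormedAddCommGroup E] [NormedSpace ℝ E] {G : ℝ × ℂ → E}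
    (hG : Differentiable ℝ G) (t : ℝ) (x : ℂ) :
    HasFDerivAt (fun y => G (t, y)) ((fderiv ℝ G (t, x)).comp (ContinuousLinearMap.inr ℝ ℝ ℂ)) x := by
  have h1 : HasFDerivAt G (fderiv ℝ G (t, x)) (t, x) := (hG (t, x)).hasFDerivAt
  have h2 : HasFDerivAt (fun y : ℂ => (t, y)) (ContinuousLinearMap.inr ℝ ℝ ℂ) x :=
    hasFDerivAt_prodMk_right t x
  exact h1.comp x h2

theorem hasDerivAt_fderiv_g (h : IsRadial ρ) (F : PerfectFlow ρ T) {t : ℝ}
    (ht : t ∈ Icc (0 : ℝ) T) {a : ℂ} (ha : a ∈ dom ρ) (v : ℂ) :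
    HasDerivAt (fun s => fderiv ℝ (F.g s) a v)
      (fderiv ℝ (F.u t) (F.g t a) (fderiv ℝ (F.g t) a v)) t := by
  set G : ℝ × ℂ → ℂ := fun q => F.g q.1 q.2 with hGdef
  have hG : ContDiff ℝ 2 G := F.smooth_g
  have hGd : Differentiable ℝ G := hG.differentiable (by norm_num)
  have hD : ContDiff ℝ 1 (fderiv ℝ G) := hG.fderiv_right (by norm_num)
  have hDd : Differentiable ℝ (fderiv ℝ G) := hD.differentiable (by norm_num)
  have h1 : ∀ s : ℝ, ∀ x w : ℂ, fderiv ℝ (F.g s) x w = fderiv ℝ G (s, x) (0, w) := by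
    intro s x w
    have h := (vr_space hGd s x).fderiv
    have h' : fderiv ℝ (F.g s) x = (fderiv ℝ G (s, x)).comp (ContinuousLinearMap.inr ℝ ℝ ℂ) := h
    rw [h']
    simp
  have h2 : HasDerivAt (fun s => fderiv ℝ G (s, a)) (fderiv ℝ (fderiv ℝ G) (t, a) (1, 0)) t :=
    vr_time hDd t a
  have h3 : HasDerivAt (fun s => fderiv ℝ G (s, a) (0, v))
      (fderiv ℝ (fderiv ℝ G) (t, a) (1, 0) (0, v)) t := by
    have h := h2.clm_apply (hasDerivAt_const t ((0 : ℝ), v))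
    simpa using h
  have hsym : fderiv ℝ (fderiv ℝ G) (t, a) (1, 0) (0, v)
      = fderiv ℝ (fderiv ℝ G) (t, a) (0, v) (1, 0) :=
    (hG.contDiffAt.isSymmSndFDerivAt (by simp)) (1, 0) (0, v)
  have h4 : HasFDerivAt (fun x => fderiv ℝ G (t, x) (1, 0))
      (((fderiv ℝ (fderiv ℝ G) (t, a)).comp (ContinuousLinearMap.inr ℝ ℝ ℂ)).flip (1, 0)) a := by
    have h := (vr_space hDd t a).clm_apply (hasFDerivAt_const ((1 : ℝ), (0 : ℂ)) a)
    simpa using h
  have h5 : ∀ x ∈ dom ρ, fderiv ℝ G (t, x) (1, 0) = F.u t (F.g t x) := by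
    intro x hx
    exact (vr_time hGd t x).unique (F.g_ode t ht x (Or.inl hx))
  have hu : DifferentiableAt ℝ (F.u t) (F.g t a) := by
    have hU : Differentiable ℝ (fun q : ℝ × ℂ => F.u q.1 q.2) :=
      F.smooth_u.differentiable (by norm_num)
    exact (vr_space hU t (F.g t a)).differentiableAt
  have hg : DifferentiableAt ℝ (F.g t) a := (vr_space hGd t a).differentiableAt
  have h6 : HasFDerivAt (fun x => F.u t (F.g t x))
      ((fderiv ℝ (F.u t) (F.g t a)).comp (fderiv ℝ (F.g t) a)) a :=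
    hu.hasFDerivAt.comp a hg.hasFDerivAt
  have h7 : (fun x => fderiv ℝ G (t, x) (1, 0)) =ᶠ[nhds a] (fun x => F.u t (F.g t x)) := by
    filter_upwards [(isOpen_dom h).mem_nhds ha] with x hx
    exact h5 x hx
  have h8 := h4.unique (h6.congr_of_eventuallyEq h7)
  have h9 : fderiv ℝ (fderiv ℝ G) (t, a) (0, v) (1, 0)
      = fderiv ℝ (F.u t) (F.g t a) (fderiv ℝ (F.g t) a v) := by
    have h := congrArg (fun L : ℂ →L[ℝ] ℂ => L v) h8
    simpa using h
  have h10 : (fun s => fderiv ℝ (F.g s) a v) = fun s => fderiv ℝ G (s, a) (0, v) := by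
    funext s
    exact h1 s a v
  rw [h10, ← h9, ← hsym]
  exact h3

theorem fderiv_g_zero (h : IsRadial ρ) (F : PerfectFlow ρ T) {a : ℂ} (ha : a ∈ dom ρ) (v : ℂ) :
    fderiv ℝ (F.g 0) a v = v := by
  have h1 : F.g 0 =ᶠ[nhds a] (fun x => x) := by
    filter_upwards [(isOpen_dom h).mem_nhds ha] with x hx
    exact F.g_zero x (Or.inl hx)
  rw [h1.fderiv_eq, fderiv_fun_id]
  rfl

end Pool.Agent.Helper61.EF
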