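import Pool.Agent.Helper61.EF.Stream
import Pool.Agent.Helper61.EF.Var

/-!
PROJECT EF, module EF-11. The gradient of the action function.

`Af F a = ∫_0^T Bf F t (g t a) dt`; `param_contDiff` (`(a, t) ↦ Bf F t (g t a)` is `C¹` on `ℂ × ℝ`) and `param_fderiv`:
`fderiv ℝ (Af F) a v = ∫_0^T fderiv ℝ (Bf F t) (g t a) (fderiv ℝ (g t) a v) dt`.
For `x ∈ dom ρ`, `t ∈ [0, T]`: `fderiv ℝ (Bf F t) x w = cross w (u t x) + cross x (Du w) - 2 cross w (u t x) = cross (u t x) w + cross x (Du w)` (`psi_fderiv`, `Du = fderiv ℝ (u t) x`).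
With `w(t) = fderiv ℝ (g t) a v`, `x = g t a ∈ dom ρ`: `d/dt cross (g t a) (w t) = cross (u) w + cross (g) (Du w)` (`g_ode`, `hasDerivAt_fderiv_g`) is the integrand.
So the integral is `cross (g T a) (w T) - cross (g 0 a) (w 0) = cross (g T a) (w T) - cross a v` (`intervalIntegral.integral_eq_sub_of_hasDerivAt`, the integrand is continuous on `[0,T]`, being equal there to a globally
continuous function; `fderiv_g_zero`).
-/

set_option autoImplicit false

namespace Pool.Agent.Helper61.EF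

open Complex MeasureTheory Set

variable {ρ : ℝ → ℝ} {T : ℝ}

private theorem ga_cross_fderiv {p q : ℂ → ℂ} {p' q' : ℂ →L[ℝ] ℂ} {x : ℂ} (hp : HasFDerivAt p p' x)
    (hq : HasFDerivAt q q' x) (w : ℂ) :
    DifferentiableAt ℝ (fun y => cross (p y) (q y)) x ∧
      fderiv ℝ (fun y => cross (p y) (q y)) x w = cross (p' w) (q x) + cross (p x) (q' w) := by
  have h1 : HasFDerivAt (fun y => (p y).re) (reCLM.comp p') x := reCLM.hasFDerivAt.comp x hp
  have h2 : HasFDerivAt (fun y => (p y).im) (imCLM.comp p') x := imCLM.hasFDerivAt.comp x hp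
  have h3 : HasFDerivAt (fun y => (q y).re) (reCLM.comp q') x := reCLM.hasFDerivAt.comp x hq
  have h4 : HasFDerivAt (fun y => (q y).im) (imCLM.comp q') x := imCLM.hasFDerivAt.comp x hq
  have h5 := (h1.mul h4).sub (h2.mul h3)
  have h6 : HasFDerivAt (fun y => cross (p y) (q y)) _ x := h5
  refine ⟨h6.differentiableAt, ?_⟩
  rw [h6.fderiv]
  simp only [sub_apply, add_apply, smul_apply, ContinuousLinearMap.comp_apply, reCLM_apply, imCLM_apply,
    smul_eq_mul]
  unfold cross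
  ring

private theorem ga_cross_deriv {p q : ℝ → ℂ} {p' q' : ℂ} {t : ℝ} (hp : HasDerivAt p p' t)
    (hq : HasDerivAt q q' t) :
    HasDerivAt (fun s => cross (p s) (q s)) (cross p' (q t) + cross (p t) q') t := by
  have h1 : HasDerivAt (fun y => (p y).re) p'.re t := (reCLM.hasFDerivAt (x := p t)).comp_hasDerivAt t hp
  have h2 : HasDerivAt (fun y => (p y).im) p'.im t := (imCLM.hasFDerivAt (x := p t)).comp_hasDerivAt t hp
  have h3 : HasDerivAt (fun y => (q y).re) q'.re t := (reCLM.hasFDerivAt (x := q t)).comp_hasDerivAt t hq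
  have h4 : HasDerivAt (fun y => (q y).im) q'.im t := (imCLM.hasFDerivAt (x := q t)).comp_hasDerivAt t hq
  have h5 := (h1.mul h4).sub (h2.mul h3)
  have h6 : HasDerivAt (fun s => cross (p s) (q s)) _ t := h5
  have h7 : p'.re * (q t).im + (p t).re * q'.im - (p'.im * (q t).re + (p t).im * q'.re) =
      cross p' (q t) + cross (p t) q' := by
    unfold cross
    ring
  rw [← h7]
  exact h6

private theorem ga_joint (F : PerfectFlow ρ T) :
    ContDiff ℝ 1 (fun q : ℂ × ℝ => Bf F q.2 (F.g q.2 q.1)) := by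
  have h1 : ContDiff ℝ 1 (fun q : ℂ × ℝ => (q.2, F.g q.2 q.1)) := by
    have h2 : ContDiff ℝ 1 (fun q : ℝ × ℂ => F.g q.1 q.2) := F.smooth_g.of_le (by norm_num)
    have h3 : ContDiff ℝ 1 (fun q : ℂ × ℝ => (q.2, q.1)) := contDiff_snd.prodMk contDiff_fst
    exact contDiff_snd.prodMk (h2.comp h3)
  exact (Bf_contDiff F).comp h1

private theorem ga_u_diff (F : PerfectFlow ρ T) (t : ℝ) : Differentiable ℝ (F.u t) := by
  have h1 : ContDiff ℝ 2 (fun x : ℂ => F.u t x) :=
    F.smooth_u.comp (contDiff_const.prodMk contDiff_id)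
  exact h1.differentiable (by norm_num)

private theorem ga_g_diff (F : PerfectFlow ρ T) (t : ℝ) : Differentiable ℝ (F.g t) := by
  have h1 : ContDiff ℝ 2 (fun x : ℂ => F.g t x) :=
    F.smooth_g.comp (contDiff_const.prodMk contDiff_id)
  exact h1.differentiable (by norm_num)

private theorem ga_psi_diff (F : PerfectFlow ρ T) (t : ℝ) : Differentiable ℝ (psi F t) := by
  have h1 : ContDiff ℝ 1 (fun x : ℂ => psi F t x) :=
    (psi_contDiff F).comp (contDiff_const.prodMk contDiff_id)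
  exact h1.differentiable (by norm_num)

private theorem ga_Bf_fderiv (F : PerfectFlow ρ T) {t : ℝ} (ht : t ∈ Icc (0 : ℝ) T) {x : ℂ}
    (hx : x ∈ dom ρ ∪ bd ρ) (w : ℂ) :
    DifferentiableAt ℝ (Bf F t) x ∧
      fderiv ℝ (Bf F t) x w = cross (F.u t x) w + cross x (fderiv ℝ (F.u t) x w) := by
  have h1 := ga_cross_fderiv (p := fun y : ℂ => y) (q := F.u t) (hasFDerivAt_id x) (ga_u_diff F t x).hasFDerivAt w
  have h2 : DifferentiableAt ℝ (psi F t) x := ga_psi_diff F t x
  have h3 : DifferentiableAt ℝ (fun y => 2 * psi F t y) x := h2.const_mul 2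
  have h4 : Bf F t = fun y => cross y (F.u t y) - 2 * psi F t y := rfl
  have h5 : fderiv ℝ (fun y => cross y (F.u t y) - 2 * psi F t y) x =
      fderiv ℝ (fun y => cross y (F.u t y)) x - fderiv ℝ (fun y => 2 * psi F t y) x :=
    fderiv_sub h1.1 h3
  have h6 : fderiv ℝ (fun y => 2 * psi F t y) x = (2 : ℝ) • fderiv ℝ (psi F t) x :=
    fderiv_const_mul h2 2
  rw [h4]
  refine ⟨h1.1.sub h3, ?_⟩
  rw [h5, h6, sub_apply, smul_apply, h1.2, psi_fderiv F ht hx w, smul_eq_mul]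
  rw [cross_swap (F.u t x) w]
  simp only [ContinuousLinearMap.id_apply]
  ring

theorem Af_contDiff (F : PerfectFlow ρ T) : ContDiff ℝ 1 (Af F) :=
  param_contDiff (fun a t => Bf F t (F.g t a)) (ga_joint F) 0 T

theorem Af_fderiv (h : IsRadial ρ) (hT : 0 ≤ T) (F : PerfectFlow ρ T) {a : ℂ} (ha : a ∈ dom ρ)
    (v : ℂ) :
    fderiv ℝ (Af F) a v = cross (F.g T a) (fderiv ℝ (F.g T) a v) - cross a v := by
  have h1 : fderiv ℝ (Af F) a v = ∫ t in (0 : ℝ)..T, fderiv ℝ (fun y => Bf F t (F.g t y)) a v :=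
    param_fderiv (fun a t => Bf F t (F.g t a)) (ga_joint F) 0 T a v
  rw [h1]
  have hac : a ∈ dom ρ ∪ bd ρ := Or.inl ha
  have key : ∀ t ∈ uIcc (0 : ℝ) T, HasDerivAt (fun s => cross (F.g s a) (fderiv ℝ (F.g s) a v))
      (fderiv ℝ (fun y => Bf F t (F.g t y)) a v) t := by
    intro t ht
    rw [uIcc_of_le hT] at ht
    have hg : F.g t a ∈ dom ρ ∪ bd ρ := Or.inl ((F.g_dom t ht).1 ha)
    have hB := ga_Bf_fderiv F ht hg (fderiv ℝ (F.g t) a v)
    have hch : fderiv ℝ (fun y => Bf F t (F.g t y)) a = (fderiv ℝ (Bf F t) (F.g t a)).comp (fderiv ℝ (F.g t) a) :=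
      fderiv_comp a hB.1 (ga_g_diff F t a)
    rw [hch, ContinuousLinearMap.comp_apply, hB.2]
    exact ga_cross_deriv (F.g_ode t ht a hac) (hasDerivAt_fderiv_g h F ht ha v)
  have hcont : Continuous (fun t : ℝ => fderiv ℝ (fun y => Bf F t (F.g t y)) a v) := by
    have hJ := ga_joint F
    have e : (fun t : ℝ => fderiv ℝ (fun y => Bf F t (F.g t y)) a v) =
        fun t : ℝ => (fderiv ℝ (fun q : ℂ × ℝ => Bf F q.2 (F.g q.2 q.1)) (a, t)) (v, 0) := by
      funext t
      have h2 : HasFDerivAt (fun q : ℂ × ℝ => Bf F q.2 (F.g q.2 q.1))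
          (fderiv ℝ (fun q : ℂ × ℝ => Bf F q.2 (F.g q.2 q.1)) (a, t)) (a, t) :=
        ((hJ.differentiable (by norm_num)) (a, t)).hasFDerivAt
      have h3 : HasFDerivAt (fun y : ℂ => (y, t)) (ContinuousLinearMap.inl ℝ ℂ ℝ) a :=
        hasFDerivAt_prodMk_left a t
      have h4 : HasFDerivAt (fun y => Bf F t (F.g t y))
          ((fderiv ℝ (fun q : ℂ × ℝ => Bf F q.2 (F.g q.2 q.1)) (a, t)).comp (ContinuousLinearMap.inl ℝ ℂ ℝ)) a :=
        HasFDerivAt.comp (g := fun q : ℂ × ℝ => Bf F q.2 (F.g q.2 q.1)) a h2 h3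
      rw [h4.fderiv]
      rfl
    rw [e]
    have h5 : Continuous (fderiv ℝ (fun q : ℂ × ℝ => Bf F q.2 (F.g q.2 q.1))) :=
      hJ.continuous_fderiv (by norm_num)
    exact (h5.comp (continuous_const.prodMk continuous_id)).clm_apply continuous_const
  rw [intervalIntegral.integral_eq_sub_of_hasDerivAt key (hcont.intervalIntegrable 0 T)]
  rw [F.g_zero a hac, fderiv_g_zero h F ha v]

end Pool.Agent.Helper61.EF
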