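import Pool.Agent.Helper61.EF.GradA

/-!
PROJECT EF, module EF-12. The gradient of `A` in terms of `Z = Dγ⁻¹ γ - a`.

`L = fderiv ℝ (g T) a` has determinant `1` (`g_det`), so it is invertible (`LinearMap.equivOfDetNeZero` / `ContinuousLinearMap` version) and `Y = L.inverse (g T a)` satisfies `L Y = g T a`.
`cross (L Y) (L v) = det L * cross Y v` (for every real-linear map of the plane: write `L a = a.re L 1 + a.im L I`; `det L = cross (L 1) (L I)`, compute `LinearMap.det` in the basis `Complex.basisOneI`, see `LinearMap.det_toLin` or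
`Matrix.det_fin_two`). So `Af_fderiv` gives `fderiv ℝ (Af F) a v = cross Y v - cross a v = cross (Zf F a) v`.
`Zc` is the continuous version: for `a ∈ dom ρ`, `fderiv (Af F) a 1 = cross Z 1 = - Z.im`, `fderiv (Af F) a I = Z.re`.
`Zc_continuous`: `Af F` is `C¹`. `Zf_of_id`/`Zf_of_rot`: if `g T x = c x` on the open set `dom ρ` with `c ≠ 0` constant then `fderiv ℝ (g T) a = c • 1` and `Y = a`, so `Z = 0`.
-/

set_option autoImplicit false

namespace Pool.Agent.Helper61.EF

open Complex MeasureTheory Set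

variable {ρ : ℝ → ℝ} {T : ℝ}

/-- the continuous version of `Zf`. -/
noncomputable def Zc (F : PerfectFlow ρ T) (a : ℂ) : ℂ :=
  (fderiv ℝ (Af F) a I : ℝ) - (fderiv ℝ (Af F) a 1 : ℝ) * I

private theorem zf_eq_smul (v : ℂ) : v = (v.re : ℝ) • (1 : ℂ) + (v.im : ℝ) • I := by
  apply Complex.ext <;> simp

private theorem zf_det (L : ℂ →L[ℝ] ℂ) : L.det = cross (L 1) (L I) := by
  have h : L.det = LinearMap.det (L : ℂ →ₗ[ℝ] ℂ) := rfl
  rw [h, ← LinearMap.det_toMatrix Complex.basisOneI, Matrix.det_fin_two]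
  simp only [LinearMap.toMatrix_apply, Complex.coe_basisOneI, Complex.coe_basisOneI_repr]
  simp [cross]
  ring

private theorem zf_cross (L : ℂ →L[ℝ] ℂ) (x y : ℂ) : cross (L x) (L y) = L.det * cross x y := by
  rw [zf_det]
  have hx : L x = (x.re : ℝ) • L 1 + (x.im : ℝ) • L I := by
    conv_lhs => rw [zf_eq_smul x]
    rw [map_add, map_smul, map_smul]
  have hy : L y = (y.re : ℝ) • L 1 + (y.im : ℝ) • L I := by
    conv_lhs => rw [zf_eq_smul y]
    rw [map_add, map_smul, map_smul]
  rw [hx, hy]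
  simp only [cross, Complex.add_re, Complex.add_im, Complex.real_smul, Complex.mul_re,
    Complex.mul_im, Complex.ofReal_re, Complex.ofReal_im, zero_mul, sub_zero, add_zero]
  ring

private theorem zf_ext {x y : ℂ} (h : ∀ v, cross x v = cross y v) : x = y := by
  have h1 := h 1
  have h2 := h I
  simp only [cross, Complex.one_re, Complex.one_im, Complex.I_re, Complex.I_im, mul_zero, mul_one,
    zero_sub, sub_zero, neg_inj] at h1 h2
  exact Complex.ext h2 h1

theorem Zc_continuous (F : PerfectFlow ρ T) : Continuous (Zc F) := by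
  have h : Continuous (fderiv ℝ (Af F)) := (Af_contDiff F).continuous_fderiv (by norm_num)
  unfold Zc
  have h1 : Continuous fun a => fderiv ℝ (Af F) a I := h.clm_apply continuous_const
  have h2 : Continuous fun a => fderiv ℝ (Af F) a 1 := h.clm_apply continuous_const
  exact (Complex.continuous_ofReal.comp h1).sub
    ((Complex.continuous_ofReal.comp h2).mul continuous_const)

theorem cross_Zc (F : PerfectFlow ρ T) (a v : ℂ) : cross (Zc F a) v = fderiv ℝ (Af F) a v := by
  conv_rhs => rw [zf_eq_smul v]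
  rw [map_add, map_smul, map_smul]
  simp only [cross, Zc, Complex.sub_re, Complex.sub_im, Complex.ofReal_re, Complex.ofReal_im,
    Complex.mul_re, Complex.mul_im, Complex.I_re, Complex.I_im, smul_eq_mul]
  ring

theorem Zf_eq_Zc (h : IsRadial ρ) (hT : 0 ≤ T) (F : PerfectFlow ρ T) {a : ℂ} (ha : a ∈ dom ρ) :
    Zf F a = Zc F a := by
  apply zf_ext
  intro v
  rw [cross_Zc, Af_fderiv h hT F ha v]
  have hdet : (fderiv ℝ (F.g T) a).det = 1 := F.g_det T ⟨hT, le_rfl⟩ a (Or.inl ha)
  have hdet' : (fderiv ℝ (F.g T) a).det ≠ 0 := by rw [hdet]; exact one_ne_zero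
  set L := fderiv ℝ (F.g T) a with hL
  set e := ContinuousLinearMap.toContinuousLinearEquivOfDetNeZero L hdet' with he
  have heL : (e : ℂ →L[ℝ] ℂ) = L := by
    rw [he]
    exact ContinuousLinearMap.coe_toContinuousLinearEquivOfDetNeZero L hdet'
  have hinv : L (L.inverse (F.g T a)) = F.g T a := by
    rw [← heL, ContinuousLinearMap.inverse_equiv]
    simp
  have hZ : Zf F a = L.inverse (F.g T a) - a := rfl
  have h1 : cross (F.g T a) (L v) = cross (L.inverse (F.g T a)) v := by
    conv_lhs => rw [← hinv]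
    rw [zf_cross, hdet, one_mul]
  rw [h1, hZ]
  simp only [cross, Complex.sub_re, Complex.sub_im]
  ring

theorem Zf_of_mul (h : IsRadial ρ) (F : PerfectFlow ρ T) (c : ℂ) (hc : c ≠ 0)
    (hg : ∀ x ∈ dom ρ, F.g T x = c * x) {a : ℂ} (ha : a ∈ dom ρ) : Zf F a = 0 := by
  have hev : F.g T =ᶠ[nhds a] fun x => c * x := by
    filter_upwards [(isOpen_dom h).mem_nhds ha] with x hx using hg x hx
  have hfd : fderiv ℝ (F.g T) a = c • ContinuousLinearMap.id ℝ ℂ := by
    rw [hev.fderiv_eq]
    rw [fderiv_const_mul differentiableAt_fun_id, fderiv_fun_id]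
  have hZ : Zf F a = (fderiv ℝ (F.g T) a).inverse (F.g T a) - a := rfl
  let e : ℂ ≃L[ℝ] ℂ := ContinuousLinearEquiv.equivOfInverse (c • ContinuousLinearMap.id ℝ ℂ)
    (c⁻¹ • ContinuousLinearMap.id ℝ ℂ) (fun x => by simp [hc]) (fun x => by simp [hc])
  have he : (e : ℂ →L[ℝ] ℂ) = c • ContinuousLinearMap.id ℝ ℂ := by
    ext x; rfl
  rw [hZ, hfd, hg a ha, ← he, ContinuousLinearMap.inverse_equiv]
  have h2 : (e.symm : ℂ →L[ℝ] ℂ) (c * a) = c⁻¹ * (c * a) := rfl
  rw [h2]
  field_simp
  simp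

end Pool.Agent.Helper61.EF
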