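import Pool.Agent.Helper61.EF.Flux
import Pool.Agent.Helper61.EF.Zfield
import Pool.Agent.Helper61.EF.Circ

/-!
PROJECT EF, module EF-19. Integration by parts against the action function.

* `parts`: let `A = Af F` (`C¹`), `v = F.u 0`, `W = A • (- I * v)` (`C¹`). `div W = A curl v + fderiv A (- I v)` and `fderiv A a (- I v) = cross (Zc) (- I v) = - dot (Zc) v` (`cross_Zc`).
  Flux: `cross (A (-I v)) c' = A(c) dot (v c) c' = m * dot (v c) c'` by the hypothesis. So `∫ A curl v = ∫ dot Zc v + m ∫_0^{2π} dot (v c) c'`, and the last integral is `∫ curl v` (`circ_flux`).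
* `kin_div`: `W = A(x) x`: `div W = 2 A + fderiv A x (x) = 2 A + cross (Zc) x`, flux `A(c) cross c c' = m ρ²` (`cross_bc`).
* `int_B`: `W = ψ x`: `div W = 2 ψ + fderiv ψ x (x) = 2 ψ + cross x u` on `dom ρ`, flux `ψ(c) ρ² = 0`. So `∫ 2ψ = - ∫ cross x u` and `∫ Bf = ∫ (cross x u - 2ψ) = 2 ∫ cross x u`.
-/

set_option autoImplicit false

namespace Pool.Agent.Helper61.EF

open Complex MeasureTheory Set

variable {ρ : ℝ → ℝ} {T : ℝ}

private lemma intOn (h : IsRadial ρ) (f : ℂ → ℝ) (hf : Continuous f) :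
    IntegrableOn f (dom ρ) :=
  (hf.continuousOn.integrableOn_compact (isCompact_cdom h)).mono_set subset_union_left

private lemma div_mul (A : ℂ → ℝ) (V : ℂ → ℂ) (hA : ContDiff ℝ 1 A) (hV : ContDiff ℝ 1 V) (a : ℂ) :
    div (fun x => (A x : ℂ) * V x) a = A a * div V a + fderiv ℝ A a (V a) := by
  have dA : HasFDerivAt A (fderiv ℝ A a) a := (hA.differentiable one_ne_zero a).hasFDerivAt
  have dV : HasFDerivAt V (fderiv ℝ V a) a := (hV.differentiable one_ne_zero a).hasFDerivAt
  have dA' : HasFDerivAt (fun x => (A x : ℂ)) (Complex.ofRealCLM.comp (fderiv ℝ A a)) a :=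
    Complex.ofRealCLM.hasFDerivAt.comp a dA
  have hW := (dA'.mul dV).fderiv
  have e : ∀ v, fderiv ℝ (fun x => (A x : ℂ) * V x) a v =
      (A a : ℂ) * fderiv ℝ V a v + V a * (fderiv ℝ A a v : ℝ) := by
    intro v
    have : fderiv ℝ (fun x => (A x : ℂ) * V x) a = _ := hW
    rw [this]
    simp
  have e2 : fderiv ℝ A a (V a) = (V a).re * fderiv ℝ A a 1 + (V a).im * fderiv ℝ A a I := by
    have h1 : V a = (V a).re • (1 : ℂ) + (V a).im • I := by
      simp [Complex.re_add_im]
    conv_lhs => rw [h1]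
    rw [map_add, map_smul, map_smul, smul_eq_mul, smul_eq_mul]
  unfold div
  rw [e, e, e2]
  simp
  ring

private lemma u_contDiff (F : PerfectFlow ρ T) (t : ℝ) : ContDiff ℝ 1 (F.u t) := by
  have h1 : ContDiff ℝ 2 (fun x : ℂ => F.u (t, x).1 (t, x).2) :=
    F.smooth_u.comp (contDiff_const.prodMk contDiff_id)
  exact h1.of_le (by norm_num)

private lemma contDiff_coe_mul (A : ℂ → ℝ) (V : ℂ → ℂ) (hA : ContDiff ℝ 1 A)
    (hV : ContDiff ℝ 1 V) : ContDiff ℝ 1 (fun x => (A x : ℂ) * V x) :=
  (Complex.ofRealCLM.contDiff.comp hA).mul hV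

theorem parts (h : IsRadial ρ) (F : PerfectFlow ρ T) (m : ℝ) (hm : ∀ θ, Af F (bc ρ θ) = m) :
    ∫ a in dom ρ, Af F a * curl (F.u 0) a =
      (∫ a in dom ρ, dot (Zc F a) (F.u 0 a)) + m * ∫ a in dom ρ, curl (F.u 0) a := by
  have hA : ContDiff ℝ 1 (Af F) := Af_contDiff F
  have hu : ContDiff ℝ 1 (F.u 0) := u_contDiff F 0
  have hV : ContDiff ℝ 1 (fun a => -I * F.u 0 a) := contDiff_const.mul hu
  have hdV : ∀ a, div (fun a => -I * F.u 0 a) a = curl (F.u 0) a := by
    intro a
    have hd : DifferentiableAt ℝ (F.u 0) a := hu.differentiable one_ne_zero a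
    have e : ∀ v, fderiv ℝ (fun a => -I * F.u 0 a) a v = -I * fderiv ℝ (F.u 0) a v := by
      intro v
      rw [fderiv_const_mul hd]
      simp
    unfold div curl
    rw [e, e]
    simp
    ring
  have hfl := flux h (fun a => (Af F a : ℂ) * (-I * F.u 0 a)) (contDiff_coe_mul _ _ hA hV)
  have hdiv : ∀ a, div (fun a => (Af F a : ℂ) * (-I * F.u 0 a)) a =
      Af F a * curl (F.u 0) a - dot (Zc F a) (F.u 0 a) := by
    intro a
    rw [div_mul (Af F) (fun a => -I * F.u 0 a) hA hV a, hdV, ← cross_Zc F a]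
    unfold cross dot
    simp
    ring
  have hflux : ∀ θ, cross ((Af F (bc ρ θ) : ℂ) * (-I * F.u 0 (bc ρ θ))) (deriv (bc ρ) θ) =
      m * dot (F.u 0 (bc ρ θ)) (deriv (bc ρ) θ) := by
    intro θ
    rw [hm θ]
    unfold cross dot
    simp
    ring
  have hcu : Continuous (curl (F.u 0)) := by
    have h1 : Continuous (fun a => fderiv ℝ (F.u 0) a) := hu.continuous_fderiv one_ne_zero
    have h2 : Continuous (fun a => fderiv ℝ (F.u 0) a 1) := h1.clm_apply continuous_const
    have h3 : Continuous (fun a => fderiv ℝ (F.u 0) a I) := h1.clm_apply continuous_const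
    exact (Complex.continuous_im.comp h2).sub (Complex.continuous_re.comp h3)
  have hcd : Continuous (fun a => dot (Zc F a) (F.u 0 a)) := by
    have h1 := Zc_continuous F
    have h2 := hu.continuous
    unfold dot
    fun_prop
  simp only [hdiv, hflux] at hfl
  have hac : Continuous (fun a => Af F a * curl (F.u 0) a) := hA.continuous.mul hcu
  rw [integral_sub (intOn h _ hac) (intOn h _ hcd),
    intervalIntegral.integral_const_mul, ← circ_flux h F 0] at hfl
  linarith

theorem kin_div (h : IsRadial ρ) (F : PerfectFlow ρ T) (m : ℝ) (hm : ∀ θ, Af F (bc ρ θ) = m) :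
    2 * (∫ a in dom ρ, Af F a) + ∫ a in dom ρ, cross (Zc F a) a =
      m * ∫ θ in (0 : ℝ)..(2 * Real.pi), ρ θ ^ 2 := by
  have hA : ContDiff ℝ 1 (Af F) := Af_contDiff F
  have hfl := flux h (fun a => (Af F a : ℂ) * a) (contDiff_coe_mul _ _ hA contDiff_id)
  have hdiv : ∀ a, div (fun a => (Af F a : ℂ) * a) a = 2 * Af F a + cross (Zc F a) a := by
    intro a
    have h1 := div_mul (Af F) (fun a => a) hA contDiff_id a
    have h2 : div (fun a : ℂ => a) a = 2 := by
      unfold div
      have : fderiv ℝ (fun a : ℂ => a) a = ContinuousLinearMap.id ℝ ℂ := fderiv_id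
      rw [this]
      simp
      norm_num
    rw [h1, h2, cross_Zc]
    ring
  have hflux : ∀ θ, cross ((Af F (bc ρ θ) : ℂ) * bc ρ θ) (deriv (bc ρ) θ) = m * ρ θ ^ 2 := by
    intro θ
    rw [hm θ, ← cross_bc h θ]
    unfold cross
    simp
    ring
  have hcc : Continuous (fun a => cross (Zc F a) a) := by
    have h1 := Zc_continuous F
    unfold cross
    fun_prop
  simp only [hdiv, hflux] at hfl
  rw [integral_add ((intOn h _ hA.continuous).const_mul 2) (intOn h _ hcc),
    intervalIntegral.integral_const_mul, integral_const_mul] at hfl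
  exact hfl

theorem int_B (h : IsRadial ρ) (F : PerfectFlow ρ T) {t : ℝ} (ht : t ∈ Icc (0 : ℝ) T) :
    ∫ x in dom ρ, Bf F t x = 2 * ∫ x in dom ρ, cross x (F.u t x) := by
  have hA : ContDiff ℝ 1 (psi F t) := by
    have h1 : ContDiff ℝ 1 (fun x : ℂ => psi F (t, x).1 (t, x).2) :=
      (psi_contDiff F).comp (contDiff_const.prodMk contDiff_id)
    exact h1
  have hfl := flux h (fun a => (psi F t a : ℂ) * a) (contDiff_coe_mul _ _ hA contDiff_id)
  have hdiv : ∀ a ∈ dom ρ, div (fun a => (psi F t a : ℂ) * a) a =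
      2 * psi F t a + cross a (F.u t a) := by
    intro a ha
    have h1 := div_mul (psi F t) (fun a => a) hA contDiff_id a
    have h2 : div (fun a : ℂ => a) a = 2 := by
      unfold div
      have : fderiv ℝ (fun a : ℂ => a) a = ContinuousLinearMap.id ℝ ℂ := fderiv_id
      rw [this]
      simp
      norm_num
    rw [h1, h2, psi_fderiv F ht (Or.inl ha)]
    ring
  have hflux : ∀ θ, cross ((psi F t (bc ρ θ) : ℂ) * bc ρ θ) (deriv (bc ρ) θ) = 0 := by
    intro θ
    rw [psi_bd h F ht θ]
    simp [cross]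
  rw [setIntegral_congr_fun (isOpen_dom h).measurableSet hdiv] at hfl
  simp only [hflux, intervalIntegral.integral_zero] at hfl
  have hcc : Continuous (fun x => cross x (F.u t x)) := by
    have h1 := (u_contDiff F t).continuous
    unfold cross
    fun_prop
  rw [integral_add ((intOn h _ hA.continuous).const_mul 2) (intOn h _ hcc)] at hfl
  have hB : ∫ x in dom ρ, Bf F t x =
      (∫ x in dom ρ, cross x (F.u t x)) - ∫ x in dom ρ, 2 * psi F t x := by
    unfold Bf
    exact integral_sub (intOn h _ hcc) ((intOn h _ hA.continuous).const_mul 2)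
  rw [hB]
  linarith

end Pool.Agent.Helper61.EF
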