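import Pool.Agent.Helper61.EF.Dom

/-!
PROJECT EF, module EF-03. Polar coordinates in a star-shaped domain.

`Complex.integral_comp_polarCoord_symm` applied to `indicator (dom ρ) f`: the integral is `∫_{θ ∈ (-π, π)} ∫_{r > 0} r * indicator (dom ρ) f (r e^{iθ})`
(`setIntegral_prod`, the function is integrable by `integrableOn_dom`; alternatively use the set `{(r, θ) : 0 < r < ρ θ}`), and for `-π < θ < π`, `r > 0`:
`r e^{iθ} ∈ dom ρ ↔ r < ρ θ` (`mem_dom_iff`, `Complex.arg_mul_cos_add_sin_mul_I` or uniqueness). So the inner integral is `∫_0^{ρ θ} r f (r e^{iθ}) dr = ∫_0^1 s ρ(θ)^2 f (s bc ρ θ) ds`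
(substitution `r = s ρ θ`, `intervalIntegral.integral_comp_mul_left`). Finally `∫_{-π}^{π} = ∫_0^{2π}` for a `2π`-periodic function
(`Function.Periodic.intervalIntegral_add_eq`). `integrableOn_dom`: continuous on the compact set `dom ∪ bd` (`isCompact_cdom`).
-/

set_option autoImplicit false

namespace Pool.Agent.Helper61.EF

open Complex MeasureTheory Set

variable {ρ : ℝ → ℝ}

theorem measurableSet_dom (h : IsRadial ρ) : MeasurableSet (dom ρ) := (isOpen_dom h).measurableSet

theorem integrableOn_dom {E : Type*} [NormedAddCommGroup E] (h : IsRadial ρ) (f : ℂ → E) (hf : Continuous f) :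
    IntegrableOn f (dom ρ) :=
  (hf.continuousOn.integrableOn_compact (isCompact_cdom h)).mono_set subset_union_left

private lemma pl_symm (p : ℝ × ℝ) : Complex.polarCoord.symm p = (p.1 : ℂ) * Complex.exp (p.2 * I) := by
  rw [Complex.polarCoord_symm_apply, Complex.exp_mul_I]
  push_cast
  ring

private lemma pl_mem (h : IsRadial ρ) {r θ : ℝ} (hr : 0 < r) (hθ : θ ∈ Ioo (-Real.pi) Real.pi) :
    (r : ℂ) * Complex.exp (θ * I) ∈ dom ρ ↔ r < ρ θ := by
  rw [mem_dom_iff h, Complex.arg_real_mul _ hr, Complex.arg_exp_mul_I,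
    (toIocMod_eq_self Real.two_pi_pos).2 ⟨hθ.1, by linarith [hθ.2]⟩, norm_mul, Complex.norm_exp_ofReal_mul_I,
    mul_one, Complex.norm_real, Real.norm_of_nonneg hr.le]

private lemma pl_bdd (h : IsRadial ρ) : ∃ M : ℝ, ∀ θ, ρ θ ≤ M := by
  have hper : Function.Periodic ρ (2 * Real.pi) := h.2.1
  obtain ⟨t0, -, hmax⟩ := isCompact_Icc.exists_isMaxOn (s := Icc (0 : ℝ) (2 * Real.pi))
    ⟨0, le_refl _, Real.two_pi_pos.le⟩ h.1.continuous.continuousOn
  refine ⟨ρ t0, fun θ => ?_⟩
  obtain ⟨y, hy, hyθ⟩ := hper.exists_mem_Ico₀ Real.two_pi_pos θ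
  rw [hyθ]
  exact hmax ⟨hy.1, hy.2.le⟩

private lemma pl_bc_cont (h : IsRadial ρ) : Continuous (bc ρ) := (bc_contDiff h).continuous

theorem integral_dom (h : IsRadial ρ) (f : ℂ → ℝ) (hf : Continuous f) :
    ∫ x in dom ρ, f x = ∫ θ in (0 : ℝ)..(2 * Real.pi), ∫ s in (0 : ℝ)..1,
      s * ρ θ ^ 2 * f ((s : ℂ) * bc ρ θ) := by
  set F : ℝ × ℝ → ℝ := fun p => p.1 * f ((p.1 : ℂ) * Complex.exp (p.2 * I)) with hF
  have hFc : Continuous F := by
    rw [hF]
    refine continuous_fst.mul (hf.comp ?_)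
    exact (Complex.continuous_ofReal.comp continuous_fst).mul
      (Complex.continuous_exp.comp ((Complex.continuous_ofReal.comp continuous_snd).mul continuous_const))
  set S : Set (ℝ × ℝ) := {p | p.1 < ρ p.2} with hS
  have hSo : IsOpen S := isOpen_lt continuous_fst (h.1.continuous.comp continuous_snd)
  obtain ⟨M, hM⟩ := pl_bdd h
  have hint : IntegrableOn (S.indicator F) (Ioi (0 : ℝ) ×ˢ Ioo (-Real.pi) Real.pi) := by
    have hT : MeasurableSet (Ioi (0 : ℝ) ×ˢ Ioo (-Real.pi) Real.pi) := measurableSet_Ioi.prod measurableSet_Ioo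
    rw [integrableOn_indicator_iff hSo.measurableSet]
    refine (hFc.continuousOn.integrableOn_compact (K := Icc (0 : ℝ) M ×ˢ Icc (-Real.pi) Real.pi) (isCompact_Icc.prod isCompact_Icc)).mono_set ?_
    rintro ⟨r, θ⟩ ⟨h1, h2, h3⟩
    exact ⟨⟨le_of_lt h2, le_trans (le_of_lt h1) (hM θ)⟩, ⟨h3.1.le, h3.2.le⟩⟩
  have e1 : ∫ x in dom ρ, f x = ∫ p in Ioi (0 : ℝ) ×ˢ Ioo (-Real.pi) Real.pi, S.indicator F p := by
    rw [← integral_indicator (measurableSet_dom h), ← Complex.integral_comp_polarCoord_symm]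
    refine setIntegral_congr_fun (measurableSet_Ioi.prod measurableSet_Ioo) ?_
    rintro ⟨r, θ⟩ ⟨hr, hθ⟩
    have hr' : 0 < r := hr
    have hm := pl_mem h hr' hθ
    simp only [pl_symm, smul_eq_mul]
    by_cases hc : r < ρ θ
    · rw [indicator_of_mem (hm.2 hc), indicator_of_mem (show (r, θ) ∈ S from hc)]
    · rw [indicator_of_notMem (fun h' => hc (hm.1 h')), indicator_of_notMem (show (r, θ) ∉ S from hc), mul_zero]
  have e2 : ∫ p in Ioi (0 : ℝ) ×ˢ Ioo (-Real.pi) Real.pi, S.indicator F p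
      = ∫ θ in Ioo (-Real.pi) Real.pi, ∫ r in Ioi (0 : ℝ), S.indicator F (r, θ) := by
    rw [Measure.volume_eq_prod, ← Measure.prod_restrict]
    refine integral_prod_symm _ ?_
    rw [Measure.prod_restrict]
    exact hint
  have e3 : ∀ θ : ℝ, ∫ r in Ioi (0 : ℝ), S.indicator F (r, θ)
      = ∫ s in (0 : ℝ)..1, s * ρ θ ^ 2 * f ((s : ℂ) * bc ρ θ) := by
    intro θ
    have hp := h.2.2 θ
    have h1 : (fun r => S.indicator F (r, θ)) = (Iio (ρ θ)).indicator (fun r => F (r, θ)) := by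
      ext r
      by_cases hc : r < ρ θ
      · rw [indicator_of_mem (show (r, θ) ∈ S from hc), indicator_of_mem (show r ∈ Iio (ρ θ) from hc)]
      · rw [indicator_of_notMem (show (r, θ) ∉ S from hc), indicator_of_notMem (show r ∉ Iio (ρ θ) from hc)]
    rw [h1, setIntegral_indicator measurableSet_Iio, Ioi_inter_Iio, ← integral_Ioc_eq_integral_Ioo,
      ← intervalIntegral.integral_of_le hp.le]
    have h2 := intervalIntegral.smul_integral_comp_mul_left (a := 0) (b := 1) (fun r => F (r, θ)) (ρ θ)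
    rw [mul_zero, mul_one] at h2
    rw [← h2, smul_eq_mul, ← intervalIntegral.integral_const_mul]
    refine intervalIntegral.integral_congr fun s _ => ?_
    simp only [hF, bc]
    have h3 : ((ρ θ * s : ℝ) : ℂ) * Complex.exp (θ * I) = (s : ℂ) * ((ρ θ : ℂ) * Complex.exp (θ * I)) := by
      push_cast
      ring
    rw [h3]
    ring
  rw [e1, e2]
  simp only [e3]
  rw [← integral_Ioc_eq_integral_Ioo, ← intervalIntegral.integral_of_le (by linarith [Real.pi_pos])]
  have hper : Function.Periodic (fun θ : ℝ => ∫ s in (0 : ℝ)..1, s * ρ θ ^ 2 * f ((s : ℂ) * bc ρ θ)) (2 * Real.pi) := by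
    intro θ
    simp only [h.2.1 θ, bc_periodic h θ]
  have h4 := hper.intervalIntegral_add_eq (-Real.pi) 0
  rw [show -Real.pi + 2 * Real.pi = Real.pi by ring, zero_add] at h4
  exact h4

/-- the area. -/
theorem integral_dom_one (h : IsRadial ρ) :
    ∫ _x in dom ρ, (1 : ℝ) = (1 / 2) * ∫ θ in (0 : ℝ)..(2 * Real.pi), ρ θ ^ 2 := by
  rw [integral_dom h (fun _ => (1 : ℝ)) continuous_const, ← intervalIntegral.integral_const_mul]
  refine intervalIntegral.integral_congr fun θ _ => ?_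
  simp only [mul_one]
  rw [intervalIntegral.integral_mul_const, integral_id]
  ring

end Pool.Agent.Helper61.EF
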